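import Pool.Agent.H88.A4.Iface2

/-!
# W1 stage 2 (MP_b39724_nt): elementary facts on the involution `τ` of `M / k`
-/

set_option autoImplicit false
set_option linter.unusedSectionVars false

open scoped NumberField

namespace Pool.Agent.H12.WM

open H88.A4

variable {k M : Type} [Field k] [NumberField k] [Field M] [NumberField M] [Algebra k M]

theorem tO_mul (τ : M ≃ₐ[k] M) (x y : 𝓞 M) : tO τ (x * y) = tO τ x * tO τ y :=
  NumberField.RingOfIntegers.coe_injective (map_mul τ (x : M) (y : M))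

theorem tO_add (τ : M ≃ₐ[k] M) (x y : 𝓞 M) : tO τ (x + y) = tO τ x + tO τ y :=
  NumberField.RingOfIntegers.coe_injective (map_add τ (x : M) (y : M))

theorem tO_sub (τ : M ≃ₐ[k] M) (x y : 𝓞 M) : tO τ (x - y) = tO τ x - tO τ y :=
  NumberField.RingOfIntegers.coe_injective (map_sub τ (x : M) (y : M))

theorem tO_neg (τ : M ≃ₐ[k] M) (x : 𝓞 M) : tO τ (-x) = -tO τ x :=
  NumberField.RingOfIntegers.coe_injective (map_neg τ (x : M))

theorem tO_pow (τ : M ≃ₐ[k] M) (x : 𝓞 M) (n : ℕ) : tO τ (x ^ n) = tO τ x ^ n :=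
  NumberField.RingOfIntegers.coe_injective (map_pow τ (x : M) n)

theorem tO_zero (τ : M ≃ₐ[k] M) : tO τ (0 : 𝓞 M) = 0 :=
  NumberField.RingOfIntegers.coe_injective (map_zero τ)

theorem tO_one (τ : M ≃ₐ[k] M) : tO τ (1 : 𝓞 M) = 1 :=
  NumberField.RingOfIntegers.coe_injective (map_one τ)

theorem tO_inj (τ : M ≃ₐ[k] M) {x y : 𝓞 M} (h : tO τ x = tO τ y) : x = y := by
  apply NumberField.RingOfIntegers.coe_injective
  apply τ.injective
  exact congrArg (fun z : 𝓞 M => (z : M)) h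

theorem tO_tO {τ : M ≃ₐ[k] M} (hτ : Invo k M τ) (x : 𝓞 M) : tO τ (tO τ x) = x :=
  NumberField.RingOfIntegers.coe_injective (hτ.inv (x : M))

theorem tO_ne {τ : M ≃ₐ[k] M} {x : 𝓞 M} (h : x ≠ 0) : tO τ x ≠ 0 := by
  intro h0
  apply h
  apply tO_inj τ
  rw [h0, tO_zero]

/-- an integral element with `τ(δ) = -δ` -/
theorem exists_delta {τ : M ≃ₐ[k] M} (hτ : Invo k M τ) : ∃ δ : 𝓞 M, δ ≠ 0 ∧ tO τ δ = -δ := by
  obtain ⟨x, hx⟩ : ∃ x : 𝓞 M, tO τ x ≠ x := by
    by_contra hcon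
    push Not at hcon
    have h1 : ∀ x : M, x ∈ (algebraMap k M).range := by
      intro x
      rw [← hτ.fix]
      obtain ⟨a, b, hb, rfl⟩ := IsFractionRing.div_surjective (A := 𝓞 M) x
      rw [map_div₀]
      have h3 : τ (algebraMap (𝓞 M) M a) = algebraMap (𝓞 M) M a :=
        congrArg (fun z : 𝓞 M => (z : M)) (hcon a)
      have h4 : τ (algebraMap (𝓞 M) M b) = algebraMap (𝓞 M) M b :=
        congrArg (fun z : 𝓞 M => (z : M)) (hcon b)
      rw [h3, h4]
    have h2 : Module.finrank k M = 1 := by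
      rw [finrank_eq_one_iff_of_nonzero' (1 : M) one_ne_zero]
      intro w
      obtain ⟨c, hc⟩ := h1 w
      exact ⟨c, by rw [Algebra.smul_def, mul_one]; exact hc⟩
    rw [hτ.deg] at h2
    exact absurd h2 (by norm_num)
  refine ⟨x - tO τ x, sub_ne_zero.2 (Ne.symm hx), ?_⟩
  rw [tO_sub, tO_tO hτ]
  ring

theorem fixed_int {τ : M ≃ₐ[k] M} (hτ : Invo k M τ) {x : 𝓞 M} (h : tO τ x = x) :
    ∃ y : 𝓞 k, algebraMap (𝓞 k) (𝓞 M) y = x := by
  have h1 : τ (x : M) = x := congrArg (fun z : 𝓞 M => (z : M)) h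
  obtain ⟨y, hy⟩ := (hτ.fix _).1 h1
  have hint : IsIntegral ℤ y := by
    rw [← isIntegral_algebraMap_iff (algebraMap k M).injective, hy]
    exact x.2
  refine ⟨⟨y, hint⟩, ?_⟩
  apply NumberField.RingOfIntegers.coe_injective
  exact hy

theorem bd_desc {y : 𝓞 k} {x : 𝓞 M} (h : algebraMap (𝓞 k) (𝓞 M) y = x) {H : ℝ} (hx : Bd H x) :
    Bd H y := by
  intro ψ
  have h1 := hx (NumberField.ComplexEmbedding.lift M ψ)
  have h2 : (NumberField.ComplexEmbedding.lift M ψ) (x : M) = ψ (y : k) := by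
    rw [← h]
    exact NumberField.ComplexEmbedding.lift_algebraMap_apply M ψ (y : k)
  rw [h2] at h1
  exact h1

end Pool.Agent.H12.WM
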