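import Mathlib

/-!
# [H12 WM Dec] W1, step 9.3: the decomposition `(n) = b0 g1 g2 m²` (Mathlib only)

PROOF. `N ≠ 0` an ideal of a Dedekind domain. For a prime `l` let `e(l)` be its exponent in `N`. Let `m = ∏ l^(e(l)/2)`, `Rd = ∏ over the l with e(l) odd of l`;
finite products over the prime factors of `N` (compare `exists_pow_ideal` in Pool/Agent/H94/TL/Glob.lean, `Ideal.finprod_heightOneSpectrum_pow_multiplicity`,
`Ideal.finite_factors`; or induction over the multiset `normalizedFactors N`). `N = Rd m²`. Split the product `Rd` in three: `b0` over the `l` with `D ∈ l`,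
`g1` over the `l` with `D ∉ l`, `p ∈ l`, `g2` over the remaining ones (`q ∈ l`). `b0 ∣ (D)`: the `l` are different primes and each divides `(D)`
(`Finset.prod_primes_dvd` or `Finset.inf`/`prod_le_inf`, coprime ideals). In the same way `g1 ∣ (p)`, that is `p ∈ g1`, `q ∈ g2`.
-/

set_option autoImplicit false

open IsDedekindDomain

namespace Pool.Agent.H12.WM

private theorem prod_dvd {R : Type} [CommRing R] [IsDedekindDomain R] (T : Finset (Ideal R))
    (hT : ∀ l ∈ T, Prime l) (e : Ideal R → ℕ) (x : R) (h : ∀ l ∈ T, Odd (e l) → x ∈ l) :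
    ∏ l ∈ T, l ^ (e l % 2) ∣ Ideal.span {x} := by
  refine Finset.prod_dvd_of_coprime ?_ ?_
  · intro l hl l' hl' hne
    have h1 := Ideal.isPrime_of_prime (hT l hl)
    have h2 := Ideal.isPrime_of_prime (hT l' hl')
    have h3 : l.IsMaximal := h1.isMaximal (hT l hl).ne_zero
    have h4 : l'.IsMaximal := h2.isMaximal (hT l' hl').ne_zero
    have h5 : IsCoprime l l' := by
      rw [Ideal.isCoprime_iff_sup_eq]
      exact h3.coprime_of_ne h4 hne
    exact h5.pow
  · intro l hl
    rcases Nat.even_or_odd (e l) with h1 | h1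
    · rw [Nat.even_iff.1 h1, pow_zero]
      exact one_dvd _
    · rw [Nat.odd_iff.1 h1, pow_one, Ideal.dvd_span_singleton]
      exact h l hl h1

theorem decomp {R : Type} [CommRing R] [IsDedekindDomain R] {N : Ideal R} (hN : N ≠ ⊥) {D p q : R}
    (h : ∀ l : HeightOneSpectrum R, Odd (multiplicity l.asIdeal N) →
      D ∈ l.asIdeal ∨ p ∈ l.asIdeal ∨ q ∈ l.asIdeal) :
    ∃ b0 g1 g2 m : Ideal R, N = b0 * g1 * g2 * m ^ 2 ∧ b0 ∣ Ideal.span {D} ∧ p ∈ g1 ∧ q ∈ g2 := by
  classical
  set s := UniqueFactorizationMonoid.normalizedFactors N with hs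
  set e : Ideal R → ℕ := fun l => s.count l with he
  have hpr : ∀ l ∈ s.toFinset, Prime l := fun l hl =>
    UniqueFactorizationMonoid.prime_of_normalized_factor l (Multiset.mem_toFinset.1 hl)
  have hh : ∀ l ∈ s.toFinset, Odd (e l) → D ∈ l ∨ p ∈ l ∨ q ∈ l := by
    intro l hl hodd
    have h1 := hpr l hl
    refine h ⟨l, Ideal.isPrime_of_prime h1, h1.ne_zero⟩ ?_
    have h2 := UniqueFactorizationMonoid.multiplicity_eq_count_normalizedFactors h1.irreducible
      (show N ≠ 0 from hN)
    rw [normalize_eq] at h2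
    rw [show multiplicity (HeightOneSpectrum.asIdeal ⟨l, Ideal.isPrime_of_prime h1, h1.ne_zero⟩) N
      = e l from h2]
    exact hodd
  set T0 := s.toFinset.filter fun l => D ∈ l with hT0
  set T1 := (s.toFinset.filter fun l => D ∉ l).filter fun l => p ∈ l with hT1
  set T2 := (s.toFinset.filter fun l => D ∉ l).filter fun l => p ∉ l with hT2
  refine ⟨∏ l ∈ T0, l ^ (e l % 2), ∏ l ∈ T1, l ^ (e l % 2), ∏ l ∈ T2, l ^ (e l % 2),
    ∏ l ∈ s.toFinset, l ^ (e l / 2), ?_, ?_, ?_, ?_⟩
  · rw [mul_assoc (∏ l ∈ T0, l ^ (e l % 2)), hT1, hT2, Finset.prod_filter_mul_prod_filter_not, hT0,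
      Finset.prod_filter_mul_prod_filter_not, ← Finset.prod_pow, ← Finset.prod_mul_distrib]
    have h1 : N = s.prod := (Ideal.prod_normalizedFactors_eq_self hN).symm
    rw [Finset.prod_multiset_count] at h1
    refine h1.trans (Finset.prod_congr rfl fun l _ => ?_)
    rw [← pow_mul, ← pow_add]
    congr 1
    have := Nat.mod_add_div (e l) 2
    change s.count l = e l % 2 + e l / 2 * 2
    change e l = e l % 2 + e l / 2 * 2
    omega
  · refine prod_dvd T0 (fun l hl => hpr l (Finset.mem_filter.1 hl).1) e D fun l hl _ =>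
      (Finset.mem_filter.1 hl).2
  · rw [← Ideal.dvd_span_singleton]
    refine prod_dvd T1 (fun l hl => hpr l (Finset.mem_filter.1 (Finset.mem_filter.1 hl).1).1) e p
      fun l hl _ => (Finset.mem_filter.1 hl).2
  · rw [← Ideal.dvd_span_singleton]
    refine prod_dvd T2 (fun l hl => hpr l (Finset.mem_filter.1 (Finset.mem_filter.1 hl).1).1) e q
      fun l hl hodd => ?_
    have h1 := Finset.mem_filter.1 hl
    have h2 := Finset.mem_filter.1 h1.1
    rcases hh l h2.1 hodd with h3 | h3 | h3
    · exact absurd h3 h2.2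
    · exact absurd h3 h1.2
    · exact h3

end Pool.Agent.H12.WM
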