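import Pool.Agent.H12.WM.Nrm

/-!
# [H12 WM Eta] W1, step 9.2: `a u v n η` is a square, `n ≠ 0`

`η = p t1 + q t2`, `n = v p³ + u q³`.

PROOF. `η · (p² v t2 - p q u v + q² u t1) = u v n` (with `t1 t2 = uv`, `t1² = v t2`, `t2² = u t1` from `dat_rel`; in a commutative ring this is
`Pool.Agent.H12.WM.eta_theta` in `H12/WM/Ezero.lean`, copy it:
`linear_combination (p ^ 3 * v + q ^ 3 * u) * h12 + p * q ^ 2 * u * h11 + p ^ 2 * q * v * h22`).
`zz u v t1 t2 β = u v D2 - u D3 t1 - v D1 t2 = p² v t2 - p q u v + q² u t1`. So `a u v n η = a zz η²`, a square.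
`n ≠ 0`: `N η = p³ u v² + q³ u² v = u v n` by `norm_lin` (`x0 = 0`), and `η ≠ 0` because `p ≠ 0` and `1, t1, t2` is a basis
(`Algebra.norm_ne_zero_iff`; `B.repr η 1 = p`).
-/

set_option autoImplicit false

open scoped NumberField

namespace Pool.Agent.H12.WM

open H88.A4

variable {K F : Type} [Field K] [NumberField K] [Field F] [NumberField F] [Algebra K F]

theorem eta_sq {u v : 𝓞 K} {t1 t2 a : F} (h : Dat F u v t1 t2 a) (hu : u ≠ 0) (hv : v ≠ 0)
    {β : Blk (𝓞 K)} (hsq : IsSquare (a * zz u v t1 t2 β)) {p q : 𝓞 K} (hp : p ≠ 0)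
    (h1 : β.D1 = -p ^ 2) (h2 : β.D2 = -(p * q)) (h3 : β.D3 = -q ^ 2) :
    v * p ^ 3 + u * q ^ 3 ≠ 0 ∧
      IsSquare (a * algebraMap K F ((u * v * (v * p ^ 3 + u * q ^ 3) : 𝓞 K) : K) *
          (algebraMap K F (p : K) * t1 + algebraMap K F (q : K) * t2)) := by
  obtain ⟨h11, h22⟩ := dat_rel h hu hv
  obtain ⟨B, hB0, hB1, hB2⟩ := dat_basis h hu hv
  have h12 : t1 * t2 = algebraMap K F ((u : K) * (v : K)) := h.prd
  have huK : (u : K) ≠ 0 := by exact_mod_cast hu
  have hvK : (v : K) ≠ 0 := by exact_mod_cast hv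
  have hpK : (p : K) ≠ 0 := by exact_mod_cast hp
  constructor
  · -- the norm
    have hN := norm_lin B hB0 hB1 hB2 h11 h22 h12 0 (p : K) (q : K)
    rw [map_zero, zero_add] at hN
    have hη : algebraMap K F (p : K) * t1 + algebraMap K F (q : K) * t2 ≠ 0 := by
      intro h0
      have h5 := Fintype.linearIndependent_iff.1 B.linearIndependent ![0, (p : K), (q : K)] (by
        rw [Fin.sum_univ_three, hB1, hB2]
        simp only [Matrix.cons_val_zero, Matrix.cons_val_one, Matrix.cons_val, zero_smul, zero_add]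
        rw [Algebra.smul_def, Algebra.smul_def]
        exact h0) 1
      exact hpK (by simpa using h5)
    have hfd : FiniteDimensional K F := FiniteDimensional.of_finrank_pos (by
      rw [h.deg]
      norm_num)
    have hN0 := Algebra.norm_ne_zero_iff (R := K) |>.2 hη
    intro hn
    apply hN0
    rw [hN]
    have hn' := congrArg (fun z : 𝓞 K => (z : K)) hn
    simp only [map_add, map_mul, map_pow, map_zero] at hn'
    linear_combination (u : K) * (v : K) * hn'
  · obtain ⟨z, hz⟩ := hsq
    refine ⟨z * (algebraMap K F (p : K) * t1 + algebraMap K F (q : K) * t2), ?_⟩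
    unfold zz at hz
    rw [h1, h2, h3] at hz
    simp only [map_add, map_mul, map_pow, map_neg] at hz h12 ⊢
    have hθ : (algebraMap K F (p : K) * t1 + algebraMap K F (q : K) * t2) *
        (algebraMap K F (p : K) ^ 2 * algebraMap K F (v : K) * t2 -
          algebraMap K F (p : K) * algebraMap K F (q : K) *
            (algebraMap K F (u : K) * algebraMap K F (v : K)) +
          algebraMap K F (q : K) ^ 2 * algebraMap K F (u : K) * t1) =
        algebraMap K F (u : K) * algebraMap K F (v : K) *
          (algebraMap K F (v : K) * algebraMap K F (p : K) ^ 3 +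
            algebraMap K F (u : K) * algebraMap K F (q : K) ^ 3) := by
      linear_combination (algebraMap K F (p : K) ^ 3 * algebraMap K F (v : K) +
        algebraMap K F (q : K) ^ 3 * algebraMap K F (u : K)) * h12 +
        algebraMap K F (p : K) * algebraMap K F (q : K) ^ 2 * algebraMap K F (u : K) * h11 +
        algebraMap K F (p : K) ^ 2 * algebraMap K F (q : K) * algebraMap K F (v : K) * h22
    rw [← hθ]
    linear_combination (algebraMap K F (p : K) * t1 + algebraMap K F (q : K) * t2) ^ 2 * hz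

end Pool.Agent.H12.WM
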