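import Pool.Agent.H12.WM.Jac

/-!
# [H12 WM GcdG] W1, 4.4: a good prime `l` cannot have `D1, D2, D3 ∈ l²`

STATEMENT. `l` a prime ideal with `2, 3 ∉ l`, `u, v ∉ l²`, not both `u, v ∈ l`. Then not all of `D1, D2, D3` are in `l²`.

PROOF. `Sol` is symmetric under `b ↔ c`, `p ↔ q`, `r ↔ r'`, `u ↔ v`, `D1 ↔ D3` (`D2` fixed), so we may assume `u ∉ l`.
(1) `v ∉ l`: by `jac` (with `I = l`) `9uv²b1³ ∈ l`, so `b1 ∈ l`; `b3 ∈ l`; `b1 + 2b2 + b3 ∈ l`, so `b2 ∈ l`; and `u = r D1 - Ab(p,p) ∈ l`, contradiction.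
(2) `v ∈ l`. Let `X0, X1, X2` be as in the header of Jac. Mod `l`: `X2² = 0` (fifth identity), `X1² = -2X0X2 = 0`, so `u c1 = -2X0X1 = 0`, `c1 ∈ l`.
The same for `c3` and `c1 + 2c2 + c3` (symmetries as in Jac), so `c1, c2, c3 ∈ l`. Not all of `b1, b2, b3` are in `l` (otherwise `u ∈ l`), and
`b1, b3 ∈ l` would give `b2² ∈ l` (`D1 ∈ l`). So `b1 ∉ l` or `b3 ∉ l`; by the symmetry of the indices 1 and 2 let `b1 ∉ l`.
`e3` mod `l`: `Ab(q,q) ∈ l`; `b1 Ab(q,q) = w² + D1 q1²` with `w = b1 q2 - b2 q1`, so `w ∈ l`.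
`b1² Ac(q,q) = q1² (b1 D2 - c1 D1) + (c1 w² + 2 c1 w b2 q1 - 2 c2 b1 q1 w) ∈ l²`, because `D1, D2 ∈ l²`, `c1, c2, w ∈ l`.
`b1 ∉ l`, so `Ac(q,q) ∈ l²` (`l²` is primary: valuation of `l`, or `b1² x ∈ l^2`, `l` prime in a Dedekind domain). By `e4`
`v = r' D3 - Ac(q,q) ∈ l²`, contradiction.
-/

set_option autoImplicit false

open IsDedekindDomain

namespace Pool.Agent.H12.WM

open H88.A4

variable {R : Type} [CommRing R]

private def rev (β : Blk R) : Blk R := ⟨β.b3, β.b2, β.b1, β.c3, β.c2, β.c1⟩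

private def revr (π : Row R) : Row R := ⟨π.p2, π.p1, π.q2, π.q1⟩

private def shf (β : Blk R) : Blk R :=
  ⟨β.b1 + 2 * β.b2 + β.b3, β.b2 + β.b3, β.b3, β.c1 + 2 * β.c2 + β.c3, β.c2 + β.c3, β.c3⟩

private def shfr (π : Row R) : Row R := ⟨π.p1 + π.p2, π.p2, π.q1 + π.q2, π.q2⟩

private def swp (β : Blk R) : Blk R := ⟨β.c1, β.c2, β.c3, β.b1, β.b2, β.b3⟩

private def swpr (π : Row R) : Row R := ⟨π.q1, π.q2, π.p1, π.p2⟩

private theorem rev_sol {β : Blk R} {π : Row R} {r r' u v : R} (h : Sol β π r r' u v) :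
    Sol (rev β) (revr π) r r' u v := by
  obtain ⟨e1, e2, e3, e4⟩ := h
  simp only [Blk.D1, Blk.D2, Blk.D3, Blk.Ab, Blk.Ac] at e1 e2 e3 e4
  constructor <;> simp only [rev, revr, Blk.D1, Blk.D2, Blk.D3, Blk.Ab, Blk.Ac]
  · linear_combination e1
  · linear_combination e2
  · linear_combination e3
  · linear_combination e4

private theorem shf_sol {β : Blk R} {π : Row R} {r r' u v : R} (h : Sol β π r r' u v) :
    Sol (shf β) (shfr π) r r' u v := by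
  obtain ⟨e1, e2, e3, e4⟩ := h
  simp only [Blk.D1, Blk.D2, Blk.D3, Blk.Ab, Blk.Ac] at e1 e2 e3 e4
  constructor <;> simp only [shf, shfr, Blk.D1, Blk.D2, Blk.D3, Blk.Ab, Blk.Ac]
  · linear_combination e1
  · linear_combination e2
  · linear_combination e3
  · linear_combination e4

private theorem swp_sol {β : Blk R} {π : Row R} {r r' u v : R} (h : Sol β π r r' u v) :
    Sol (swp β) (swpr π) r' r v u := by
  obtain ⟨e1, e2, e3, e4⟩ := h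
  simp only [Blk.D1, Blk.D2, Blk.D3, Blk.Ab, Blk.Ac] at e1 e2 e3 e4
  constructor <;> simp only [swp, swpr, Blk.D1, Blk.D2, Blk.D3, Blk.Ab, Blk.Ac]
  · linear_combination e4
  · linear_combination e3
  · linear_combination e2
  · linear_combination e1

private theorem rev_D (β : Blk R) : (rev β).D1 = β.D1 ∧ (rev β).D2 = β.D2 ∧ (rev β).D3 = β.D3 := by
  refine ⟨?_, ?_, ?_⟩ <;> simp only [rev, Blk.D1, Blk.D2, Blk.D3] <;> ring

private theorem shf_D (β : Blk R) : (shf β).D1 = β.D1 ∧ (shf β).D2 = β.D2 ∧ (shf β).D3 = β.D3 := by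
  refine ⟨?_, ?_, ?_⟩ <;> simp only [shf, Blk.D1, Blk.D2, Blk.D3] <;> ring

private theorem swp_D (β : Blk R) : (swp β).D1 = β.D3 ∧ (swp β).D2 = β.D2 ∧ (swp β).D3 = β.D1 := by
  refine ⟨?_, ?_, ?_⟩ <;> simp only [swp, Blk.D1, Blk.D2, Blk.D3] <;> ring

private theorem u_mem {β : Blk R} {π : Row R} {r r' u v : R} (h : Sol β π r r' u v) {I : Ideal R}
    (hD : β.D1 ∈ I) (h1 : β.b1 ∈ I) (h2 : β.b2 ∈ I) (h3 : β.b3 ∈ I) : u ∈ I := by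
  have h5 : u = r * β.D1 - (π.p1 * π.p1 * β.b3 - 2 * π.p1 * π.p2 * β.b2 + π.p2 * π.p2 * β.b1) := by
    rw [← h.e1]
    unfold Blk.Ab
    ring
  rw [h5]
  exact I.sub_mem (I.mul_mem_left _ hD) (I.add_mem (I.sub_mem
    (I.mul_mem_left _ h3) (I.mul_mem_left _ h2)) (I.mul_mem_left _ h1))

/-- `c1 ∈ l` if `v ∈ l`, `u ∉ l` -/
private theorem c1_mem {β : Blk R} {π : Row R} {r r' u v : R} (h : Sol β π r r' u v) {I : Ideal R}
    (hI : I.IsPrime) (h1 : β.D1 ∈ I) (h2 : β.D2 ∈ I) (h3 : β.D3 ∈ I) (hu : u ∉ I) (hv : v ∈ I) :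
    β.c1 ∈ I := by
  obtain ⟨e1, e2, e3, e4⟩ := h
  simp only [Blk.D1, Blk.D2, Blk.D3, Blk.Ab, Blk.Ac] at e1 e2 e3 e4 h1 h2 h3
  obtain ⟨X0, hX0⟩ : ∃ X0, X0 = β.b1 * π.p2 - β.b2 * π.p1 := ⟨_, rfl⟩
  obtain ⟨X1, hX1⟩ : ∃ X1, X1 = β.b1 * π.q2 + β.c1 * π.p2 - β.b2 * π.q1 - β.c2 * π.p1 := ⟨_, rfl⟩
  obtain ⟨X2, hX2⟩ : ∃ X2, X2 = β.c1 * π.q2 - β.c2 * π.q1 := ⟨_, rfl⟩
  have i1 : X2 ^ 2 = (β.c1 * r' - π.q1 ^ 2) * (β.c1 * β.c3 - β.c2 ^ 2) - β.c1 * v := by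
    rw [hX2]
    linear_combination (-β.c1) * e4
  have i2 : X1 ^ 2 = (β.c1 * r' - π.q1 ^ 2) * (β.b1 * β.b3 - β.b2 ^ 2) +
      (β.b1 * r' + β.c1 * r - 2 * π.p1 * π.q1) * (β.b1 * β.c3 + β.b3 * β.c1 - 2 * β.b2 * β.c2) +
      (β.b1 * r - π.p1 ^ 2) * (β.c1 * β.c3 - β.c2 ^ 2) - 2 * X0 * X2 := by
    rw [hX0, hX1, hX2]
    linear_combination (-β.c1) * e2 - β.b1 * e3
  have i3 : u * β.c1 = (β.b1 * r' + β.c1 * r - 2 * π.p1 * π.q1) * (β.b1 * β.b3 - β.b2 ^ 2) +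
      (β.b1 * r - π.p1 ^ 2) * (β.b1 * β.c3 + β.b3 * β.c1 - 2 * β.b2 * β.c2) - 2 * X0 * X1 := by
    rw [hX0, hX1]
    linear_combination (-β.c1) * e1 - β.b1 * e2
  have m2 : X2 ∈ I := by
    refine hI.mem_of_pow_mem 2 ?_
    rw [i1]
    exact I.sub_mem (I.mul_mem_left _ h3) (I.mul_mem_left _ hv)
  have m1 : X1 ∈ I := by
    refine hI.mem_of_pow_mem 2 ?_
    rw [i2]
    exact I.sub_mem (I.add_mem (I.add_mem (I.mul_mem_left _ h1) (I.mul_mem_left _ h2))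
      (I.mul_mem_left _ h3)) (I.mul_mem_left _ m2)
  have m3 : u * β.c1 ∈ I := by
    rw [i3]
    exact I.sub_mem (I.add_mem (I.mul_mem_left _ h1) (I.mul_mem_left _ h2)) (I.mul_mem_left _ m1)
  exact (hI.mem_or_mem m3).resolve_left hu

/-- the end: `b1 ∉ l` implies `v ∈ l ^ 2` -/
private theorem v_mem [IsDedekindDomain R] (l : HeightOneSpectrum R) {β : Blk R} {π : Row R}
    {r r' u v : R} (h : Sol β π r r' u v) (h1 : β.D1 ∈ l.asIdeal ^ 2) (h2 : β.D2 ∈ l.asIdeal ^ 2)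
    (h3 : β.D3 ∈ l.asIdeal ^ 2) (hc1 : β.c1 ∈ l.asIdeal) (hc2 : β.c2 ∈ l.asIdeal)
    (hc3 : β.c3 ∈ l.asIdeal) (hb : β.b1 ∉ l.asIdeal) : v ∈ l.asIdeal ^ 2 := by
  obtain ⟨I, hI⟩ : ∃ I, I = l.asIdeal := ⟨_, rfl⟩
  have hIp : I.IsPrime := hI ▸ l.isPrime
  have hle : ∀ x, x ∈ I ^ 2 → x ∈ I := fun x hx => Ideal.pow_le_self two_ne_zero hx
  rw [← hI] at h1 h2 h3 hc1 hc2 hc3 hb ⊢
  obtain ⟨e1, e2, e3, e4⟩ := h
  have hAb : β.Ab π.q1 π.q2 π.q1 π.q2 ∈ I := by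
    have h5 : β.Ab π.q1 π.q2 π.q1 π.q2 = r * β.D3 + r' * β.D2 -
        2 * (π.p1 * π.q1 * β.c3 - (π.p1 * π.q2 + π.p2 * π.q1) * β.c2 + π.p2 * π.q2 * β.c1) := by
      rw [e3]
      unfold Blk.Ac
      ring
    rw [h5]
    exact I.sub_mem (I.add_mem (I.mul_mem_left _ (hle _ h3)) (I.mul_mem_left _ (hle _ h2)))
      (I.mul_mem_left _ (I.add_mem (I.sub_mem (I.mul_mem_left _ hc3) (I.mul_mem_left _ hc2))
        (I.mul_mem_left _ hc1)))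
  obtain ⟨w, hw⟩ : ∃ w, w = β.b1 * π.q2 - β.b2 * π.q1 := ⟨_, rfl⟩
  have mw : w ∈ I := by
    refine hIp.mem_of_pow_mem 2 ?_
    have h5 : w ^ 2 = β.b1 * β.Ab π.q1 π.q2 π.q1 π.q2 - π.q1 ^ 2 * β.D1 := by
      rw [hw]
      unfold Blk.Ab Blk.D1
      ring
    rw [h5]
    exact I.sub_mem (I.mul_mem_left _ hAb) (I.mul_mem_left _ (hle _ h1))
  have hmm : ∀ x y, x ∈ I → y ∈ I → x * y ∈ I ^ 2 := by
    intro x y hx hy
    rw [pow_two]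
    exact Ideal.mul_mem_mul hx hy
  have hAc : β.b1 ^ 2 * β.Ac π.q1 π.q2 π.q1 π.q2 ∈ I ^ 2 := by
    have h5 : β.b1 ^ 2 * β.Ac π.q1 π.q2 π.q1 π.q2 = (π.q1 ^ 2 * β.b1) * β.D2 -
        (π.q1 ^ 2 * β.c1) * β.D1 + (w * (β.c1 * w) + (2 * β.b2 * π.q1) * (β.c1 * w) -
          (2 * β.b1 * π.q1) * (β.c2 * w)) := by
      rw [hw]
      unfold Blk.Ac Blk.D1 Blk.D2
      ring
    rw [h5]
    refine Ideal.add_mem _ (Ideal.sub_mem _ (Ideal.mul_mem_left _ _ h2) (Ideal.mul_mem_left _ _ h1)) ?_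
    exact Ideal.sub_mem _ (Ideal.add_mem _ (Ideal.mul_mem_left _ _ (hmm _ _ hc1 mw))
      (Ideal.mul_mem_left _ _ (hmm _ _ hc1 mw))) (Ideal.mul_mem_left _ _ (hmm _ _ hc2 mw))
  have hprim : ∀ x y, x ∉ I → x * y ∈ I ^ 2 → y ∈ I ^ 2 := by
    intro x y hx hxy
    rw [← Ideal.dvd_span_singleton] at hxy hx ⊢
    rw [← Ideal.span_singleton_mul_span_singleton] at hxy
    have hp : Prime I := hI ▸ l.prime
    exact hp.pow_dvd_of_dvd_mul_left 2 hx hxy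
  have hAc2 : β.Ac π.q1 π.q2 π.q1 π.q2 ∈ I ^ 2 := by
    apply hprim β.b1 _ hb
    apply hprim β.b1 _ hb
    have h5 : β.b1 * (β.b1 * β.Ac π.q1 π.q2 π.q1 π.q2) = β.b1 ^ 2 * β.Ac π.q1 π.q2 π.q1 π.q2 := by ring
    rw [h5]
    exact hAc
  rw [← e4]
  exact Ideal.sub_mem _ (Ideal.mul_mem_left _ _ h3) hAc2

private theorem good_u [IsDedekindDomain R] (l : HeightOneSpectrum R) {β : Blk R} {π : Row R}
    {r r' u v : R} (h : Sol β π r r' u v) (t2 : (2 : R) ∉ l.asIdeal)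
    (t3 : (3 : R) ∉ l.asIdeal) (hu : u ∉ l.asIdeal) (hv : v ∉ l.asIdeal ^ 2)
    (h1 : β.D1 ∈ l.asIdeal ^ 2) (h2 : β.D2 ∈ l.asIdeal ^ 2) (h3 : β.D3 ∈ l.asIdeal ^ 2) : False := by
  have hIp : l.asIdeal.IsPrime := l.isPrime
  have hle : ∀ x, x ∈ l.asIdeal ^ 2 → x ∈ l.asIdeal := fun x hx => Ideal.pow_le_self two_ne_zero hx
  have half : ∀ x y z : R, x ∈ l.asIdeal → z ∈ l.asIdeal → x + 2 * y + z ∈ l.asIdeal →
      y ∈ l.asIdeal := by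
    intro x y z hx hz hxyz
    have h5 := Ideal.sub_mem _ (Ideal.sub_mem _ hxyz hx) hz
    have h6 : x + 2 * y + z - x - z = 2 * y := by ring
    rw [h6] at h5
    exact (hIp.mem_or_mem h5).resolve_left t2
  by_cases hvl : v ∈ l.asIdeal
  · -- `c1, c2, c3 ∈ l`
    have c1 := c1_mem h hIp (hle _ h1) (hle _ h2) (hle _ h3) hu hvl
    obtain ⟨d1, d2, d3⟩ := rev_D β
    have c3 : β.c3 ∈ l.asIdeal := c1_mem (rev_sol h) hIp (by rw [d1]; exact hle _ h1)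
      (by rw [d2]; exact hle _ h2) (by rw [d3]; exact hle _ h3) hu hvl
    obtain ⟨f1, f2, f3⟩ := shf_D β
    have c13 : β.c1 + 2 * β.c2 + β.c3 ∈ l.asIdeal := c1_mem (shf_sol h) hIp
      (by rw [f1]; exact hle _ h1) (by rw [f2]; exact hle _ h2) (by rw [f3]; exact hle _ h3) hu hvl
    have c2 := half _ _ _ c1 c3 c13
    by_cases hb1 : β.b1 ∈ l.asIdeal
    · by_cases hb3 : β.b3 ∈ l.asIdeal
      · have hb2 : β.b2 ∈ l.asIdeal := by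
          refine hIp.mem_of_pow_mem 2 ?_
          have h5 : β.b2 ^ 2 = β.b1 * β.b3 - β.D1 := by
            unfold Blk.D1
            ring
          rw [h5]
          exact Ideal.sub_mem _ (Ideal.mul_mem_left _ _ hb3) (hle _ h1)
        exact hu (u_mem h (hle _ h1) hb1 hb2 hb3)
      · exact hv (v_mem l (rev_sol h) (by rw [d1]; exact h1) (by rw [d2]; exact h2)
          (by rw [d3]; exact h3) c3 c2 c1 hb3)
    · exact hv (v_mem l h h1 h2 h3 c1 c2 c3 hb1)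
  · obtain ⟨⟨j1, -⟩, ⟨j3, -⟩, ⟨j2, -⟩⟩ := jac h (hle _ h1) (hle _ h2) (hle _ h3)
    have key : ∀ x : R, 9 * (u * v ^ 2) * x ^ 3 ∈ l.asIdeal → x ∈ l.asIdeal := by
      intro x hx
      rcases hIp.mem_or_mem hx with h5 | h5
      · exfalso
        rcases hIp.mem_or_mem h5 with h6 | h6
        · have h7 : (9 : R) = 3 * 3 := by norm_num
          rw [h7] at h6
          rcases hIp.mem_or_mem h6 with h8 | h8
          · exact t3 h8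
          · exact t3 h8
        · rcases hIp.mem_or_mem h6 with h8 | h8
          · exact hu h8
          · exact hvl (hIp.mem_of_pow_mem 2 h8)
      · exact hIp.mem_of_pow_mem 3 h5
    have b1 := key _ j1
    have b3 := key _ j3
    have b2 := half _ _ _ b1 b3 (key _ j2)
    exact hu (u_mem h (hle _ h1) b1 b2 b3)

theorem gcd_good {R : Type} [CommRing R] [IsDedekindDomain R] (l : HeightOneSpectrum R) {β : Blk R}
    {π : Row R} {r r' u v : R} (h : Sol β π r r' u v) (h2 : (2 : R) ∉ l.asIdeal)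
    (h3 : (3 : R) ∉ l.asIdeal) (hu : u ∉ l.asIdeal ^ 2) (hv : v ∉ l.asIdeal ^ 2)
    (huv : ¬ (u ∈ l.asIdeal ∧ v ∈ l.asIdeal)) :
    ¬ (β.D1 ∈ l.asIdeal ^ 2 ∧ β.D2 ∈ l.asIdeal ^ 2 ∧ β.D3 ∈ l.asIdeal ^ 2) := by
  rintro ⟨d1, d2, d3⟩
  by_cases hul : u ∈ l.asIdeal
  · have hvl : v ∉ l.asIdeal := fun h5 => huv ⟨hul, h5⟩
    obtain ⟨f1, f2, f3⟩ := swp_D β
    exact good_u l (swp_sol h) h2 h3 hvl hu (by rw [f1]; exact d3) (by rw [f2]; exact d2)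
      (by rw [f3]; exact d1)
  · exact good_u l h h2 h3 hul hv d1 d2 d3

end Pool.Agent.H12.WM
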