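import Pool.Agent.H12.WM.GcdB
import Pool.Agent.H12.WM.GcdG

/-!
# [H12 WM Gcd] W1, step 9: the ideal `(p, q)` is bounded

STATEMENT. `(u, v)` admissible (`M`), `Sol β π r r' u v`, `(D1, D2, D3) = -(p², pq, q²)`, `p ≠ 0`. Then `(6M)^10 ∈ (p, q)`.

PROOF. `g = (p, q) ≠ 0`. It is enough that `g ∣ ((6M)^10)`, i.e. for every prime `l` the exponent `j` of `l` in `g` is at most the exponent of `l` in
`((6M)^10)`. `p, q ∈ l^j`, so `D1, D2, D3 ∈ l^(2j)`.
If `6M ∉ l`: `u ∉ l²` (otherwise `l² ∣ (u)`, so `l ∣ (M)` by `squ`), `v ∉ l²`, not both `u, v ∈ l` (`cop`), so `j ≥ 1` contradicts `gcd_good`; `j = 0`.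
If `6M ∈ l`: by `gcd_le` `2j ≤ o(9u⁴v²)`. By `squ` `o(u) ≤ 2 o(M) + 1` (with `k = o(u) / 2`: `l^(2k) ∣ (u)` gives `l^k ∣ (M)`), the same for `v`.
`2j ≤ 2 o(3) + 6 (2 o(M) + 1) ≤ 2 o(6M) + 12 o(6M) + 6 o(6M) = 20 o(6M)`, because `o(6M) ≥ 1`. So `j ≤ 10 o(6M)`.
-/

set_option autoImplicit false

open IsDedekindDomain
open scoped NumberField

namespace Pool.Agent.H12.WM

open H88.A4

section dedekind

variable {R : Type} [CommRing R] [IsDedekindDomain R]

open Classical in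
/-- the exponent -/
private noncomputable def oo (l : HeightOneSpectrum R) (I : Ideal R) : ℕ :=
  (UniqueFactorizationMonoid.normalizedFactors I).count l.asIdeal

private theorem dvd_iff_oo (l : HeightOneSpectrum R) (n : ℕ) (I : Ideal R) (hI : I ≠ 0) :
    l.asIdeal ^ n ∣ I ↔ n ≤ oo l I := by
  classical
  have hirr : Irreducible l.asIdeal := l.prime.irreducible
  unfold oo
  rw [pow_dvd_iff_le_emultiplicity,
    UniqueFactorizationMonoid.le_emultiplicity_iff_replicate_le_normalizedFactors hirr hI,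
    normalize_eq, Multiset.le_count_iff_replicate_le]

private theorem dvd_of_pow (I J : Ideal R) (hI : I ≠ 0) (hJ : J ≠ 0)
    (h : ∀ (l : HeightOneSpectrum R) (n : ℕ), l.asIdeal ^ n ∣ I → l.asIdeal ^ n ∣ J) :
    I ∣ J := by
  classical
  rw [UniqueFactorizationMonoid.dvd_iff_normalizedFactors_le_normalizedFactors hI hJ,
    Multiset.le_iff_count]
  intro P
  by_cases hP : P ∈ UniqueFactorizationMonoid.normalizedFactors I
  · have h1 := UniqueFactorizationMonoid.prime_of_normalized_factor P hP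
    let l : HeightOneSpectrum R := ⟨P, Ideal.isPrime_of_prime h1, h1.ne_zero⟩
    exact (dvd_iff_oo l _ J hJ).1 (h l _ ((dvd_iff_oo l _ I hI).2 le_rfl))
  · rw [Multiset.count_eq_zero_of_notMem hP]
    exact Nat.zero_le _

omit [IsDedekindDomain R] in
private theorem span_ne {x : R} (hx : x ≠ 0) : Ideal.span {x} ≠ 0 := by
  rwa [Ne, Ideal.zero_eq_bot, Ideal.span_singleton_eq_bot]

private theorem mem_pow_iff (l : HeightOneSpectrum R) (n : ℕ) {x : R} (hx : x ≠ 0) :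
    x ∈ l.asIdeal ^ n ↔ n ≤ oo l (Ideal.span {x}) := by
  rw [← Ideal.dvd_span_singleton, dvd_iff_oo l n _ (span_ne hx)]

private theorem oo_mul (l : HeightOneSpectrum R) {x y : R} (hx : x ≠ 0) (hy : y ≠ 0) :
    oo l (Ideal.span {x * y}) = oo l (Ideal.span {x}) + oo l (Ideal.span {y}) := by
  classical
  unfold oo
  rw [← Ideal.span_singleton_mul_span_singleton,
    UniqueFactorizationMonoid.normalizedFactors_mul (span_ne hx) (span_ne hy), Multiset.count_add]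

private theorem oo_pow (l : HeightOneSpectrum R) {x : R} (n : ℕ) :
    oo l (Ideal.span {x ^ n}) = n * oo l (Ideal.span {x}) := by
  classical
  unfold oo
  rw [← Ideal.span_singleton_pow, UniqueFactorizationMonoid.normalizedFactors_pow,
    Multiset.count_nsmul]

/-- the exponent of an element which is squarefree up to `m` -/
private theorem oo_sq (l : HeightOneSpectrum R) {u m : R} (hu : u ≠ 0) (hm : m ≠ 0)
    (h : ∀ I : Ideal R, I ^ 2 ∣ Ideal.span {u} → I ∣ Ideal.span {m}) :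
    oo l (Ideal.span {u}) ≤ 2 * oo l (Ideal.span {m}) + 1 := by
  have h1 : (l.asIdeal ^ (oo l (Ideal.span {u}) / 2)) ^ 2 ∣ Ideal.span {u} := by
    rw [← pow_mul, dvd_iff_oo l _ _ (span_ne hu)]
    omega
  have h2 := h _ h1
  rw [dvd_iff_oo l _ _ (span_ne hm)] at h2
  omega

end dedekind

theorem gcd_mem {K : Type} [Field K] [NumberField K] {M : ℕ} (hM : M ≠ 0) {C s t : ℝ} {u v : 𝓞 K}
    (ha : Adm M C s t u v) {β : Blk (𝓞 K)} {π : Row (𝓞 K)} {r r' : 𝓞 K} (h : Sol β π r r' u v)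
    {p q : 𝓞 K} (hp : p ≠ 0) (h1 : β.D1 = -p ^ 2) (h2 : β.D2 = -(p * q)) (h3 : β.D3 = -q ^ 2) :
    (((6 * M) ^ 10 : ℕ) : 𝓞 K) ∈ Ideal.span {p, q} := by
  have hM0 : (M : 𝓞 K) ≠ 0 := Nat.cast_ne_zero.2 hM
  have h20 : (2 : 𝓞 K) ≠ 0 := two_ne_zero
  have h30 : (3 : 𝓞 K) ≠ 0 := by
    have h4 : ((3 : ℕ) : 𝓞 K) ≠ 0 := Nat.cast_ne_zero.2 (by norm_num)
    exact_mod_cast h4
  have h60 : (6 : 𝓞 K) * M ≠ 0 := by
    have : (6 : 𝓞 K) ≠ 0 := by
      have h4 : (6 : 𝓞 K) = 2 * 3 := by norm_num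
      rw [h4]
      exact mul_ne_zero h20 h30
    exact mul_ne_zero this hM0
  have hN0 : ((6 : 𝓞 K) * M) ^ 10 ≠ 0 := pow_ne_zero _ h60
  have hcast : (((6 * M) ^ 10 : ℕ) : 𝓞 K) = ((6 : 𝓞 K) * M) ^ 10 := by push_cast; rfl
  rw [hcast, ← Ideal.dvd_span_singleton]
  have hg0 : Ideal.span {p, q} ≠ (0 : Ideal (𝓞 K)) := by
    intro h4
    have h5 : p ∈ Ideal.span {p, q} := Ideal.subset_span (Set.mem_insert _ _)
    rw [h4, Ideal.zero_eq_bot, Ideal.mem_bot] at h5
    exact hp h5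
  refine dvd_of_pow _ _ hg0 (span_ne hN0) fun l n hn => ?_
  rw [Ideal.dvd_iff_le] at hn
  have hpl : p ∈ l.asIdeal ^ n := hn (Ideal.subset_span (Set.mem_insert _ _))
  have hql : q ∈ l.asIdeal ^ n := hn (Ideal.subset_span (Set.mem_insert_of_mem _ rfl))
  have hmul : ∀ x ∈ l.asIdeal ^ n, ∀ y ∈ l.asIdeal ^ n, x * y ∈ l.asIdeal ^ (2 * n) := by
    intro x hx y hy
    rw [two_mul, pow_add]
    exact Ideal.mul_mem_mul hx hy
  have g1 : β.D1 ∈ l.asIdeal ^ (2 * n) := by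
    rw [h1, neg_mem_iff, pow_two]
    exact hmul p hpl p hpl
  have g2 : β.D2 ∈ l.asIdeal ^ (2 * n) := by
    rw [h2, neg_mem_iff]
    exact hmul p hpl q hql
  have g3 : β.D3 ∈ l.asIdeal ^ (2 * n) := by
    rw [h3, neg_mem_iff, pow_two]
    exact hmul q hql q hql
  by_cases hl : (6 : 𝓞 K) * M ∈ l.asIdeal
  · have e1 := gcd_le l h g1 g2 g3
    have hne : 9 * u ^ 4 * v ^ 2 ≠ 0 := by
      have h90 : (9 : 𝓞 K) ≠ 0 := by
        have h4 : (9 : 𝓞 K) = 3 * 3 := by norm_num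
        rw [h4]
        exact mul_ne_zero h30 h30
      exact mul_ne_zero (mul_ne_zero h90 (pow_ne_zero _ ha.u0)) (pow_ne_zero _ ha.v0)
    rw [mem_pow_iff l _ hne] at e1
    have e2 : oo l (Ideal.span {9 * u ^ 4 * v ^ 2}) = 2 * oo l (Ideal.span {(3 : 𝓞 K)}) +
        4 * oo l (Ideal.span {u}) + 2 * oo l (Ideal.span {v}) := by
      have h4 : (9 : 𝓞 K) = 3 ^ 2 := by norm_num
      rw [h4, oo_mul l (mul_ne_zero (pow_ne_zero _ h30) (pow_ne_zero _ ha.u0))
        (pow_ne_zero _ ha.v0), oo_mul l (pow_ne_zero _ h30) (pow_ne_zero _ ha.u0), oo_pow,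
        oo_pow, oo_pow]
    have e3 := oo_sq l ha.u0 hM0 ha.squ
    have e4 := oo_sq l ha.v0 hM0 ha.sqv
    have e5 : oo l (Ideal.span {(6 : 𝓞 K) * M}) = oo l (Ideal.span {(2 : 𝓞 K)}) +
        oo l (Ideal.span {(3 : 𝓞 K)}) + oo l (Ideal.span {(M : 𝓞 K)}) := by
      have h4 : (6 : 𝓞 K) = 2 * 3 := by norm_num
      rw [h4, oo_mul l (mul_ne_zero h20 h30) hM0, oo_mul l h20 h30]
    have e6 : 1 ≤ oo l (Ideal.span {(6 : 𝓞 K) * M}) := by
      rw [← mem_pow_iff l _ h60, pow_one]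
      exact hl
    rw [dvd_iff_oo l _ _ (span_ne hN0), oo_pow]
    omega
  · rcases Nat.eq_zero_or_pos n with h0 | hn0
    · rw [h0, pow_zero]
      exact one_dvd _
    · exfalso
      have hle : l.asIdeal ^ (2 * n) ≤ l.asIdeal ^ 2 := Ideal.pow_le_pow_right (by omega)
      have hMl : (M : 𝓞 K) ∉ l.asIdeal := fun h4 => hl (l.asIdeal.mul_mem_left _ h4)
      refine gcd_good l h ?_ ?_ ?_ ?_ ?_ ⟨hle g1, hle g2, hle g3⟩
      · intro h4
        apply hl
        have h5 : (6 : 𝓞 K) * M = 3 * M * 2 := by ring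
        rw [h5]
        exact l.asIdeal.mul_mem_left _ h4
      · intro h4
        apply hl
        have h5 : (6 : 𝓞 K) * M = 2 * M * 3 := by ring
        rw [h5]
        exact l.asIdeal.mul_mem_left _ h4
      · intro h4
        have h5 := ha.squ l.asIdeal (Ideal.dvd_span_singleton.2 h4)
        exact hMl (Ideal.dvd_span_singleton.1 h5)
      · intro h4
        have h5 := ha.sqv l.asIdeal (Ideal.dvd_span_singleton.2 h4)
        exact hMl (Ideal.dvd_span_singleton.1 h5)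
      · rintro ⟨h4, h5⟩
        apply hMl
        have h6 : Ideal.span {u, v} ≤ l.asIdeal := by
          rw [Ideal.span_le]
          rintro x (rfl | rfl)
          · exact h4
          · exact h5
        exact h6 ha.cop

end Pool.Agent.H12.WM
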