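import Pool.Agent.H88.A4.Iface

/-!
# [H12 WM Evn] W1, step 9.3: `(a) = J²`, `a γ = y²` implies that every prime has even exponent in `γ`

PROOF. `a, γ, y ≠ 0`. `(γ) = (y)² J⁻² = I²` with the fractional ideal `I = (y) J⁻¹`. For the prime `P`: `FractionalIdeal.count F P (γ) = 2 count I`
(`FractionalIdeal.count_pow`) and `count` of the integral ideal `(γ)` is its exponent (`FractionalIdeal.count_coe`,
`FractionalIdeal.coeIdeal_span_singleton`; the section at line 833 of Mathlib/RingTheory/DedekindDomain/Factorization compares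
`Associates.count`, `normalizedFactors.count`, `multiplicity`). Compare Pool/Agent/H94/TL/Glob.lean (`dvd_of_exp_eq_pow`).
-/

set_option autoImplicit false

open IsDedekindDomain
open scoped NumberField nonZeroDivisors

namespace Pool.Agent.H12.WM

private theorem count_eq_mult {F : Type} [Field F] [NumberField F] (P : HeightOneSpectrum (𝓞 F))
    {J : Ideal (𝓞 F)} (hJ : J ≠ ⊥) :
    FractionalIdeal.count F P (J : FractionalIdeal (𝓞 F)⁰ F) = (multiplicity P.asIdeal J : ℤ) := by
  classical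
  rw [FractionalIdeal.count_coe F P hJ, Ideal.count_associates_factors_eq hJ P.isPrime P.ne_bot,
    HeightOneSpectrum.count_normalizedFactors_eq_multiplicity hJ P]

theorem even_mult {F : Type} [Field F] [NumberField F] {a y : F} {γ : 𝓞 F} (ha : a ≠ 0) (hγ : γ ≠ 0)
    (hJ : ∃ J : FractionalIdeal (𝓞 F)⁰ F, FractionalIdeal.spanSingleton (𝓞 F)⁰ a = J ^ 2)
    (hy : a * (γ : F) = y ^ 2) (P : HeightOneSpectrum (𝓞 F)) :
    Even (multiplicity P.asIdeal (Ideal.span {γ})) := by
  obtain ⟨J, hJ⟩ := hJ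
  have hγ' : (γ : F) ≠ 0 := by exact_mod_cast hγ
  have hy0 : y ≠ 0 := by
    rintro rfl
    apply mul_ne_zero ha hγ'
    rw [hy]
    ring
  have hJ0 : J ≠ 0 := by
    rintro rfl
    rw [zero_pow two_ne_zero] at hJ
    exact ha (FractionalIdeal.spanSingleton_eq_zero_iff.1 hJ)
  have hg0 : FractionalIdeal.spanSingleton (𝓞 F)⁰ (γ : F) ≠ 0 :=
    fun h => hγ' (FractionalIdeal.spanSingleton_eq_zero_iff.1 h)
  have h1 : J ^ 2 * FractionalIdeal.spanSingleton (𝓞 F)⁰ (γ : F) =
      (FractionalIdeal.spanSingleton (𝓞 F)⁰ y) ^ 2 := by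
    rw [← hJ, FractionalIdeal.spanSingleton_mul_spanSingleton, hy, FractionalIdeal.spanSingleton_pow]
  have h2 := congrArg (FractionalIdeal.count F P) h1
  rw [FractionalIdeal.count_mul F P (pow_ne_zero 2 hJ0) hg0, FractionalIdeal.count_pow,
    FractionalIdeal.count_pow] at h2
  have hsp : FractionalIdeal.spanSingleton (𝓞 F)⁰ (γ : F) =
      ((Ideal.span {γ} : Ideal (𝓞 F)) : FractionalIdeal (𝓞 F)⁰ F) :=
    (FractionalIdeal.coeIdeal_span_singleton γ).symm
  have hbot : (Ideal.span {γ} : Ideal (𝓞 F)) ≠ ⊥ := by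
    rw [Ne, Ideal.span_singleton_eq_bot]
    exact hγ
  rw [hsp, count_eq_mult P hbot] at h2
  have h3 : Even ((multiplicity P.asIdeal (Ideal.span {γ}) : ℕ) : ℤ) := by
    refine ⟨FractionalIdeal.count F P (FractionalIdeal.spanSingleton (𝓞 F)⁰ y) -
      FractionalIdeal.count F P J, ?_⟩
    push_cast at h2
    linear_combination h2
  exact_mod_cast h3

end Pool.Agent.H12.WM
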