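import Pool.Agent.H12.WM.All
import Pool.Agent.H12.WM.Evn

/-!
# [H12 WM Par] W1, step 9.3: parity

STATEMENT. `n = v p³ + u q³ ≠ 0`, `a u v n (p t1 + q t2)` a square, `l` a prime with `3 ∉ l`, not both `u, v ∈ l`, not both `p, q ∈ l`, and the exponent of `l` in
`n` odd. Then `p ∈ l` or `q ∈ l`.

PROOF. Suppose `p, q ∉ l`. `n ∈ l` (odd exponent). If `v ∈ l`: `u q³ ∈ l`, but `u, q ∉ l`. If `u ∈ l`: `v p³ ∈ l`, but `v, p ∉ l`. So `3uv ∉ l`.
`τ1, τ2 ∈ 𝓞 F` the integral elements `t1, t2`, `η = p τ1 + q τ2 ∈ 𝓞 F`, `γ = u v n η ∈ 𝓞 F`; `γ ≠ 0` (`η ≠ 0`: `η = 0` would give `p t1 = -q t2`, against the basis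
`1, t1, t2` of `dat_basis` and `p ≠ 0`). By `even_mult` every prime `P` of `𝓞 F` has even exponent in `γ`. For `P` above `l` the exponent of `P` in `u v n` is
`ramificationIdx' * (exponent of l in u v n) = exponent of l in n` (`unram`; `emultiplicity_map_eq_ramificationIdx'_mul`, `u, v ∉ l`), which is odd.
So the exponent of `P` in `η` is odd, `η ∈ P`. By `eta_all` `p, q ∈ l`, contradiction.
-/

set_option autoImplicit false

open IsDedekindDomain
open scoped NumberField

namespace Pool.Agent.H12.WM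

open H88.A4

private theorem mult_mul {R : Type} [CommRing R] [IsDedekindDomain R] (P : HeightOneSpectrum R)
    {x y : R} (hx : x ≠ 0) (hy : y ≠ 0) :
    multiplicity P.asIdeal (Ideal.span {x * y}) =
      multiplicity P.asIdeal (Ideal.span {x}) + multiplicity P.asIdeal (Ideal.span {y}) := by
  have hx' : Ideal.span {x} ≠ (⊥ : Ideal R) := by simpa using hx
  have hy' : Ideal.span {y} ≠ (⊥ : Ideal R) := by simpa using hy
  rw [← Ideal.span_singleton_mul_span_singleton]
  refine multiplicity_mul P.prime (FiniteMultiplicity.of_prime_left P.prime ?_)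
  exact mul_ne_zero hx' hy'

private theorem mult_zero {R : Type} [CommRing R] [IsDedekindDomain R] (P : HeightOneSpectrum R)
    {x : R} (hx : x ∉ P.asIdeal) : multiplicity P.asIdeal (Ideal.span {x}) = 0 := by
  apply multiplicity_eq_zero.2
  rwa [Ideal.dvd_span_singleton]

private theorem mem_of_mult {R : Type} [CommRing R] [IsDedekindDomain R] (P : HeightOneSpectrum R)
    {x : R} (hx : multiplicity P.asIdeal (Ideal.span {x}) ≠ 0) : x ∈ P.asIdeal := by
  by_contra h
  exact hx (mult_zero P h)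

private theorem mult_map {R S : Type} [CommRing R] [IsDedekindDomain R] [CommRing S]
    [IsDedekindDomain S] [Algebra R S] [FaithfulSMul R S] (l : HeightOneSpectrum R)
    (P : HeightOneSpectrum S) [P.asIdeal.LiesOver l.asIdeal] {x : R} (hx : x ≠ 0)
    (he : l.asIdeal.ramificationIdx' P.asIdeal = 1) :
    multiplicity P.asIdeal (Ideal.span {algebraMap R S x}) =
      multiplicity l.asIdeal (Ideal.span {x}) := by
  have hx' : Ideal.span {x} ≠ (⊥ : Ideal R) := by simpa using hx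
  refine multiplicity_eq_of_emultiplicity_eq_some ?_
  rw [← Set.image_singleton, ← Ideal.map_span,
    Ideal.IsDedekindDomain.emultiplicity_map_eq_ramificationIdx'_mul hx' l.irreducible P.irreducible
      P.ne_bot, he,
    (FiniteMultiplicity.of_prime_left l.prime hx').emultiplicity_eq_multiplicity]
  simp

theorem parity {K F : Type} [Field K] [NumberField K] [Field F] [NumberField F] [Algebra K F]
    {u v : 𝓞 K} {t1 t2 a : F} (h : Dat F u v t1 t2 a) (hu : u ≠ 0) (hv : v ≠ 0) {p q : 𝓞 K}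
    (hn : v * p ^ 3 + u * q ^ 3 ≠ 0)
    (hsq : IsSquare (a * algebraMap K F ((u * v * (v * p ^ 3 + u * q ^ 3) : 𝓞 K) : K) *
          (algebraMap K F (p : K) * t1 + algebraMap K F (q : K) * t2)))
    (l : HeightOneSpectrum (𝓞 K)) (h3 : (3 : 𝓞 K) ∉ l.asIdeal)
    (huv : ¬ (u ∈ l.asIdeal ∧ v ∈ l.asIdeal)) (hpq : ¬ (p ∈ l.asIdeal ∧ q ∈ l.asIdeal))
    (hodd : Odd (multiplicity l.asIdeal (Ideal.span {v * p ^ 3 + u * q ^ 3}))) :
    p ∈ l.asIdeal ∨ q ∈ l.asIdeal := by
  by_contra hcon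
  push Not at hcon
  obtain ⟨hp, hq⟩ := hcon
  have hlp := l.isPrime
  set n : 𝓞 K := v * p ^ 3 + u * q ^ 3 with hnd
  have hnl : n ∈ l.asIdeal := mem_of_mult l hodd.pos.ne'
  have hvl : v ∉ l.asIdeal := by
    intro hvl
    have h1 : u * q ^ 3 ∈ l.asIdeal := by
      have e : u * q ^ 3 = n - v * p ^ 3 := by rw [hnd]; ring
      rw [e]
      exact l.asIdeal.sub_mem hnl (l.asIdeal.mul_mem_right _ hvl)
    rcases hlp.mem_or_mem h1 with h2 | h2
    · exact huv ⟨h2, hvl⟩
    · exact hq (hlp.mem_of_pow_mem _ h2)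
  have hul : u ∉ l.asIdeal := by
    intro hul
    have h1 : v * p ^ 3 ∈ l.asIdeal := by
      have e : v * p ^ 3 = n - u * q ^ 3 := by rw [hnd]; ring
      rw [e]
      exact l.asIdeal.sub_mem hnl (l.asIdeal.mul_mem_right _ hul)
    rcases hlp.mem_or_mem h1 with h2 | h2
    · exact hvl h2
    · exact hp (hlp.mem_of_pow_mem _ h2)
  have h3uv : (3 * u * v : 𝓞 K) ∉ l.asIdeal := by
    intro h1
    rcases hlp.mem_or_mem h1 with h2 | h2
    · rcases hlp.mem_or_mem h2 with h4 | h4
      · exact h3 h4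
      · exact hul h4
    · exact hvl h2
  -- the integral elements
  have hc : ∀ x : 𝓞 K, ((algebraMap (𝓞 K) (𝓞 F) x : 𝓞 F) : F) = algebraMap K F (x : K) := by
    intro x
    rfl
  have hi1 : IsIntegral ℤ t1 := by
    refine IsIntegral.of_pow (n := 3) (by norm_num) ?_
    have e : t1 ^ 3 = ((algebraMap (𝓞 K) (𝓞 F) (u * v ^ 2) : 𝓞 F) : F) := by
      rw [h.cub, hc]
      rfl
    rw [e]
    exact (algebraMap (𝓞 K) (𝓞 F) (u * v ^ 2)).2
  obtain ⟨hr1, hr2⟩ := dat_rel h hu hv
  have hi2 : IsIntegral ℤ t2 := by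
    refine IsIntegral.of_pow (n := 2) (by norm_num) ?_
    rw [hr2, ← hc]
    exact (algebraMap (𝓞 K) (𝓞 F) u).2.mul hi1
  set τ1 : 𝓞 F := ⟨t1, hi1⟩ with hτ1
  set τ2 : 𝓞 F := ⟨t2, hi2⟩ with hτ2
  set η : 𝓞 F := algebraMap (𝓞 K) (𝓞 F) p * τ1 + algebraMap (𝓞 K) (𝓞 F) q * τ2 with hη
  have hηF : (η : F) = algebraMap K F (p : K) * t1 + algebraMap K F (q : K) * t2 := rfl
  have huF : algebraMap K F (u : K) ≠ 0 := by
    rw [Ne, map_eq_zero]
    exact_mod_cast hu
  have hvF : algebraMap K F (v : K) ≠ 0 := by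
    rw [Ne, map_eq_zero]
    exact_mod_cast hv
  have hnF : algebraMap K F (n : K) ≠ 0 := by
    rw [Ne, map_eq_zero]
    exact_mod_cast hn
  have hnF' : algebraMap K F (n : K) = algebraMap K F (v : K) * algebraMap K F (p : K) ^ 3 +
      algebraMap K F (u : K) * algebraMap K F (q : K) ^ 3 := by
    have e : (n : K) = (v : K) * (p : K) ^ 3 + (u : K) * (q : K) ^ 3 := rfl
    rw [e]
    simp only [map_add, map_mul, map_pow]
  have hη0 : η ≠ 0 := by
    intro h0
    have e0 : algebraMap K F (p : K) * t1 + algebraMap K F (q : K) * t2 = 0 := by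
      rw [← hηF, h0]
      rfl
    have hc3 := h.cub
    have hpr := h.prd
    simp only [map_mul, map_pow] at hc3 hpr
    have e1 : (algebraMap K F (p : K) * t1) ^ 3 + (algebraMap K F (q : K) * t2) ^ 3 = 0 := by
      have e2 : algebraMap K F (p : K) * t1 = -(algebraMap K F (q : K) * t2) := by
        linear_combination e0
      rw [e2]
      ring
    have e3 : t2 ^ 3 = algebraMap K F (u : K) ^ 2 * algebraMap K F (v : K) := by
      have : t2 ^ 3 = t2 ^ 2 * t2 := by ring
      rw [this, hr2]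
      linear_combination algebraMap K F (u : K) * hpr
    have e4 : algebraMap K F (n : K) * (algebraMap K F (u : K) * algebraMap K F (v : K)) = 0 := by
      rw [hnF']
      linear_combination e1 - algebraMap K F (p : K) ^ 3 * hc3 - algebraMap K F (q : K) ^ 3 * e3
    exact mul_ne_zero hnF (mul_ne_zero huF hvF) e4
  have hx0 : u * v * n ≠ 0 := mul_ne_zero (mul_ne_zero hu hv) hn
  set γ : 𝓞 F := algebraMap (𝓞 K) (𝓞 F) (u * v * n) * η with hγ
  have hinj : Function.Injective (algebraMap (𝓞 K) (𝓞 F)) := FaithfulSMul.algebraMap_injective _ _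
  have hx0F : algebraMap (𝓞 K) (𝓞 F) (u * v * n) ≠ 0 := by
    rw [Ne, map_eq_zero_iff _ hinj]
    exact hx0
  have hγ0 : γ ≠ 0 := mul_ne_zero hx0F hη0
  obtain ⟨y, hy⟩ := hsq
  have hy' : a * (γ : F) = y ^ 2 := by
    rw [pow_two, ← hy]
    have e : (γ : F) = algebraMap K F ((u * v * n : 𝓞 K) : K) *
        (algebraMap K F (p : K) * t1 + algebraMap K F (q : K) * t2) := rfl
    rw [e]
    ring
  refine hp (eta_all h l h3uv hηF ?_).1
  intro P hP
  have he := unram h l h3uv P
  have heven := even_mult h.a0 hγ0 h.isq hy' P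
  rw [hγ, mult_mul P hx0F hη0, mult_map l P hx0 he, mult_mul l (mul_ne_zero hu hv) hn,
    mult_mul l hu hv, mult_zero l hul, mult_zero l hvl] at heven
  apply mem_of_mult
  intro h0
  rw [h0, add_zero, zero_add, zero_add] at heven
  exact (Nat.not_even_iff_odd.2 hodd) heven

end Pool.Agent.H12.WM
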