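import Pool.Agent.H12.WM.Sqr
import Pool.Agent.H12.WM.Eta
import Pool.Agent.H12.WM.Gcd
import Pool.Agent.H12.WM.Par
import Pool.Agent.H12.WM.Dec

/-!
# W1 (MP_b39724_nt), step 9: assembly of the algebraic part, `EZeroAlgStmt`
-/

set_option autoImplicit false

open IsDedekindDomain
open scoped NumberField

namespace Pool.Agent.H12.WM

open H88.A4

theorem size_of_sq {K : Type} [Field K] [NumberField K] {C s : ℝ} (hC : 1 ≤ C) (hs : 0 ≤ s)
    {D p : 𝓞 K} (h : D = -p ^ 2) (hD : Bd (C * s ^ 2) D) : Bd (C * s) p := by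
  intro φ
  have h1 := hD φ
  rw [h] at h1
  have h2 : ‖φ ((-p ^ 2 : 𝓞 K) : K)‖ = ‖φ (p : K)‖ ^ 2 := by
    push_cast
    rw [map_neg, map_pow, norm_neg, norm_pow]
  rw [h2] at h1
  have h3 : ‖φ (p : K)‖ ^ 2 ≤ (C * s) ^ 2 := by
    refine h1.trans ?_
    rw [mul_pow]
    exact mul_le_mul_of_nonneg_right (by nlinarith) (by positivity)
  exact (pow_le_pow_iff_left₀ (norm_nonneg _) (by positivity) two_ne_zero).1 h3

/-- the common part of stages 1 and 2: also the relations between `p, q` and the block -/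
theorem eZeroAlg_aux (K : Type) [Field K] [NumberField K] {M M' : ℕ} (hM' : M' ≠ 0)
    {C : ℝ} (hC : 1 ≤ C) {s t : ℝ} (hRg : Rg C s t) {u v : 𝓞 K} (hA : Adm M C s t u v)
    {F : Type} [Field F] [NumberField F] [Algebra K F] {t1 t2 a : F} (hD : Dat F u v t1 t2 a)
    {u' v' : 𝓞 K} {β : Blk (𝓞 K)} (hA' : Adm M' C s t u' v') (hRep : ∃ H, Rep H β u' v')
    (hsq : IsSquare (a * zz u v t1 t2 β)) (hEZ : EZ C s t β) :
    ∃ p q : 𝓞 K, β.D1 = -p ^ 2 ∧ β.D2 = -(p * q) ∧ β.D3 = -q ^ 2 ∧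
      PQ (6 * M * (6 * M') ^ 10) C s t u v p q ∧
        IsSquare (a * algebraMap K F ((u * v * (v * p ^ 3 + u * q ^ 3) : 𝓞 K) : K) *
          (algebraMap K F (p : K) * t1 + algebraMap K F (q : K) * t2)) := by
  obtain ⟨hE, hD1, hD3, hb1, hb3⟩ := hEZ
  obtain ⟨H, π, r, r', hπ, hS⟩ := hRep
  obtain ⟨p, q, e1, e2, e3⟩ := exists_pq_int hD hA.u0 hA.v0 hsq hE hD1
  have hp : p ≠ 0 := by
    rintro rfl
    apply hD1
    rw [e1]
    ring
  have hq : q ≠ 0 := by
    rintro rfl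
    apply hD3
    rw [e3]
    ring
  obtain ⟨hn, hsq2⟩ := eta_sq hD hA.u0 hA.v0 hsq hp e1 e2 e3
  have hg := gcd_mem hM' hA' hS hp e1 e2 e3
  have ht : 0 ≤ t := by
    have h1 := hRg.1
    by_contra h
    push Not at h
    nlinarith
  have hs : 0 ≤ s := ht.trans hRg.2
  have hM2 : ((6 * M * (6 * M') ^ 10 : ℕ) : 𝓞 K) ∈ Ideal.span {p, q} := by
    push_cast
    push_cast at hg
    exact Ideal.mul_mem_left _ _ hg
  refine ⟨p, q, e1, e2, e3, ⟨hp, hq, size_of_sq hC hs e1 hb1, size_of_sq hC ht e3 hb3, hM2, hn, ?_⟩, hsq2⟩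
  refine decomp ?_ ?_
  · rw [Ne, Ideal.span_singleton_eq_bot]
    exact hn
  · intro l hodd
    by_cases hl : ((6 * M * (6 * M') ^ 10 : ℕ) : 𝓞 K) ∈ l.asIdeal
    · exact Or.inl hl
    · right
      refine parity hD hA.u0 hA.v0 hn hsq2 l ?_ ?_ ?_ hodd
      · intro h3
        apply hl
        have h4 : ((6 * M * (6 * M') ^ 10 : ℕ) : 𝓞 K) = (2 * (M : 𝓞 K) * (6 * (M' : 𝓞 K)) ^ 10) * 3 := by
          push_cast
          ring
        rw [h4]
        exact Ideal.mul_mem_left _ _ h3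
      · rintro ⟨h1, h2⟩
        apply hl
        have h3 : (M : 𝓞 K) ∈ l.asIdeal := by
          have h4 : Ideal.span {u, v} ≤ l.asIdeal := by
            rw [Ideal.span_le]
            rintro x (rfl | hx)
            · exact h1
            · rw [Set.mem_singleton_iff] at hx
              rw [hx]
              exact h2
          exact h4 hA.cop
        have h4 : ((6 * M * (6 * M') ^ 10 : ℕ) : 𝓞 K) = (6 * (6 * (M' : 𝓞 K)) ^ 10) * (M : 𝓞 K) := by
          push_cast
          ring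
        rw [h4]
        exact Ideal.mul_mem_left _ _ h3
      · rintro ⟨h1, h2⟩
        apply hl
        have h4 : Ideal.span {p, q} ≤ l.asIdeal := by
          rw [Ideal.span_le]
          rintro x (rfl | hx)
          · exact h1
          · rw [Set.mem_singleton_iff] at hx
            rw [hx]
            exact h2
        exact h4 hM2

theorem eZeroAlg (K : Type) [Field K] [NumberField K] : EZeroAlgStmt K := by
  intro M M' hM hM' C hC
  refine ⟨6 * M * (6 * M') ^ 10, C, by positivity, hC, ?_⟩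
  intro s t hRg u v hA F _ _ _ t1 t2 a hD u' v' k m β hk hm hkb hmb hmu hmv hA' hRep hsq hEZ
  obtain ⟨p, q, _, _, _, h1, h2⟩ := eZeroAlg_aux K hM' hC hRg hA hD hA' hRep hsq hEZ
  exact ⟨p, q, h1, h2⟩

end Pool.Agent.H12.WM
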