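import Pool.Agent.H12.WM.Fib

/-!
# [H12 WM Nc] W1, step 9.4: number of `n` for given `(p, q)`

STATEMENT. For given `p, q ≠ 0` (`|p| ≤ C s`, `|q| ≤ C t`) the number of `n ≠ 0` with `|n| ≤ H = 2 C⁴ (s t)³` and `(n) = b0 g1 g2 m²`, `b0 ∣ (M)`,
`p ∈ g1`, `q ∈ g2` is at most `C' (s t)^(3d/2 + ε)`.

PROOF. Choose `(b0, g1, g2, m)` for every `n ∈ S` (`Classical.choose`). The number of possible `b0`: at most `C1` (`ideal_div` with `I = (M) ≠ 0`;
the constant depends on `M`). `g1 ∣ (p)`, `p ≠ 0`: at most `C2 N((p))^δ`, `N((p)) = nm p ≤ (C s)^d` (`nm_eq`, product over the embeddings,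
`NumberField.Embeddings.card`). `g2 ∣ (q)`: at most `C2 (C t)^(dδ)`. `m`: `N(m)² ≤ N((n)) = nm n ≤ H^d` (`b0, g1, g2 ≠ 0` have norm `≥ 1`), so
`N(m) ≤ H^(d/2)`: at most `C3 H^(d/2)` by `ideal_card` (`m ≠ 0`, because `n ≠ 0`; `H ≥ 1`: `nm n ≥ 1` and `nm n ≤ H^d` if `S` is not empty; `S = ∅` is trivial). For a given
quadruple the ideal `(n)` is given: at most `C4 H^δ` values of `n` by `gen_card`. Product: `C1 C2² C3 C4 (C s)^(dδ) (C t)^(dδ) H^(d/2 + δ)`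
`≤ C' (s t)^(dδ + 3d/2 + 3δ) `; choose `δ = ε / (d + 3)`. (`s, t > 0` by `Rg`. `H^(d/2) = (2C⁴)^(d/2) (s t)^(3d/2)`.)
For the counting use `Finset.card_le_mul_card_image` / `Finset.card_eq_sum_card_fiberwise` or an injection into a sigma type.
-/

set_option autoImplicit false

open scoped NumberField

namespace Pool.Agent.H12.WM

open H88.A4

private theorem nm_le_pow {K : Type} [Field K] [NumberField K] {R : ℝ} {x : 𝓞 K} (h : Bd R x) :
    nm (x : K) ≤ R ^ Module.finrank ℚ K := by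
  unfold nm
  calc ∏ φ : K →+* ℂ, ‖φ (x : K)‖ ≤ ∏ _φ : K →+* ℂ, R :=
        Finset.prod_le_prod (fun φ _ => norm_nonneg _) fun φ _ => h φ
    _ = R ^ Module.finrank ℚ K := by
        rw [Finset.prod_const, Finset.card_univ, NumberField.Embeddings.card]

private theorem n_card_aux (K : Type) [Field K] [NumberField K] (M : ℕ) (hM : M ≠ 0) (δ : ℝ)
    (hδ : 0 < δ) : ∃ C' : ℝ, 0 < C' ∧ ∀ H P Q : ℝ, 1 ≤ H → ∀ p q : 𝓞 K, p ≠ 0 → q ≠ 0 →
      Bd P p → Bd Q q → ∀ S : Finset (𝓞 K),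
      (∀ n ∈ S, n ≠ 0 ∧ Bd H n ∧ ∃ b0 g1 g2 m : Ideal (𝓞 K),
        Ideal.span {n} = b0 * g1 * g2 * m ^ 2 ∧ b0 ∣ Ideal.span {(M : 𝓞 K)} ∧ p ∈ g1 ∧ q ∈ g2) →
      (S.card : ℝ) ≤ C' * (P ^ Module.finrank ℚ K) ^ δ * (Q ^ Module.finrank ℚ K) ^ δ *
        (H ^ δ * Real.sqrt (H ^ Module.finrank ℚ K)) := by
  classical
  obtain ⟨C2, hC2, h2⟩ := ideal_div (Module.finrank ℚ K) δ hδ
  obtain ⟨C3, hC3, h3⟩ := ideal_card K
  obtain ⟨C4, hC4, h4⟩ := gen_card K δ hδ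
  have hM0 : (Ideal.span {(M : 𝓞 K)} : Ideal (𝓞 K)) ≠ ⊥ := by
    rw [Ne, Ideal.span_singleton_eq_bot]
    exact_mod_cast hM
  have hMn : 0 < (Ideal.absNorm (Ideal.span {(M : 𝓞 K)}) : ℝ) := by
    have : Ideal.absNorm (Ideal.span {(M : 𝓞 K)}) ≠ 0 := by
      rwa [Ne, Ideal.absNorm_eq_zero_iff]
    exact_mod_cast Nat.pos_of_ne_zero this
  refine ⟨C4 * (C2 * (Ideal.absNorm (Ideal.span {(M : 𝓞 K)}) : ℝ) ^ δ) * C2 * C2 * C3,
    by positivity, ?_⟩
  intro H P Q hH p q hp hq hpP hqQ S hS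
  have hH0 : 0 < H := lt_of_lt_of_le one_pos hH
  have hex : ∀ n : 𝓞 K, n ∈ S → ∃ τ : Ideal (𝓞 K) × Ideal (𝓞 K) × Ideal (𝓞 K) × Ideal (𝓞 K),
      Ideal.span {n} = τ.1 * τ.2.1 * τ.2.2.1 * τ.2.2.2 ^ 2 ∧ τ.1 ∣ Ideal.span {(M : 𝓞 K)} ∧
        p ∈ τ.2.1 ∧ q ∈ τ.2.2.1 := by
    intro n hn
    obtain ⟨-, -, b0, g1, g2, m, h⟩ := hS n hn
    exact ⟨(b0, g1, g2, m), h⟩
  choose! f hf using hex
  have hp0 : 0 < nm (p : K) := lt_of_lt_of_le one_pos (one_le_nm K p hp)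
  have hq0 : 0 < nm (q : K) := lt_of_lt_of_le one_pos (one_le_nm K q hq)
  -- the four sets
  have hB : ((S.image fun n => (f n).1).card : ℝ) ≤
      C2 * (Ideal.absNorm (Ideal.span {(M : 𝓞 K)}) : ℝ) ^ δ := by
    refine h2 K le_rfl _ hM0 _ ?_
    intro J hJ
    rw [Finset.mem_image] at hJ
    obtain ⟨n, hn, rfl⟩ := hJ
    exact (hf n hn).2.1
  have hG1 : ((S.image fun n => (f n).2.1).card : ℝ) ≤
      C2 * (P ^ Module.finrank ℚ K) ^ δ := by
    refine (h2 K le_rfl (Ideal.span {p}) ?_ _ ?_).trans ?_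
    · rwa [Ne, Ideal.span_singleton_eq_bot]
    · intro J hJ
      rw [Finset.mem_image] at hJ
      obtain ⟨n, hn, rfl⟩ := hJ
      rw [Ideal.dvd_span_singleton]
      exact (hf n hn).2.2.1
    · rw [← nm_eq]
      refine mul_le_mul_of_nonneg_left ?_ hC2.le
      exact Real.rpow_le_rpow hp0.le (nm_le_pow hpP) hδ.le
  have hG2 : ((S.image fun n => (f n).2.2.1).card : ℝ) ≤
      C2 * (Q ^ Module.finrank ℚ K) ^ δ := by
    refine (h2 K le_rfl (Ideal.span {q}) ?_ _ ?_).trans ?_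
    · rwa [Ne, Ideal.span_singleton_eq_bot]
    · intro J hJ
      rw [Finset.mem_image] at hJ
      obtain ⟨n, hn, rfl⟩ := hJ
      rw [Ideal.dvd_span_singleton]
      exact (hf n hn).2.2.2
    · rw [← nm_eq]
      refine mul_le_mul_of_nonneg_left ?_ hC2.le
      exact Real.rpow_le_rpow hq0.le (nm_le_pow hqQ) hδ.le
  have hMm : ((S.image fun n => (f n).2.2.2).card : ℝ) ≤
      C3 * Real.sqrt (H ^ Module.finrank ℚ K) := by
    refine h3 _ ?_ _ ?_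
    · rw [Real.one_le_sqrt]
      exact one_le_pow₀ hH
    · intro J hJ
      rw [Finset.mem_image] at hJ
      obtain ⟨n, hn, rfl⟩ := hJ
      obtain ⟨hn0, hnH, -⟩ := hS n hn
      obtain ⟨hspan, -, -, -⟩ := hf n hn
      have hspan0 : (Ideal.span {n} : Ideal (𝓞 K)) ≠ ⊥ := by
        rwa [Ne, Ideal.span_singleton_eq_bot]
      have hN : Ideal.absNorm (Ideal.span {n}) = Ideal.absNorm (f n).1 *
          Ideal.absNorm (f n).2.1 * Ideal.absNorm (f n).2.2.1 *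
          Ideal.absNorm (f n).2.2.2 ^ 2 := by
        rw [hspan, map_mul, map_mul, map_mul, map_pow]
      have hN0 : Ideal.absNorm (Ideal.span {n}) ≠ 0 := by
        rwa [Ne, Ideal.absNorm_eq_zero_iff]
      rw [hN] at hN0
      have hm0 : Ideal.absNorm (f n).2.2.2 ≠ 0 := by
        intro h0
        apply hN0
        rw [h0]
        ring
      refine ⟨?_, ?_⟩
      · rwa [Ne, ← Ideal.absNorm_eq_zero_iff]
      · have h1 : Ideal.absNorm (f n).2.2.2 ^ 2 ≤ Ideal.absNorm (Ideal.span {n}) := by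
          rw [hN]
          refine Nat.le_mul_of_pos_left _ (Nat.pos_of_ne_zero ?_)
          exact left_ne_zero_of_mul hN0
        have h2' : (Ideal.absNorm (f n).2.2.2 : ℝ) ^ 2 ≤ H ^ Module.finrank ℚ K := by
          refine le_trans ?_ (nm_le_pow hnH)
          rw [nm_eq]
          exact_mod_cast h1
        exact Real.le_sqrt_of_sq_le h2'
  have hfib : ∀ τ ∈ S.image f, ((S.filter fun n => f n = τ).card : ℝ) ≤ C4 * H ^ δ := by
    intro τ hτ
    refine h4 H hH (τ.1 * τ.2.1 * τ.2.2.1 * τ.2.2.2 ^ 2) _ ?_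
    intro n hn
    rw [Finset.mem_filter] at hn
    obtain ⟨hn1, hn2⟩ := hn
    refine ⟨?_, (hS n hn1).2.1⟩
    rw [← hn2]
    exact (hf n hn1).1
  have hcard : (S.card : ℝ) = ∑ τ ∈ S.image f, ((S.filter fun n => f n = τ).card : ℝ) := by
    rw [Finset.card_eq_sum_card_image f S, Nat.cast_sum]
  have himg : (S.image f).card ≤ (S.image fun n => (f n).1).card *
      ((S.image fun n => (f n).2.1).card * ((S.image fun n => (f n).2.2.1).card *
        (S.image fun n => (f n).2.2.2).card)) := by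
    rw [← Finset.card_product, ← Finset.card_product, ← Finset.card_product]
    refine Finset.card_le_card ?_
    intro τ hτ
    rw [Finset.mem_image] at hτ
    obtain ⟨n, hn, rfl⟩ := hτ
    simp only [Finset.mem_product]
    exact ⟨Finset.mem_image_of_mem (fun n => (f n).1) hn,
      Finset.mem_image_of_mem (fun n => (f n).2.1) hn,
      Finset.mem_image_of_mem (fun n => (f n).2.2.1) hn,
      Finset.mem_image_of_mem (fun n => (f n).2.2.2) hn⟩
  have hHδ : 0 < H ^ δ := Real.rpow_pos_of_pos hH0 _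
  have himg' : ((S.image f).card : ℝ) ≤
      (C2 * (Ideal.absNorm (Ideal.span {(M : 𝓞 K)}) : ℝ) ^ δ) *
      ((C2 * (P ^ Module.finrank ℚ K) ^ δ) * ((C2 * (Q ^ Module.finrank ℚ K) ^ δ) *
        (C3 * Real.sqrt (H ^ Module.finrank ℚ K)))) := by
    have h1 : ((S.image f).card : ℝ) ≤ ((S.image fun n => (f n).1).card : ℝ) *
      (((S.image fun n => (f n).2.1).card : ℝ) * (((S.image fun n => (f n).2.2.1).card : ℝ) *
        ((S.image fun n => (f n).2.2.2).card : ℝ))) := by exact_mod_cast himg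
    refine h1.trans ?_
    have n1 : (0 : ℝ) ≤ ((S.image fun n => (f n).2.1).card : ℝ) := Nat.cast_nonneg _
    have n2 : (0 : ℝ) ≤ ((S.image fun n => (f n).2.2.1).card : ℝ) := Nat.cast_nonneg _
    have n3 : (0 : ℝ) ≤ ((S.image fun n => (f n).2.2.2).card : ℝ) := Nat.cast_nonneg _
    refine mul_le_mul hB ?_ (by positivity) (by positivity)
    refine mul_le_mul hG1 ?_ (by positivity) (n1.trans hG1)
    exact mul_le_mul hG2 hMm n3 (n2.trans hG2)
  calc (S.card : ℝ) = ∑ τ ∈ S.image f, ((S.filter fun n => f n = τ).card : ℝ) := hcard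
    _ ≤ ∑ τ ∈ S.image f, C4 * H ^ δ := Finset.sum_le_sum hfib
    _ = ((S.image f).card : ℝ) * (C4 * H ^ δ) := by rw [Finset.sum_const, nsmul_eq_mul]
    _ ≤ ((C2 * (Ideal.absNorm (Ideal.span {(M : 𝓞 K)}) : ℝ) ^ δ) *
      ((C2 * (P ^ Module.finrank ℚ K) ^ δ) * ((C2 * (Q ^ Module.finrank ℚ K) ^ δ) *
        (C3 * Real.sqrt (H ^ Module.finrank ℚ K))))) * (C4 * H ^ δ) :=
        mul_le_mul_of_nonneg_right himg' (by positivity)
    _ = _ := by ring

theorem n_card (K : Type) [Field K] [NumberField K] (M : ℕ) (hM : M ≠ 0) (C : ℝ) (hC : 1 ≤ C)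
    (ε : ℝ) (hε : 0 < ε) :
    ∃ C' : ℝ, 0 < C' ∧ ∀ s t : ℝ, Rg C s t → ∀ p q : 𝓞 K, p ≠ 0 → q ≠ 0 → Bd (C * s) p →
      Bd (C * t) q → ∀ S : Finset (𝓞 K),
      (∀ n ∈ S, n ≠ 0 ∧ Bd (2 * C ^ 4 * (s * t) ^ 3) n ∧ ∃ b0 g1 g2 m : Ideal (𝓞 K),
        Ideal.span {n} = b0 * g1 * g2 * m ^ 2 ∧ b0 ∣ Ideal.span {(M : 𝓞 K)} ∧ p ∈ g1 ∧ q ∈ g2) →
      (S.card : ℝ) ≤ C' * (s * t) ^ (3 / 2 * (Module.finrank ℚ K : ℝ) + ε) := by
  set d : ℕ := Module.finrank ℚ K with hd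
  have hdp : 0 < d := Module.finrank_pos
  have hd3 : (0 : ℝ) < (d : ℝ) + 3 := by positivity
  set δ : ℝ := ε / ((d : ℝ) + 3) with hδ
  have hδ0 : 0 < δ := div_pos hε hd3
  obtain ⟨C1, hC1, h1⟩ := n_card_aux K M hM δ hδ0
  have hC0 : (0 : ℝ) < C := lt_of_lt_of_le one_pos hC
  refine ⟨C1 * (C ^ 2) ^ ((d : ℝ) * δ) * (2 * C ^ 4) ^ (δ + (d : ℝ) / 2), by positivity, ?_⟩
  intro s t hRg p q hp hq hpb hqb S hS
  obtain ⟨hCt, hts⟩ := hRg
  have ht : 0 < t := by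
    by_contra hcon
    push Not at hcon
    have : C * t ≤ 0 := mul_nonpos_of_nonneg_of_nonpos hC0.le hcon
    linarith
  have hs : 0 < s := lt_of_lt_of_le ht hts
  have hst : 0 < s * t := mul_pos hs ht
  rcases S.eq_empty_or_nonempty with rfl | ⟨n, hn⟩
  · rw [Finset.card_empty, Nat.cast_zero]
    positivity
  set H : ℝ := 2 * C ^ 4 * (s * t) ^ 3 with hH
  have hH0 : 0 < H := by positivity
  have hH1 : 1 ≤ H := by
    by_contra hcon
    push Not at hcon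
    obtain ⟨hn0, hnH, -⟩ := hS n hn
    have h2 := (one_le_nm K n hn0).trans (nm_le_pow hnH)
    have h3 : H ^ d < 1 := pow_lt_one₀ hH0.le hcon hdp.ne'
    linarith
  refine (h1 H (C * s) (C * t) hH1 p q hp hq hpb hqb S hS).trans (le_of_eq ?_)
  rw [← hd]
  have e1 : ((C * s) ^ d) ^ δ * ((C * t) ^ d) ^ δ =
      (C ^ 2) ^ ((d : ℝ) * δ) * (s * t) ^ ((d : ℝ) * δ) := by
    rw [← Real.mul_rpow (by positivity) (by positivity), ← mul_pow, ← Real.rpow_natCast,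
      ← Real.rpow_mul (by positivity), ← Real.mul_rpow (by positivity) hst.le]
    congr 1
    ring
  have e2 : H ^ δ * Real.sqrt (H ^ d) =
      (2 * C ^ 4) ^ (δ + (d : ℝ) / 2) * (s * t) ^ (3 * (δ + (d : ℝ) / 2)) := by
    have e3 : Real.sqrt (H ^ d) = H ^ ((d : ℝ) / 2) := by
      rw [Real.sqrt_eq_rpow, ← Real.rpow_natCast, ← Real.rpow_mul hH0.le]
      congr 1
      ring
    have e4 : (s * t) ^ 3 = (s * t) ^ (3 : ℝ) := by
      rw [← Real.rpow_natCast]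
      norm_num
    rw [e3, ← Real.rpow_add hH0, hH, Real.mul_rpow (by positivity) (by positivity), e4,
      ← Real.rpow_mul hst.le]
  have e3 : (s * t) ^ ((d : ℝ) * δ) * (s * t) ^ (3 * (δ + (d : ℝ) / 2)) =
      (s * t) ^ (3 / 2 * (d : ℝ) + ε) := by
    rw [← Real.rpow_add hst]
    congr 1
    have : ε = δ * ((d : ℝ) + 3) := by
      rw [hδ]
      field_simp
    rw [this]
    ring
  rw [← e3]
  calc C1 * ((C * s) ^ d) ^ δ * ((C * t) ^ d) ^ δ * (H ^ δ * Real.sqrt (H ^ d))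
      = C1 * (((C * s) ^ d) ^ δ * ((C * t) ^ d) ^ δ) * (H ^ δ * Real.sqrt (H ^ d)) := by ring
    _ = _ := by
        rw [e1, e2]
        ring

end Pool.Agent.H12.WM
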