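import Pool.Agent.H88.A4.Iface
import Pool.Agent.H88.A4.Geo

/-!
# [H12 WM PQs] W1, step 9.4: the sum over `(p, q)`

STATEMENT. `∑_(p,q) (1 + (s t)^(3d/2) (nm p nm q)^(-3/2)) ≤ C' (s t)^(3d/2 + ε)` over any finite set of pairs `p, q ≠ 0` with `|p| ≤ C s`, `|q| ≤ C t`.

PROOF. Let `S1`, `S2` be the images of `S` under `x.1`, `x.2`; `S ⊆ S1 ×ˢ S2`. Put `H1 = C s`, `H2 = C t`, both `≥ 1` (`Rg`: `1 ≤ C t`, `t ≤ s`).
(a) `#S1 ≤ C1 (C s)^d (1 + log H1)^k` by `norm_sum` with `a = 0` (`nm x ^ (-0) = 1`), the same for `S2`. So `∑ 1 ≤ #S1 #S2 ≤ C2 (s t)^(d + ε)`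
(`(1 + log H)^k ≤ C_ε H^ε` for `H ≥ 1`: `Real.log_le_rpow_div` or `isLittleO_log_rpow_atTop`).
(b) `nm x ≥ 1` for `x ≠ 0` (`one_le_nm`), so `nm x^(-3/2) ≤ nm x^(-1)` and `∑_(x ∈ S1) nm x^(-3/2) ≤ C1 H1^0 (1 + log H1)^k ≤ C3 s^ε` by `norm_sum` with
`a = 1`. `(nm p nm q)^(-3/2) = nm p^(-3/2) nm q^(-3/2)` (`Real.mul_rpow`), the sum over `S` is at most the product of the two sums
(`Finset.sum_product`, `Finset.sum_mul_sum`).
(c) `d + ε ≤ 3d/2 + ε` and `s t ≥ C^(-2)`: `(s t)^(d + ε) ≤ C' (s t)^(3d/2 + ε)` with `C' = C^d`.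
-/

set_option autoImplicit false

open scoped NumberField

namespace Pool.Agent.H12.WM

open H88.A4

private theorem log_pow_le (k : ℕ) (ε : ℝ) (hε : 0 < ε) : ∃ D : ℝ, 0 < D ∧ ∀ H : ℝ, 1 ≤ H →
    (1 + Real.log H) ^ k ≤ D * H ^ ε := by
  have hk : (0 : ℝ) < (k : ℝ) + 1 := by positivity
  set δ : ℝ := ε / ((k : ℝ) + 1) with hδ
  have hδ0 : 0 < δ := div_pos hε hk
  refine ⟨(1 + 1 / δ) ^ k, by positivity, fun H hH => ?_⟩
  have hH0 : 0 ≤ H := by linarith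
  have h1 : Real.log H ≤ H ^ δ / δ := Real.log_le_rpow_div hH0 hδ0
  have h2 : (1 : ℝ) ≤ H ^ δ := Real.one_le_rpow hH hδ0.le
  have h3 : 1 + Real.log H ≤ (1 + 1 / δ) * H ^ δ := by
    have : H ^ δ / δ = 1 / δ * H ^ δ := by ring
    rw [this] at h1
    nlinarith
  have h4 : 0 ≤ 1 + Real.log H := by
    have := Real.log_nonneg hH
    linarith
  have h5 : (H ^ δ) ^ k ≤ H ^ ε := by
    rw [← Real.rpow_mul_natCast hH0]
    apply Real.rpow_le_rpow_of_exponent_le hH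
    rw [hδ, div_mul_eq_mul_div, div_le_iff₀ hk]
    nlinarith
  calc (1 + Real.log H) ^ k ≤ ((1 + 1 / δ) * H ^ δ) ^ k := pow_le_pow_left₀ h4 h3 k
    _ = (1 + 1 / δ) ^ k * (H ^ δ) ^ k := mul_pow _ _ _
    _ ≤ (1 + 1 / δ) ^ k * H ^ ε := by
      apply mul_le_mul_of_nonneg_left h5
      positivity

theorem pq_sum (K : Type) [Field K] [NumberField K] (C : ℝ) (hC : 1 ≤ C) (ε : ℝ) (hε : 0 < ε) :
    ∃ C' : ℝ, 0 < C' ∧ ∀ s t : ℝ, Rg C s t → ∀ S : Finset (𝓞 K × 𝓞 K),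
      (∀ x ∈ S, x.1 ≠ 0 ∧ x.2 ≠ 0 ∧ Bd (C * s) x.1 ∧ Bd (C * t) x.2) →
      ∑ x ∈ S, (1 + (s * t) ^ (3 / 2 * (Module.finrank ℚ K : ℝ)) *
        (nm (x.1 : K) * nm (x.2 : K)) ^ (-(3 / 2) : ℝ)) ≤
      C' * (s * t) ^ (3 / 2 * (Module.finrank ℚ K : ℝ) + ε) := by
  classical
  obtain ⟨A0, k0, hA0, h0⟩ := norm_sum K 0 le_rfl zero_le_one
  obtain ⟨A1, k1, hA1, h1⟩ := norm_sum K 1 zero_le_one le_rfl
  obtain ⟨D0, hD0, hd0⟩ := log_pow_le k0 ε hε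
  obtain ⟨D1, hD1, hd1⟩ := log_pow_le k1 ε hε
  set d : ℝ := (Module.finrank ℚ K : ℝ) with hd
  have hdn : 0 ≤ d := Nat.cast_nonneg _
  have hC0 : 0 < C := by linarith
  -- the two one-dimensional bounds
  have b0 : ∀ H : ℝ, 1 ≤ H → ∀ S : Finset (𝓞 K), (∀ x ∈ S, x ≠ 0 ∧ Bd H x) →
      (S.card : ℝ) ≤ A0 * D0 * H ^ (d + ε) := by
    intro H hH S hS
    have hHp : 0 < H := by linarith
    have := h0 H hH S hS
    simp only [neg_zero, Real.rpow_zero, Finset.sum_const, nsmul_eq_mul, mul_one, sub_zero,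
      one_mul] at this
    refine this.trans ?_
    rw [Real.rpow_add hHp]
    have h3 : A0 * H ^ d * (1 + Real.log H) ^ k0 ≤ A0 * H ^ d * (D0 * H ^ ε) :=
      mul_le_mul_of_nonneg_left (hd0 H hH) (by positivity)
    refine h3.trans (le_of_eq ?_)
    ring
  have b1 : ∀ H : ℝ, 1 ≤ H → ∀ S : Finset (𝓞 K), (∀ x ∈ S, x ≠ 0 ∧ Bd H x) →
      ∑ x ∈ S, nm (x : K) ^ (-(3 / 2) : ℝ) ≤ A1 * D1 * H ^ ε := by
    intro H hH S hS
    have hHp : 0 < H := by linarith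
    have h2 := h1 H hH S hS
    have h3 : ∑ x ∈ S, nm (x : K) ^ (-(3 / 2) : ℝ) ≤ ∑ x ∈ S, nm (x : K) ^ (-1 : ℝ) := by
      refine Finset.sum_le_sum fun x hx => ?_
      exact Real.rpow_le_rpow_of_exponent_le (one_le_nm K x (hS x hx).1) (by norm_num)
    refine h3.trans (h2.trans ?_)
    have h4 : H ^ ((1 - 1) * d) = 1 := by
      rw [sub_self, zero_mul, Real.rpow_zero]
    rw [h4]
    have h5 : A1 * 1 * (1 + Real.log H) ^ k1 ≤ A1 * 1 * (D1 * H ^ ε) :=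
      mul_le_mul_of_nonneg_left (hd1 H hH) (by positivity)
    refine h5.trans (le_of_eq ?_)
    ring
  refine ⟨(A0 * D0) ^ 2 * (C ^ 2) ^ (d + ε) * C ^ d + (A1 * D1) ^ 2 * (C ^ 2) ^ ε, by positivity,
    ?_⟩
  intro s t hRg S hS
  have ht : 0 < t := by
    by_contra h
    push Not at h
    have := hRg.1
    nlinarith
  have hs : 0 < s := lt_of_lt_of_le ht hRg.2
  have hst : 0 < s * t := mul_pos hs ht
  have hCt : 1 ≤ C * t := hRg.1
  have hCs : 1 ≤ C * s := hCt.trans (mul_le_mul_of_nonneg_left hRg.2 hC0.le)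
  set S1 := S.image Prod.fst with hS1
  set S2 := S.image Prod.snd with hS2
  have hsub : S ⊆ S1 ×ˢ S2 := by
    intro x hx
    rw [Finset.mem_product]
    exact ⟨Finset.mem_image_of_mem _ hx, Finset.mem_image_of_mem _ hx⟩
  have m1 : ∀ x ∈ S1, x ≠ 0 ∧ Bd (C * s) x := by
    intro x hx
    obtain ⟨y, hy, rfl⟩ := Finset.mem_image.1 hx
    exact ⟨(hS y hy).1, (hS y hy).2.2.1⟩
  have m2 : ∀ x ∈ S2, x ≠ 0 ∧ Bd (C * t) x := by
    intro x hx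
    obtain ⟨y, hy, rfl⟩ := Finset.mem_image.1 hx
    exact ⟨(hS y hy).2.1, (hS y hy).2.2.2⟩
  -- (a)
  have pa : (S.card : ℝ) ≤ (A0 * D0) ^ 2 * (C ^ 2) ^ (d + ε) * (s * t) ^ (d + ε) := by
    have c1 := b0 (C * s) hCs S1 m1
    have c2 := b0 (C * t) hCt S2 m2
    have c3 : (S.card : ℝ) ≤ (S1.card : ℝ) * (S2.card : ℝ) := by
      have := Finset.card_le_card hsub
      rw [Finset.card_product] at this
      exact_mod_cast this
    refine c3.trans ((mul_le_mul c1 c2 (Nat.cast_nonneg _) (by positivity)).trans (le_of_eq ?_))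
    have e1 : (C * s) ^ (d + ε) * (C * t) ^ (d + ε) = (C ^ 2) ^ (d + ε) * (s * t) ^ (d + ε) := by
      rw [← Real.mul_rpow (by positivity) (by positivity),
        ← Real.mul_rpow (by positivity) (by positivity)]
      congr 1
      ring
    calc A0 * D0 * (C * s) ^ (d + ε) * (A0 * D0 * (C * t) ^ (d + ε))
        = (A0 * D0) ^ 2 * ((C * s) ^ (d + ε) * (C * t) ^ (d + ε)) := by ring
      _ = (A0 * D0) ^ 2 * (C ^ 2) ^ (d + ε) * (s * t) ^ (d + ε) := by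
        rw [e1]
        ring
  -- (b)
  have pb : ∑ x ∈ S, (nm (x.1 : K) * nm (x.2 : K)) ^ (-(3 / 2) : ℝ) ≤
      (A1 * D1) ^ 2 * (C ^ 2) ^ ε * (s * t) ^ ε := by
    have c1 := b1 (C * s) hCs S1 m1
    have c2 := b1 (C * t) hCt S2 m2
    have n1 : ∀ x ∈ S1, 0 ≤ nm (x : K) := fun x hx => zero_le_one.trans (one_le_nm K x (m1 x hx).1)
    have n2 : ∀ x ∈ S2, 0 ≤ nm (x : K) := fun x hx => zero_le_one.trans (one_le_nm K x (m2 x hx).1)
    have c3 : ∑ x ∈ S, (nm (x.1 : K) * nm (x.2 : K)) ^ (-(3 / 2) : ℝ) ≤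
        ∑ x ∈ S1 ×ˢ S2, (nm (x.1 : K) * nm (x.2 : K)) ^ (-(3 / 2) : ℝ) := by
      apply Finset.sum_le_sum_of_subset_of_nonneg hsub
      intro x hx _
      rw [Finset.mem_product] at hx
      exact Real.rpow_nonneg (mul_nonneg (n1 _ hx.1) (n2 _ hx.2)) _
    have c4 : ∑ x ∈ S1 ×ˢ S2, (nm (x.1 : K) * nm (x.2 : K)) ^ (-(3 / 2) : ℝ) =
        (∑ x ∈ S1, nm (x : K) ^ (-(3 / 2) : ℝ)) * ∑ x ∈ S2, nm (x : K) ^ (-(3 / 2) : ℝ) := by
      rw [Finset.sum_mul_sum, ← Finset.sum_product']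
      refine Finset.sum_congr rfl fun x hx => ?_
      rw [Finset.mem_product] at hx
      exact Real.mul_rpow (n1 _ hx.1) (n2 _ hx.2)
    rw [c4] at c3
    have c5 : 0 ≤ ∑ x ∈ S2, nm (x : K) ^ (-(3 / 2) : ℝ) :=
      Finset.sum_nonneg fun x hx => Real.rpow_nonneg (n2 x hx) _
    refine c3.trans ((mul_le_mul c1 c2 c5 (by positivity)).trans (le_of_eq ?_))
    have e1 : (C * s) ^ ε * (C * t) ^ ε = (C ^ 2) ^ ε * (s * t) ^ ε := by
      rw [← Real.mul_rpow (by positivity) (by positivity),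
        ← Real.mul_rpow (by positivity) (by positivity)]
      congr 1
      ring
    calc A1 * D1 * (C * s) ^ ε * (A1 * D1 * (C * t) ^ ε)
        = (A1 * D1) ^ 2 * ((C * s) ^ ε * (C * t) ^ ε) := by ring
      _ = (A1 * D1) ^ 2 * (C ^ 2) ^ ε * (s * t) ^ ε := by
        rw [e1]
        ring
  -- (c)
  have pc : (s * t) ^ (d + ε) ≤ C ^ d * (s * t) ^ (3 / 2 * d + ε) := by
    have e1 : (s * t) ^ (3 / 2 * d + ε) = (s * t) ^ (d + ε) * (s * t) ^ (d / 2) := by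
      rw [← Real.rpow_add hst]
      congr 1
      ring
    have e2 : C ^ d = (C ^ 2) ^ (d / 2) := by
      rw [← Real.rpow_natCast, ← Real.rpow_mul hC0.le]
      congr 1
      push_cast
      ring
    have e3 : 1 ≤ (C ^ 2) ^ (d / 2) * (s * t) ^ (d / 2) := by
      rw [← Real.mul_rpow (by positivity) hst.le]
      apply Real.one_le_rpow _ (by positivity)
      calc (1 : ℝ) = 1 * 1 := by ring
        _ ≤ (C * s) * (C * t) := mul_le_mul hCs hCt zero_le_one (by positivity)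
        _ = C ^ 2 * (s * t) := by ring
    rw [e1, e2]
    have e4 : 0 ≤ (s * t) ^ (d + ε) := by positivity
    calc (s * t) ^ (d + ε) = (s * t) ^ (d + ε) * 1 := by ring
      _ ≤ (s * t) ^ (d + ε) * ((C ^ 2) ^ (d / 2) * (s * t) ^ (d / 2)) :=
        mul_le_mul_of_nonneg_left e3 e4
      _ = (C ^ 2) ^ (d / 2) * ((s * t) ^ (d + ε) * (s * t) ^ (d / 2)) := by ring
  rw [Finset.sum_add_distrib, ← Finset.mul_sum]
  simp only [Finset.sum_const, nsmul_eq_mul, mul_one]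
  have pd : (s * t) ^ (3 / 2 * d) * ∑ x ∈ S, (nm (x.1 : K) * nm (x.2 : K)) ^ (-(3 / 2) : ℝ) ≤
      (A1 * D1) ^ 2 * (C ^ 2) ^ ε * (s * t) ^ (3 / 2 * d + ε) := by
    rw [Real.rpow_add hst]
    refine (mul_le_mul_of_nonneg_left pb (by positivity)).trans (le_of_eq ?_)
    ring
  have pe : (S.card : ℝ) ≤ (A0 * D0) ^ 2 * (C ^ 2) ^ (d + ε) * C ^ d *
      (s * t) ^ (3 / 2 * d + ε) := by
    refine pa.trans ?_
    calc (A0 * D0) ^ 2 * (C ^ 2) ^ (d + ε) * (s * t) ^ (d + ε)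
        ≤ (A0 * D0) ^ 2 * (C ^ 2) ^ (d + ε) * (C ^ d * (s * t) ^ (3 / 2 * d + ε)) :=
          mul_le_mul_of_nonneg_left pc (by positivity)
      _ = _ := by ring
  calc _ ≤ (A0 * D0) ^ 2 * (C ^ 2) ^ (d + ε) * C ^ d * (s * t) ^ (3 / 2 * d + ε) +
        (A1 * D1) ^ 2 * (C ^ 2) ^ ε * (s * t) ^ (3 / 2 * d + ε) := add_le_add pe pd
    _ = _ := by ring

end Pool.Agent.H12.WM
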