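import Pool.Agent.H12.WM.UVc
import Pool.Agent.H12.WM.Nc
import Pool.Agent.H12.WM.PQs

/-!
# W1 (MP_b39724_nt), step 9: assembly of the count, `EZeroStmt`
-/

set_option autoImplicit false

open scoped NumberField

namespace Pool.Agent.H12.WM

open H88.A4

/-- two steps of fibring: `(x, y) -> x` and, in a fibre, `y -> f x y` -/
theorem card_two_step {α β γ : Type} [DecidableEq α] [DecidableEq β] [DecidableEq γ]
    (S : Finset (β × α)) (f : β × α → γ) {A : ℝ} (hA : 0 ≤ A) (g : α → ℝ)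
    (h1 : ∀ x ∈ S.image Prod.snd, (((S.filter fun y => y.2 = x).image f).card : ℝ) ≤ A)
    (h2 : ∀ x ∈ S.image Prod.snd, ∀ n, ((S.filter fun y => y.2 = x ∧ f y = n).card : ℝ) ≤ g x) :
    (S.card : ℝ) ≤ A * ∑ x ∈ S.image Prod.snd, g x := by
  have e1 : (S.card : ℝ) = ∑ x ∈ S.image Prod.snd, ((S.filter fun y => y.2 = x).card : ℝ) := by
    rw [Finset.card_eq_sum_card_image Prod.snd S]
    push_cast
    rfl
  rw [e1, Finset.mul_sum]
  refine Finset.sum_le_sum fun x hx => ?_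
  have e2 : ((S.filter fun y => y.2 = x).card : ℝ) =
      ∑ n ∈ (S.filter fun y => y.2 = x).image f,
        (((S.filter fun y => y.2 = x).filter fun y => f y = n).card : ℝ) := by
    rw [Finset.card_eq_sum_card_image f (S.filter fun y => y.2 = x)]
    push_cast
    rfl
  rw [e2]
  have hg : 0 ≤ g x := by
    obtain ⟨y, hy, rfl⟩ := Finset.mem_image.1 hx
    exact (Nat.cast_nonneg _).trans (h2 y.2 hx (f y))
  calc ∑ n ∈ (S.filter fun y => y.2 = x).image f,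
        (((S.filter fun y => y.2 = x).filter fun y => f y = n).card : ℝ)
      ≤ ∑ n ∈ (S.filter fun y => y.2 = x).image f, g x := by
        refine Finset.sum_le_sum fun n _ => ?_
        rw [Finset.filter_filter]
        exact h2 x hx n
    _ = (((S.filter fun y => y.2 = x).image f).card : ℝ) * g x := by
        rw [Finset.sum_const, nsmul_eq_mul]
    _ ≤ A * g x := mul_le_mul_of_nonneg_right (h1 x hx) hg

theorem eZero (K : Type) [Field K] [NumberField K] : EZeroStmt K := by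
  classical
  intro M hM C hC ε hε
  obtain ⟨C1, hC1, h1⟩ := uv_card K M hM C hC
  obtain ⟨C2, hC2, h2⟩ := n_card K M hM C hC (ε / 2) (half_pos hε)
  obtain ⟨C3, hC3, h3⟩ := pq_sum K C hC (ε / 2) (half_pos hε)
  refine ⟨C2 * (C1 * C3), by positivity, ?_⟩
  intro s t hRg S hS
  have hC0 : 0 < C := by linarith
  have ht : 0 < t := by
    by_contra h
    push Not at h
    have := hRg.1
    nlinarith
  have hs : 0 < s := lt_of_lt_of_le ht hRg.2
  have hst : 0 < s * t := mul_pos hs ht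
  set e : 𝓞 K × 𝓞 K × 𝓞 K × 𝓞 K → (𝓞 K × 𝓞 K) × (𝓞 K × 𝓞 K) :=
    fun x => ((x.1, x.2.1), (x.2.2.1, x.2.2.2)) with he
  have hinj : Function.Injective e := by
    rintro ⟨a, b, c, d⟩ ⟨a', b', c', d'⟩ h
    simp only [he, Prod.mk.injEq] at h
    obtain ⟨⟨rfl, rfl⟩, rfl, rfl⟩ := h
    rfl
  set S' := S.image e with hS'
  have hcard : S'.card = S.card := Finset.card_image_of_injective S hinj
  have hmem : ∀ y ∈ S', Adm M C s t y.1.1 y.1.2 ∧ PQ M C s t y.1.1 y.1.2 y.2.1 y.2.2 := by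
    intro y hy
    obtain ⟨x, hx, rfl⟩ := Finset.mem_image.1 hy
    exact hS x hx
  set f : (𝓞 K × 𝓞 K) × (𝓞 K × 𝓞 K) → 𝓞 K := fun y => y.1.2 * y.2.1 ^ 3 + y.1.1 * y.2.2 ^ 3 with hf
  set A : ℝ := C2 * (s * t) ^ (3 / 2 * (Module.finrank ℚ K : ℝ) + ε / 2) with hA
  have hA0 : 0 ≤ A := by positivity
  set g : 𝓞 K × 𝓞 K → ℝ := fun x => C1 * (1 + (s * t) ^ (3 / 2 * (Module.finrank ℚ K : ℝ)) *
        (nm (x.1 : K) * nm (x.2 : K)) ^ (-(3 / 2) : ℝ)) with hg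
  have hsz : ∀ y ∈ S', Bd (2 * C ^ 4 * (s * t) ^ 3) (f y) := by
    intro y hy φ
    obtain ⟨hAd, hPQ⟩ := hmem y hy
    have e1 := hAd.ule φ
    have e2 := hAd.vle φ
    have e3 := hPQ.2.2.1 φ
    have e4 := hPQ.2.2.2.1 φ
    have e5 : ‖φ ((f y : 𝓞 K) : K)‖ ≤ ‖φ (y.1.2 : K)‖ * ‖φ (y.2.1 : K)‖ ^ 3 +
        ‖φ (y.1.1 : K)‖ * ‖φ (y.2.2 : K)‖ ^ 3 := by
      simp only [hf]
      push_cast
      rw [map_add, map_mul, map_mul, map_pow, map_pow]
      refine (norm_add_le _ _).trans ?_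
      rw [norm_mul, norm_mul, norm_pow, norm_pow]
    refine e5.trans ?_
    have e6 : ‖φ (y.2.1 : K)‖ ^ 3 ≤ (C * s) ^ 3 := pow_le_pow_left₀ (norm_nonneg _) e3 3
    have e7 : ‖φ (y.2.2 : K)‖ ^ 3 ≤ (C * t) ^ 3 := pow_le_pow_left₀ (norm_nonneg _) e4 3
    have e8 : ‖φ (y.1.2 : K)‖ * ‖φ (y.2.1 : K)‖ ^ 3 ≤ (C * t ^ 3) * (C * s) ^ 3 :=
      mul_le_mul e2 e6 (by positivity) (by positivity)
    have e9 : ‖φ (y.1.1 : K)‖ * ‖φ (y.2.2 : K)‖ ^ 3 ≤ (C * s ^ 3) * (C * t) ^ 3 :=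
      mul_le_mul e1 e7 (by positivity) (by positivity)
    calc _ ≤ (C * t ^ 3) * (C * s) ^ 3 + (C * s ^ 3) * (C * t) ^ 3 := add_le_add e8 e9
      _ = 2 * C ^ 4 * (s * t) ^ 3 := by ring
  have key := card_two_step S' f hA0 g ?_ ?_
  · have hsum := h3 s t hRg (S'.image Prod.snd) (by
      intro x hx
      obtain ⟨y, hy, rfl⟩ := Finset.mem_image.1 hx
      obtain ⟨_, hPQ⟩ := hmem y hy
      exact ⟨hPQ.1, hPQ.2.1, hPQ.2.2.1, hPQ.2.2.2.1⟩)
    have hgs : ∑ x ∈ S'.image Prod.snd, g x ≤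
        C1 * (C3 * (s * t) ^ (3 / 2 * (Module.finrank ℚ K : ℝ) + ε / 2)) := by
      simp only [hg]
      rw [← Finset.mul_sum]
      exact mul_le_mul_of_nonneg_left hsum hC1.le
    rw [← hcard]
    refine key.trans ?_
    calc A * ∑ x ∈ S'.image Prod.snd, g x
        ≤ A * (C1 * (C3 * (s * t) ^ (3 / 2 * (Module.finrank ℚ K : ℝ) + ε / 2))) :=
          mul_le_mul_of_nonneg_left hgs hA0
      _ = C2 * (C1 * C3) * ((s * t) ^ (3 / 2 * (Module.finrank ℚ K : ℝ) + ε / 2) *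
          (s * t) ^ (3 / 2 * (Module.finrank ℚ K : ℝ) + ε / 2)) := by
        rw [hA]
        ring
      _ = C2 * (C1 * C3) * (s * t) ^ (3 * (Module.finrank ℚ K : ℝ) + ε) := by
        rw [← Real.rpow_add hst]
        congr 2
        ring
  · intro x hx
    obtain ⟨y0, hy0, rfl⟩ := Finset.mem_image.1 hx
    obtain ⟨_, hPQ0⟩ := hmem y0 hy0
    refine h2 s t hRg y0.2.1 y0.2.2 hPQ0.1 hPQ0.2.1 hPQ0.2.2.1 hPQ0.2.2.2.1 _ ?_
    intro n hn
    obtain ⟨y, hy, rfl⟩ := Finset.mem_image.1 hn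
    rw [Finset.mem_filter] at hy
    obtain ⟨_, hPQ⟩ := hmem y hy.1
    obtain ⟨_, _, _, _, _, hn0, b0, g1, g2, m, e1, e2, e3, e4⟩ := hPQ
    refine ⟨hn0, hsz y hy.1, b0, g1, g2, m, e1, e2, ?_, ?_⟩
    · rw [← hy.2]
      exact e3
    · rw [← hy.2]
      exact e4
  · intro x hx n
    obtain ⟨y0, hy0, rfl⟩ := Finset.mem_image.1 hx
    obtain ⟨_, hPQ0⟩ := hmem y0 hy0
    have hc : (S'.filter fun y => y.2 = y0.2 ∧ f y = n).card =
        ((S'.filter fun y => y.2 = y0.2 ∧ f y = n).image Prod.fst).card := by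
      rw [Finset.card_image_of_injOn]
      intro y hy z hz hyz
      simp only [Finset.coe_filter, Set.mem_setOf_eq] at hy hz
      exact Prod.ext hyz (hy.2.1.trans hz.2.1.symm)
    rw [hc]
    refine h1 s t hRg y0.2.1 y0.2.2 n hPQ0.1 hPQ0.2.1 hPQ0.2.2.2.2.1 _ ?_
    intro z hz
    obtain ⟨y, hy, rfl⟩ := Finset.mem_image.1 hz
    rw [Finset.mem_filter] at hy
    obtain ⟨hAd, _⟩ := hmem y hy.1
    refine ⟨hAd.ule, hAd.vle, ?_⟩
    rw [← hy.2.1]
    exact hy.2.2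

end Pool.Agent.H12.WM
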