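import Pool.Agent.H88.A4.Iface2

/-!
# W1 stage 2 (MP_b39724_nt), step 9': the data of stage 2 are data of stage 1 over `M`
-/

set_option autoImplicit false

open scoped NumberField nonZeroDivisors

namespace Pool.Agent.H12.WM

open H88.A4

/-- the square of a fractional ideal stays a square in an extension -/
theorem isq_ext {F F' : Type} [Field F] [NumberField F] [Field F'] [NumberField F'] [Algebra F F']
    {a : F}
    (h : ∃ J : FractionalIdeal (𝓞 F)⁰ F, FractionalIdeal.spanSingleton (𝓞 F)⁰ a = J ^ 2) :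
    ∃ J : FractionalIdeal (𝓞 F')⁰ F',
      FractionalIdeal.spanSingleton (𝓞 F')⁰ (algebraMap F F' a) = J ^ 2 := by
  obtain ⟨J, hJ⟩ := h
  obtain ⟨x, I, hx0, hI⟩ := FractionalIdeal.exists_eq_spanSingleton_mul J
  have hx : algebraMap (𝓞 F) F x ≠ 0 := by
    rw [Ne, FaithfulSMul.algebraMap_eq_zero_iff]
    exact hx0
  have h1 : FractionalIdeal.spanSingleton (𝓞 F)⁰ (a * (algebraMap (𝓞 F) F x) ^ 2) =
      ((I ^ 2 : Ideal (𝓞 F)) : FractionalIdeal (𝓞 F)⁰ F) := by
    rw [← FractionalIdeal.spanSingleton_mul_spanSingleton, hJ, hI, mul_pow,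
      ← FractionalIdeal.spanSingleton_pow, mul_right_comm, ← mul_pow,
      FractionalIdeal.spanSingleton_mul_spanSingleton, inv_mul_cancel₀ hx,
      FractionalIdeal.spanSingleton_one, one_pow, one_mul, FractionalIdeal.coeIdeal_pow]
  have h2 : a * (algebraMap (𝓞 F) F x) ^ 2 ∈ ((I ^ 2 : Ideal (𝓞 F)) : FractionalIdeal (𝓞 F)⁰ F) := by
    rw [← h1]
    exact FractionalIdeal.mem_spanSingleton_self _ _
  obtain ⟨b, hb, hb'⟩ := (FractionalIdeal.mem_coeIdeal _).1 h2
  have h3 : Ideal.span {b} = I ^ 2 := by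
    apply FractionalIdeal.coeIdeal_injective (R := 𝓞 F) (K := F)
    show ((Ideal.span {b} : Ideal (𝓞 F)) : FractionalIdeal (𝓞 F)⁰ F) = _
    rw [FractionalIdeal.coeIdeal_span_singleton, hb', h1]
  have h4 : Ideal.span {algebraMap (𝓞 F) (𝓞 F') b} = (I.map (algebraMap (𝓞 F) (𝓞 F'))) ^ 2 := by
    rw [← Ideal.map_pow, ← h3, Ideal.map_span, Set.image_singleton]
  have h5 : algebraMap (𝓞 F') F' (algebraMap (𝓞 F) (𝓞 F') b) =
      algebraMap F F' a * (algebraMap F F' (algebraMap (𝓞 F) F x)) ^ 2 := by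
    rw [← IsScalarTower.algebraMap_apply (𝓞 F) (𝓞 F') F', IsScalarTower.algebraMap_apply (𝓞 F) F F',
      hb', map_mul, map_pow]
  have hx' : algebraMap F F' (algebraMap (𝓞 F) F x) ≠ 0 := by rwa [Ne, map_eq_zero]
  refine ⟨FractionalIdeal.spanSingleton (𝓞 F')⁰ (algebraMap F F' (algebraMap (𝓞 F) F x))⁻¹ *
    ((I.map (algebraMap (𝓞 F) (𝓞 F')) : Ideal (𝓞 F')) : FractionalIdeal (𝓞 F')⁰ F'), ?_⟩
  rw [mul_pow, ← FractionalIdeal.coeIdeal_pow, ← h4, FractionalIdeal.coeIdeal_span_singleton, h5,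
    FractionalIdeal.spanSingleton_pow, FractionalIdeal.spanSingleton_mul_spanSingleton]
  congr 1
  field_simp

theorem dat_of_dat2 {k M : Type} [Field k] [NumberField k] [Field M] [NumberField M] [Algebra k M]
    {τ : M ≃ₐ[k] M} {F F' : Type} [Field F] [NumberField F] [Algebra k F] [Field F']
    [NumberField F'] [Algebra k F'] [Algebra M F'] [Algebra F F'] [IsScalarTower k M F']
    [IsScalarTower k F F'] {u : 𝓞 M} {t1 t2 : F'} {a : F} (h : Dat2 τ F F' u t1 t2 a) :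
    Dat F' u (tO τ u) t1 t2 (algebraMap F F' a) where
  deg := h.deg'
  gen := h.gen
  cub := h.cub
  prd := h.prd
  a0 := by
    rw [Ne, map_eq_zero]
    exact h.a0
  nsq := h.nsq'
  isq := isq_ext h.isq

/-- `τ` permutes the embeddings -/
theorem bd_tO {k M : Type} [Field k] [NumberField k] [Field M] [NumberField M] [Algebra k M]
    (τ : M ≃ₐ[k] M) {H : ℝ} {x : 𝓞 M} (h : Bd H x) : Bd H (tO τ x) := by
  intro φ
  exact h (φ.comp (τ : M →+* M))

end Pool.Agent.H12.WM
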