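import Pool.Agent.H12.WM.Alg
import Pool.Agent.H12.WM.D2

/-!
# W1 stage 2 (MP_b39724_nt), step 9': `EZeroAlg2Stmt`
-/

set_option autoImplicit false

open IsDedekindDomain
open scoped NumberField

namespace Pool.Agent.H12.WM

open H88.A4

theorem eZeroAlg2 (k M : Type) [Field k] [NumberField k] [Field M] [NumberField M] [Algebra k M] :
    EZeroAlg2Stmt k M := by
  intro τ hτ m m' hm hm' C hC
  refine ⟨6 * m * (6 * m') ^ 10, C, by positivity, hC, ?_⟩
  intro s hs u hA F F' _ _ _ _ _ _ _ _ _ _ t1 t2 a hD u' κ l β hκ hl hκb hlb h1 h2 hA' hRep hsq hEZ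
  obtain ⟨hE, ⟨hc1, hc2, hc3⟩, hD1, hb⟩ := hEZ
  have hinj : Function.Injective (tO (k := k) τ) := by
    intro x y h
    apply NumberField.RingOfIntegers.coe_injective
    apply τ.injective
    have h3 := congrArg (fun z : 𝓞 M => (z : M)) h
    exact h3
  have htm : ∀ x y : 𝓞 M, tO (k := k) τ (x * y) = tO τ x * tO τ y := by
    intro x y
    apply NumberField.RingOfIntegers.coe_injective
    exact map_mul τ (x : M) (y : M)
  have htn : ∀ x : 𝓞 M, tO (k := k) τ (-x) = -tO τ x := by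
    intro x
    apply NumberField.RingOfIntegers.coe_injective
    exact map_neg τ (x : M)
  have htsub : ∀ x y : 𝓞 M, tO (k := k) τ (x - y) = tO τ x - tO τ y := by
    intro x y
    apply NumberField.RingOfIntegers.coe_injective
    exact map_sub τ (x : M) (y : M)
  have hD3 : β.D3 = tO τ β.D1 := by
    unfold Blk.D3 Blk.D1
    rw [hc1, hc2, hc3, htsub, htm, pow_two, pow_two, htm]
  have hD30 : β.D3 ≠ 0 := by
    rw [hD3]
    intro h
    apply hD1
    apply hinj
    rw [h]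
    apply NumberField.RingOfIntegers.coe_injective
    exact (map_zero τ).symm
  have hb3 : Bd (C * s ^ 2) β.D3 := by
    rw [hD3]
    exact bd_tO τ hb
  obtain ⟨H, π, r, r', _, hπ, hS⟩ := hRep
  obtain ⟨p, q, e1, e2, e3, hPQ, hfin⟩ := eZeroAlg_aux M hm' hC (⟨hs, le_refl s⟩ : Rg C s s) hA
    (dat_of_dat2 hD) hA' ⟨H, π, r, r', hπ, hS⟩ hsq ⟨hE, hD1, hD30, hb, hb3⟩
  obtain ⟨hp0, hq0, hpb, hqb, hM, hn, hdec⟩ := hPQ
  refine ⟨p, q, ⟨hp0, ?_, hpb, hM, hn, hdec⟩, hfin⟩
  have h3 : q ^ 2 = (tO τ p) ^ 2 := by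
    have h4 : -q ^ 2 = tO τ (-p ^ 2) := by
      rw [← e3, ← e1]
      exact hD3
    rw [htn, pow_two p, htm] at h4
    linear_combination -h4
  exact sq_eq_sq_iff_eq_or_eq_neg.1 h3

end Pool.Agent.H12.WM
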