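import Pool.Agent.H12.WM.Unr

/-!
# [H12 WM All] W1, step 9.3: `η` in all primes above `l` implies `p, q ∈ l`

PROOF. `l` does not contain `3uv`. All `P` above `l` have ramification index 1 (`unram`), so `map l = ∏ P` and an element of all these `P` is in
`map l = Ideal.map (algebraMap (𝓞 K) (𝓞 F)) l.asIdeal` (`Ideal.dvd_iff_le`; for every prime `P` of `𝓞 F` the exponent of `P` in `map l` is 0 if `P` is not
above `l` and 1 otherwise: `IsDedekindDomain.HeightOneSpectrum` / `emultiplicity_map_eq_ramificationIdx'_mul`). `τ1, τ2 ∈ 𝓞 F` the elements `t1, t2`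
(integral: `t1³ = uv²`, `t2³ = u²v`). The trace `𝓞 F → 𝓞 K` (`Algebra.intTrace (𝓞 K) (𝓞 F)`) is `𝓞 K`-linear, so it maps `map l` into `l`
(`Submodule.smul_induction_on` / `Ideal.map = span`, an element of `map l` is `∑ yᵢ zᵢ`, `yᵢ ∈ l`). `Tr(η τ2) = 3 u v p`: `η t2 = p u v + q u t1`,
`Tr 1 = 3`, `Tr t1 = 0` (trace in the basis `1, t1, t2` of `dat_basis`: `t1·1 = t1`, `t1·t1 = v t2`, `t1·t2 = uv`, diagonal 0; `Algebra.trace_eq_matrix_trace`).
`η t1 = p v t2 + q u v`, `Tr = 3 u v q`. So `3uvp, 3uvq ∈ l` and `p, q ∈ l`.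
(`Algebra.algebraMap_intTrace` or similar relates `intTrace` and `trace`.)
-/

set_option autoImplicit false

open IsDedekindDomain
open scoped NumberField

namespace Pool.Agent.H12.WM

open H88.A4

private theorem map_sqf {K F : Type} [Field K] [NumberField K] [Field F] [NumberField F]
    [Algebra K F] {u v : 𝓞 K} {t1 t2 a : F} (h : Dat F u v t1 t2 a) (l : HeightOneSpectrum (𝓞 K))
    (hl : (3 * u * v : 𝓞 K) ∉ l.asIdeal) :
    Squarefree (l.asIdeal.map (algebraMap (𝓞 K) (𝓞 F))) := by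
  have hI : l.asIdeal.map (algebraMap (𝓞 K) (𝓞 F)) ≠ ⊥ := by
    rw [Ne, Ideal.map_eq_bot_iff_of_injective
      (FaithfulSMul.algebraMap_injective (𝓞 K) (𝓞 F))]
    exact l.ne_bot
  rw [squarefree_iff_irreducible_sq_not_dvd_of_ne_zero hI]
  intro P hP hdvd
  have hPp : Prime P := hP.prime
  have hPi : P.IsPrime := Ideal.isPrime_of_prime hPp
  have hle : l.asIdeal.map (algebraMap (𝓞 K) (𝓞 F)) ≤ P ^ 2 := by
    rw [pow_two]
    exact Ideal.le_of_dvd hdvd
  have hle1 : l.asIdeal.map (algebraMap (𝓞 K) (𝓞 F)) ≤ P :=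
    hle.trans (Ideal.pow_le_self two_ne_zero)
  have hlo : P.LiesOver l.asIdeal := by
    constructor
    have hlm : l.asIdeal.IsMaximal := l.isMaximal
    have hc : l.asIdeal ≤ P.comap (algebraMap (𝓞 K) (𝓞 F)) := Ideal.map_le_iff_le_comap.1 hle1
    have hcp : (P.comap (algebraMap (𝓞 K) (𝓞 F))).IsPrime := Ideal.comap_isPrime _ _
    exact hlm.eq_of_le hcp.ne_top hc
  have hun := @unram K F _ _ _ _ _ u v t1 t2 a h l hl
    ⟨P, hPi, fun hb => hPp.ne_zero hb⟩ hlo
  exact ((Ideal.ramificationIdx'_ne_one_iff hle1).2 hle) hun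

private theorem mem_rad {R : Type} [CommRing R] {I : Ideal R} {x : R}
    (h : ∀ P : Ideal R, P.IsPrime → I ≤ P → x ∈ P) : x ∈ I.radical := by
  rw [Ideal.radical_eq_sInf, Ideal.mem_sInf]
  intro P hP
  exact h P hP.2 hP.1

private theorem mem_map {K F : Type} [Field K] [NumberField K] [Field F] [NumberField F]
    [Algebra K F] {u v : 𝓞 K} {t1 t2 a : F} (h : Dat F u v t1 t2 a) (l : HeightOneSpectrum (𝓞 K))
    (hl : (3 * u * v : 𝓞 K) ∉ l.asIdeal) {η : 𝓞 F}
    (hall : ∀ P : HeightOneSpectrum (𝓞 F), P.asIdeal.LiesOver l.asIdeal → η ∈ P.asIdeal) :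
    η ∈ l.asIdeal.map (algebraMap (𝓞 K) (𝓞 F)) := by
  have hI : l.asIdeal.map (algebraMap (𝓞 K) (𝓞 F)) ≠ ⊥ := by
    rw [Ne, Ideal.map_eq_bot_iff_of_injective
      (FaithfulSMul.algebraMap_injective (𝓞 K) (𝓞 F))]
    exact l.ne_bot
  have hrad : η ∈ (l.asIdeal.map (algebraMap (𝓞 K) (𝓞 F))).radical := by
    refine mem_rad ?_
    intro P hP2 hP1
    have hPb : P ≠ ⊥ := by
      rintro rfl
      exact hI (le_bot_iff.1 hP1)
    refine hall ⟨P, hP2, hPb⟩ ?_
    constructor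
    have hlm : l.asIdeal.IsMaximal := l.isMaximal
    have hc : l.asIdeal ≤ P.comap (algebraMap (𝓞 K) (𝓞 F)) := Ideal.map_le_iff_le_comap.1 hP1
    have hcp : (P.comap (algebraMap (𝓞 K) (𝓞 F))).IsPrime := Ideal.comap_isPrime _ _
    exact hlm.eq_of_le hcp.ne_top hc
  obtain ⟨n, hn⟩ := hrad
  have hn1 : η ^ (n + 1) ∈ l.asIdeal.map (algebraMap (𝓞 K) (𝓞 F)) := by
    rw [pow_succ]
    exact Ideal.mul_mem_right _ _ hn
  rw [← Ideal.dvd_span_singleton, ← Ideal.span_singleton_pow] at hn1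
  rw [← Ideal.dvd_span_singleton]
  exact ((map_sqf h l hl).dvd_pow_iff_dvd (Nat.succ_ne_zero n)).1 hn1

private theorem tr_mem {K F : Type} [Field K] [NumberField K] [Field F] [NumberField F]
    [Algebra K F] (I : Ideal (𝓞 K)) {x : 𝓞 F} (hx : x ∈ I.map (algebraMap (𝓞 K) (𝓞 F))) (y : 𝓞 F) :
    Algebra.intTrace (𝓞 K) (𝓞 F) (y * x) ∈ I := by
  revert y
  unfold Ideal.map at hx
  refine Submodule.span_induction (p := fun x _ => ∀ y : 𝓞 F,
    Algebra.intTrace (𝓞 K) (𝓞 F) (y * x) ∈ I) ?_ ?_ ?_ ?_ hx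
  · rintro _ ⟨a, ha, rfl⟩ y
    have h1 : y * (algebraMap (𝓞 K) (𝓞 F)) a = a • y := by
      rw [Algebra.smul_def, mul_comm]
    have h2 : y * ((algebraMap (𝓞 K) (𝓞 F) : 𝓞 K →+* 𝓞 F)) a = a • y := h1
    change Algebra.intTrace (𝓞 K) (𝓞 F) (y * ((algebraMap (𝓞 K) (𝓞 F) : 𝓞 K →+* 𝓞 F)) a) ∈ I
    rw [h2, map_smul, smul_eq_mul]
    exact Ideal.mul_mem_right _ _ ha
  · intro y
    rw [mul_zero, map_zero]
    exact I.zero_mem
  · intro a b _ _ ha hb y
    rw [mul_add, map_add]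
    exact I.add_mem (ha y) (hb y)
  · intro z a _ ha y
    rw [smul_eq_mul, ← mul_assoc]
    exact ha (y * z)

private theorem tr_vals {K F : Type} [Field K] [NumberField K] [Field F] [NumberField F]
    [Algebra K F] {u v : 𝓞 K} {t1 t2 a : F} (h : Dat F u v t1 t2 a) (hu : u ≠ 0) (hv : v ≠ 0) :
    Algebra.trace K F t1 = 0 ∧ Algebra.trace K F t2 = 0 := by
  obtain ⟨B, h0, h1, h2⟩ := dat_basis h hu hv
  obtain ⟨r1, r2⟩ := dat_rel h hu hv
  have r3 := h.prd
  have e11 : t1 * t1 = (v : K) • B 2 := by rw [h2, Algebra.smul_def, ← r1, pow_two]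
  have e12 : t1 * t2 = ((u : K) * (v : K)) • B 0 := by rw [h0, Algebra.smul_def, mul_one, r3]
  have e21 : t2 * t1 = ((u : K) * (v : K)) • B 0 := by rw [mul_comm, e12]
  have e22 : t2 * t2 = (u : K) • B 1 := by rw [h1, Algebra.smul_def, ← r2, pow_two]
  constructor
  · rw [Algebra.trace_eq_matrix_trace B, Matrix.trace, Fin.sum_univ_three]
    simp only [Matrix.diag_apply, Algebra.leftMulMatrix_eq_repr_mul]
    have a0 : t1 * B 0 = B 1 := by rw [h0, h1, mul_one]
    have a1 : t1 * B 1 = (v : K) • B 2 := by rw [h1, e11]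
    have a2 : t1 * B 2 = ((u : K) * (v : K)) • B 0 := by rw [h2, e12]
    rw [a0, a1, a2, map_smul, map_smul, Module.Basis.repr_self, Module.Basis.repr_self,
      Module.Basis.repr_self]
    simp only [Finsupp.smul_apply, Finsupp.single_apply]
    simp
  · rw [Algebra.trace_eq_matrix_trace B, Matrix.trace, Fin.sum_univ_three]
    simp only [Matrix.diag_apply, Algebra.leftMulMatrix_eq_repr_mul]
    have a0 : t2 * B 0 = B 2 := by rw [h0, h2, mul_one]
    have a1 : t2 * B 1 = ((u : K) * (v : K)) • B 0 := by rw [h1, e21]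
    have a2 : t2 * B 2 = (u : K) • B 1 := by rw [h2, e22]
    rw [a0, a1, a2, map_smul, map_smul, Module.Basis.repr_self, Module.Basis.repr_self,
      Module.Basis.repr_self]
    simp only [Finsupp.smul_apply, Finsupp.single_apply]
    simp

private theorem tr_lin {K F : Type} [Field K] [NumberField K] [Field F] [NumberField F]
    [Algebra K F] (hdeg : Module.finrank K F = 3) {t : F} (ht : Algebra.trace K F t = 0)
    (c e : K) : Algebra.trace K F (algebraMap K F c + algebraMap K F e * t) = 3 * c := by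
  rw [map_add, Algebra.trace_algebraMap, hdeg, ← Algebra.smul_def, map_smul, ht, smul_zero,
    add_zero, nsmul_eq_mul]
  norm_num

theorem eta_all {K F : Type} [Field K] [NumberField K] [Field F] [NumberField F] [Algebra K F]
    {u v : 𝓞 K} {t1 t2 a : F} (h : Dat F u v t1 t2 a) (l : HeightOneSpectrum (𝓞 K))
    (hl : (3 * u * v : 𝓞 K) ∉ l.asIdeal) {p q : 𝓞 K} {η : 𝓞 F}
    (hη : (η : F) = algebraMap K F (p : K) * t1 + algebraMap K F (q : K) * t2)
    (hall : ∀ P : HeightOneSpectrum (𝓞 F), P.asIdeal.LiesOver l.asIdeal → η ∈ P.asIdeal) :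
    p ∈ l.asIdeal ∧ q ∈ l.asIdeal := by
  have hu : u ≠ 0 := by
    rintro rfl
    apply hl
    simp
  have hv : v ≠ 0 := by
    rintro rfl
    apply hl
    simp
  obtain ⟨r1, r2⟩ := dat_rel h hu hv
  have r3 : t1 * t2 = algebraMap K F ((u : K) * (v : K)) := h.prd
  obtain ⟨z1, z2⟩ := tr_vals h hu hv
  have hmem := mem_map h l hl hall
  have i1 : IsIntegral ℤ t1 := by
    refine IsIntegral.of_pow (n := 3) (by norm_num) ?_
    rw [h.cub]
    have : ((algebraMap (𝓞 K) (𝓞 F) (u * v ^ 2) : 𝓞 F) : F) =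
        algebraMap K F ((u : K) * (v : K) ^ 2) := by
      have h1 : ((algebraMap (𝓞 K) (𝓞 F) (u * v ^ 2) : 𝓞 F) : F) =
        algebraMap K F (((u * v ^ 2 : 𝓞 K)) : K) := rfl
      rw [h1]
      simp
    rw [← this]
    exact NumberField.RingOfIntegers.isIntegral_coe _
  have i2 : IsIntegral ℤ t2 := by
    refine IsIntegral.of_pow (n := 2) (by norm_num) ?_
    rw [r2]
    refine IsIntegral.mul ?_ i1
    have : ((algebraMap (𝓞 K) (𝓞 F) u : 𝓞 F) : F) = algebraMap K F (u : K) := rfl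
    rw [← this]
    exact NumberField.RingOfIntegers.isIntegral_coe _
  have key : ∀ (τ : 𝓞 F) (c : 𝓞 K), Algebra.trace K F ((τ : F) * (η : F)) = 3 * (c : K) →
      3 * c ∈ l.asIdeal := by
    intro τ c hc
    have h1 := tr_mem l.asIdeal hmem τ
    have h2 : Algebra.intTrace (𝓞 K) (𝓞 F) (τ * η) = 3 * c := by
      apply NumberField.RingOfIntegers.ext
      have h3 : ((Algebra.intTrace (𝓞 K) (𝓞 F) (τ * η) : 𝓞 K) : K) =
          Algebra.trace K F (((τ * η : 𝓞 F)) : F) :=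
        Algebra.algebraMap_intTrace (A := 𝓞 K) (K := K) (L := F) (B := 𝓞 F) (τ * η)
      rw [h3]
      have h4 : ((τ * η : 𝓞 F) : F) = (τ : F) * (η : F) := by simp
      rw [h4, hc]
      have h5 : ((3 * c : 𝓞 K) : K) = algebraMap (𝓞 K) K 3 * (c : K) := map_mul _ _ _
      rw [h5, map_ofNat]
    rwa [h2] at h1
  obtain ⟨τ1, hτ1⟩ : ∃ τ : 𝓞 F, (τ : F) = t1 := ⟨⟨t1, i1⟩, rfl⟩
  obtain ⟨τ2, hτ2⟩ : ∃ τ : 𝓞 F, (τ : F) = t2 := ⟨⟨t2, i2⟩, rfl⟩
  have hp3 : 3 * (u * v * p) ∈ l.asIdeal := by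
    refine key τ2 (u * v * p) ?_
    have e1 : (τ2 : F) * (η : F) =
        algebraMap K F (((u * v * p : 𝓞 K)) : K) + algebraMap K F ((u : K) * (q : K)) * t1 := by
      rw [hη, hτ2]
      simp only [map_mul] at r3 ⊢
      linear_combination algebraMap K F (p : K) * r3 + algebraMap K F (q : K) * r2
    rw [e1, tr_lin h.deg z1]
  have hq3 : 3 * (u * v * q) ∈ l.asIdeal := by
    refine key τ1 (u * v * q) ?_
    have e1 : (τ1 : F) * (η : F) =
        algebraMap K F (((u * v * q : 𝓞 K)) : K) + algebraMap K F ((v : K) * (p : K)) * t2 := by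
      rw [hη, hτ1]
      simp only [map_mul] at r3 ⊢
      linear_combination algebraMap K F (q : K) * r3 + algebraMap K F (p : K) * r1
    rw [e1, tr_lin h.deg z2]
  have hpr := l.isPrime
  constructor
  · have : (3 * u * v) * p ∈ l.asIdeal := by
      have e : (3 * u * v) * p = 3 * (u * v * p) := by ring
      rw [e]
      exact hp3
    exact (hpr.mem_or_mem this).resolve_left hl
  · have : (3 * u * v) * q ∈ l.asIdeal := by
      have e : (3 * u * v) * q = 3 * (u * v * q) := by ring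
      rw [e]
      exact hq3
    exact (hpr.mem_or_mem this).resolve_left hl

end Pool.Agent.H12.WM
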