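import Pool.Agent.H88.A4.Iface2
import Pool.Agent.H12.WM.Dec
import Pool.Agent.H12.WM.Tau

/-!
# [H12 WM Desc] W1 stage 2, step 9': the squarefree part of `n` over `k`

STATEMENT. `M / k` quadratic, `δ ∈ 𝓞 M`, `δ ≠ 0`, `τ(δ) = -δ`. There is `D ≠ 0` such that for `e ∈ {1, δ}` and `n ∈ 𝓞 M`, `n ≠ 0`, with `e n = n1 ∈ 𝓞 k`,
`q = ± τ(p)`, `P = p τ(p) ∈ 𝓞 k` and `(n) = b0 g1 g2 I²` in `𝓞 M`, `b0 ∣ (m)`, `p ∈ g1`, `q ∈ g2`, one has `(n1) = b0' g1' g2' I'²` in `𝓞 k` with `b0' ∣ (D)`, `P ∈ g1'`, `P ∈ g2'`.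

PROOF. `D = 2 m N`, `N = absNorm (δ)`. By `decomp` (over `𝓞 k`, with `D, P, P`) it is enough: `l` a prime of `𝓞 k` with odd exponent in `n1` and `D ∉ l` implies `P ∈ l`.
Choose a prime `L` of `𝓞 M` above `l` (`Ideal.exists_ideal_liesOver_maximal_of_isIntegral` or `(Ideal.primesOver ..).Nonempty`). `2, m, δ ∉ L` (`N ∈ (δ)` by
`Ideal.absNorm_mem`, so `δ ∈ L` would give `N ∈ L ∩ 𝓞 k = l`). `L` is unramified over `l`: `M = k(δ)` (`δ ∉ k`, `[M:k] = 2`), the minimal polynomial of `δ` over `𝓞 k` is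
`X² - δ²` (`δ² = -δ τ(δ)` is fixed by `τ`), so `2δ` is in the different (`aeval_derivative_mem_differentIdeal`), and `L² ∣ map l` would give `L ∣` different
(`pow_sub_one_dvd_differentIdeal`), so `2δ ∈ L`. See the proof of `unram` in Pool/Agent/H12/WM/Unr.lean, which is the same argument. So
`ramificationIdx' l L = 1` and the exponent of `L` in `(n1) = (e)(n)` is the exponent of `l` in `n1`, odd; `e ∉ L`, so the exponent of `L` in `(n)` is odd. As `(n) = b0 g1 g2 I²`,
`L` divides `b0`, `g1` or `g2`, so `m ∈ L` or `p ∈ L` or `q ∈ L`; `m ∉ L`, so `p q ∈ L`, `P = ± p q ∈ L ∩ 𝓞 k = l`.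
-/

set_option autoImplicit false

open IsDedekindDomain
open scoped NumberField

namespace Pool.Agent.H12.WM

open H88.A4

private theorem mult_mulI {R : Type} [CommRing R] [IsDedekindDomain R] (P : HeightOneSpectrum R)
    {A B : Ideal R} (hA : A ≠ ⊥) (hB : B ≠ ⊥) :
    multiplicity P.asIdeal (A * B) = multiplicity P.asIdeal A + multiplicity P.asIdeal B := by
  refine multiplicity_mul P.prime (FiniteMultiplicity.of_prime_left P.prime ?_)
  exact mul_ne_zero hA hB

private theorem mult_mul {R : Type} [CommRing R] [IsDedekindDomain R] (P : HeightOneSpectrum R)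
    {x y : R} (hx : x ≠ 0) (hy : y ≠ 0) :
    multiplicity P.asIdeal (Ideal.span {x * y}) =
      multiplicity P.asIdeal (Ideal.span {x}) + multiplicity P.asIdeal (Ideal.span {y}) := by
  have hx' : Ideal.span {x} ≠ (⊥ : Ideal R) := by simpa using hx
  have hy' : Ideal.span {y} ≠ (⊥ : Ideal R) := by simpa using hy
  rw [← Ideal.span_singleton_mul_span_singleton]
  exact mult_mulI P hx' hy'

private theorem mult_zero {R : Type} [CommRing R] [IsDedekindDomain R] (P : HeightOneSpectrum R)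
    {x : R} (hx : x ∉ P.asIdeal) : multiplicity P.asIdeal (Ideal.span {x}) = 0 := by
  apply multiplicity_eq_zero.2
  rwa [Ideal.dvd_span_singleton]

private theorem mult_map {R S : Type} [CommRing R] [IsDedekindDomain R] [CommRing S]
    [IsDedekindDomain S] [Algebra R S] [FaithfulSMul R S] (l : HeightOneSpectrum R)
    (P : HeightOneSpectrum S) [P.asIdeal.LiesOver l.asIdeal] {x : R} (hx : x ≠ 0)
    (he : l.asIdeal.ramificationIdx' P.asIdeal = 1) :
    multiplicity P.asIdeal (Ideal.span {algebraMap R S x}) =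
      multiplicity l.asIdeal (Ideal.span {x}) := by
  have hx' : Ideal.span {x} ≠ (⊥ : Ideal R) := by simpa using hx
  refine multiplicity_eq_of_emultiplicity_eq_some ?_
  rw [← Set.image_singleton, ← Ideal.map_span,
    Ideal.IsDedekindDomain.emultiplicity_map_eq_ramificationIdx'_mul hx' l.irreducible P.irreducible
      P.ne_bot, he,
    (FiniteMultiplicity.of_prime_left l.prime hx').emultiplicity_eq_multiplicity]
  simp

private theorem gen_delta {k M : Type} [Field k] [NumberField k] [Field M] [NumberField M]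
    [Algebra k M] {τ : M ≃ₐ[k] M} (hτ : Invo k M τ) {δ : 𝓞 M} (hδ : δ ≠ 0)
    (hδτ : tO τ δ = -δ) : IntermediateField.adjoin k {(δ : M)} = ⊤ := by
  have hpr : Nat.Prime (Module.finrank k M) := by rw [hτ.deg]; norm_num
  have _ := IntermediateField.isSimpleOrder_of_finrank_prime k M hpr
  rcases eq_bot_or_eq_top (IntermediateField.adjoin k {(δ : M)}) with h | h
  · exfalso
    have h1 : (δ : M) ∈ (⊥ : IntermediateField k M) := by
      rw [← h]
      exact IntermediateField.mem_adjoin_simple_self k _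
    rw [IntermediateField.mem_bot] at h1
    have h2 : τ (δ : M) = (δ : M) := (hτ.fix _).2 h1
    have h3 : τ (δ : M) = -(δ : M) := congrArg (fun z : 𝓞 M => (z : M)) hδτ
    have h4 : (2 : M) * (δ : M) = 0 := by linear_combination h3 - h2
    have h5 : (δ : M) = 0 := by
      rcases mul_eq_zero.1 h4 with h6 | h6
      · exact absurd h6 two_ne_zero
      · exact h6
    apply hδ
    apply NumberField.RingOfIntegers.coe_injective
    rw [map_zero]
    exact h5
  · exact h

private theorem minpoly_delta {k M : Type} [Field k] [NumberField k] [Field M] [NumberField M]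
    [Algebra k M] {τ : M ≃ₐ[k] M} (hτ : Invo k M τ) {δ : 𝓞 M} (hδ : δ ≠ 0)
    (hδτ : tO τ δ = -δ) {d : 𝓞 k} (hd : algebraMap (𝓞 k) (𝓞 M) d = δ ^ 2) :
    minpoly (𝓞 k) δ = Polynomial.X ^ 2 - Polynomial.C d := by
  have hint : IsIntegral (𝓞 k) δ := Algebra.IsIntegral.isIntegral δ
  have hroot : Polynomial.aeval δ (Polynomial.X ^ 2 - Polynomial.C d : Polynomial (𝓞 k)) = 0 := by
    simp only [map_sub, map_pow, Polynomial.aeval_X, Polynomial.aeval_C]
    rw [hd, sub_self]
  have hmonic : (Polynomial.X ^ 2 - Polynomial.C d : Polynomial (𝓞 k)).Monic :=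
    Polynomial.monic_X_pow_sub_C _ (by norm_num)
  have hnd : (Polynomial.X ^ 2 - Polynomial.C d : Polynomial (𝓞 k)).natDegree = 2 :=
    Polynomial.natDegree_X_pow_sub_C
  have hdvd := minpoly.isIntegrallyClosed_dvd hint hroot
  have hdeg : (minpoly (𝓞 k) δ).natDegree = 2 := by
    have h2 := minpoly.isIntegrallyClosed_eq_field_fractions k M hint
    have h3 : (minpoly k (algebraMap (𝓞 M) M δ)).natDegree = 2 := by
      rw [← IntermediateField.adjoin.finrank (Algebra.IsIntegral.isIntegral (δ : M)),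
        gen_delta hτ hδ hδτ, IntermediateField.finrank_top']
      exact hτ.deg
    rw [h2, (minpoly.monic hint).natDegree_map] at h3
    exact h3
  exact (Polynomial.eq_of_monic_of_dvd_of_natDegree_le (minpoly.monic hint) hmonic hdvd
    (by rw [hdeg, hnd])).symm

private theorem unram_delta {k M : Type} [Field k] [NumberField k] [Field M] [NumberField M]
    [Algebra k M] {τ : M ≃ₐ[k] M} (hτ : Invo k M τ) {δ : 𝓞 M} (hδ : δ ≠ 0)
    (hδτ : tO τ δ = -δ) (l : HeightOneSpectrum (𝓞 k)) (P : HeightOneSpectrum (𝓞 M))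
    [P.asIdeal.LiesOver l.asIdeal] (h2δ : 2 * δ ∉ P.asIdeal) :
    l.asIdeal.ramificationIdx' P.asIdeal = 1 := by
  obtain ⟨d, hd⟩ : ∃ d : 𝓞 k, algebraMap (𝓞 k) (𝓞 M) d = δ ^ 2 := by
    apply fixed_int hτ
    rw [tO_pow, hδτ]
    ring
  have hmin := minpoly_delta hτ hδ hδτ hd
  have hne : l.asIdeal.ramificationIdx' P.asIdeal ≠ 0 :=
    Ideal.IsDedekindDomain.ramificationIdx'_ne_zero_of_liesOver P.asIdeal l.ne_bot
  by_contra hcon
  have h2 : 2 ≤ l.asIdeal.ramificationIdx' P.asIdeal := by omega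
  have hle : l.asIdeal.map (algebraMap (𝓞 k) (𝓞 M)) ≤ P.asIdeal ^ 2 :=
    Ideal.le_pow_of_le_ramificationIdx' h2
  have hdf := pow_sub_one_dvd_differentIdeal (A := 𝓞 k) (B := 𝓞 M) (p := l.asIdeal) P.asIdeal 2
    l.ne_bot (Ideal.dvd_iff_le.2 hle)
  rw [show 2 - 1 = 1 from rfl, pow_one, Ideal.dvd_iff_le] at hdf
  have hmem : Polynomial.aeval δ (Polynomial.derivative (minpoly (𝓞 k) δ)) ∈
      differentIdeal (𝓞 k) (𝓞 M) := by
    refine aeval_derivative_mem_differentIdeal (𝓞 k) k M δ ?_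
    have h5 := congrArg IntermediateField.toSubalgebra (gen_delta hτ hδ hδτ)
    rw [IntermediateField.adjoin_simple_toSubalgebra_of_isAlgebraic
      (Algebra.IsAlgebraic.isAlgebraic (δ : M))] at h5
    rw [show algebraMap (𝓞 M) M δ = (δ : M) from rfl, h5]
    rfl
  have h6 := hdf hmem
  have hder : Polynomial.aeval δ (Polynomial.derivative
      (Polynomial.X ^ 2 - Polynomial.C d : Polynomial (𝓞 k))) = 2 * δ := by
    rw [Polynomial.derivative_sub, Polynomial.derivative_C, sub_zero, Polynomial.derivative_X_pow]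
    simp only [map_mul, map_pow, Polynomial.aeval_X, Polynomial.aeval_C]
    norm_num
    exact Or.inl (map_ofNat (algebraMap (𝓞 k) (𝓞 M)) 2)
  rw [hmin, hder] at h6
  exact h2δ h6

theorem desc_n {k M : Type} [Field k] [NumberField k] [Field M] [NumberField M] [Algebra k M]
    {τ : M ≃ₐ[k] M} (hτ : Invo k M τ) {δ : 𝓞 M} (hδ : δ ≠ 0) (hδτ : tO τ δ = -δ) (m : ℕ)
    (hm : m ≠ 0) :
    ∃ D : ℕ, D ≠ 0 ∧ ∀ e : 𝓞 M, (e = 1 ∨ e = δ) → ∀ (p q n : 𝓞 M) (n1 P : 𝓞 k), n ≠ 0 →
      (q = tO τ p ∨ q = -tO τ p) → algebraMap (𝓞 k) (𝓞 M) P = p * tO τ p →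
      algebraMap (𝓞 k) (𝓞 M) n1 = e * n →
      (∃ b0 g1 g2 I : Ideal (𝓞 M), Ideal.span {n} = b0 * g1 * g2 * I ^ 2 ∧
        b0 ∣ Ideal.span {(m : 𝓞 M)} ∧ p ∈ g1 ∧ q ∈ g2) →
      ∃ b0 g1 g2 I : Ideal (𝓞 k), Ideal.span {n1} = b0 * g1 * g2 * I ^ 2 ∧
        b0 ∣ Ideal.span {(D : 𝓞 k)} ∧ P ∈ g1 ∧ P ∈ g2 := by
  set N : ℕ := Ideal.absNorm (Ideal.span {δ}) with hN
  have hN0 : N ≠ 0 := by
    rw [hN, Ne, Ideal.absNorm_eq_zero_iff, Ideal.span_singleton_eq_bot]
    exact hδ
  refine ⟨2 * m * N, mul_ne_zero (mul_ne_zero two_ne_zero hm) hN0, ?_⟩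
  intro e he p q n n1 P hn hq hP hn1 hdec
  obtain ⟨b0, g1, g2, I, hspan, hb0, hp1, hq2⟩ := hdec
  have he0 : e ≠ 0 := by
    rcases he with rfl | rfl
    · exact one_ne_zero
    · exact hδ
  have hn10 : n1 ≠ 0 := by
    rintro rfl
    rw [map_zero] at hn1
    exact mul_ne_zero he0 hn hn1.symm
  refine decomp (by simpa using hn10) ?_
  intro l hodd
  by_contra hcon
  push Not at hcon
  obtain ⟨hD, hPl, -⟩ := hcon
  obtain ⟨Q, hQmax, hQl⟩ :=
    Ideal.exists_maximal_ideal_liesOver_of_isIntegral l.asIdeal (S := 𝓞 M)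
  have hQ0 : Q ≠ ⊥ := Ideal.ne_bot_of_liesOver_of_ne_bot l.ne_bot Q
  let L : HeightOneSpectrum (𝓞 M) := ⟨Q, hQmax.isPrime, hQ0⟩
  have hL : L.asIdeal.LiesOver l.asIdeal := hQl
  have hover : l.asIdeal = L.asIdeal.comap (algebraMap (𝓞 k) (𝓞 M)) :=
    L.asIdeal.over_def l.asIdeal
  have key : ∀ x : 𝓞 k, algebraMap (𝓞 k) (𝓞 M) x ∈ L.asIdeal → x ∈ l.asIdeal := by
    intro x hx
    rw [hover]
    exact hx
  have hPr := L.isPrime
  have hDL : ((2 * m * N : ℕ) : 𝓞 M) ∉ L.asIdeal := by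
    intro h
    apply hD
    apply key
    rw [map_natCast]
    exact h
  have hδL : δ ∉ L.asIdeal := by
    intro h
    apply hDL
    push_cast
    exact L.asIdeal.mul_mem_left _
      ((Ideal.span_singleton_le_iff_mem _).2 h (Ideal.absNorm_mem _))
  have h2L : (2 : 𝓞 M) ∉ L.asIdeal := by
    intro h
    apply hDL
    push_cast
    exact L.asIdeal.mul_mem_right _ (L.asIdeal.mul_mem_right _ h)
  have hmL : (m : 𝓞 M) ∉ L.asIdeal := by
    intro h
    apply hDL
    push_cast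
    exact L.asIdeal.mul_mem_right _ (L.asIdeal.mul_mem_left _ h)
  have h2δ : 2 * δ ∉ L.asIdeal := by
    intro h
    rcases hPr.mem_or_mem h with h1 | h1
    · exact h2L h1
    · exact hδL h1
  have hram := unram_delta hτ hδ hδτ l L h2δ
  have heL : e ∉ L.asIdeal := by
    rcases he with rfl | rfl
    · exact fun h => hPr.ne_top ((Ideal.eq_top_iff_one _).2 h)
    · exact hδL
  have hm1 := mult_map l L hn10 hram
  rw [hn1, mult_mul L he0 hn, mult_zero L heL, zero_add, hspan] at hm1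
  have hs0 : b0 * g1 * g2 * I ^ 2 ≠ ⊥ := by
    rw [← hspan]
    simpa using hn
  have hI2 : I ^ 2 ≠ ⊥ := right_ne_zero_of_mul hs0
  have hI : I ≠ ⊥ := by
    rintro rfl
    apply hI2
    rw [← Ideal.zero_eq_bot, zero_pow two_ne_zero]
  have h123 : b0 * g1 * g2 ≠ ⊥ := left_ne_zero_of_mul hs0
  have h12 : b0 * g1 ≠ ⊥ := left_ne_zero_of_mul h123
  have hb00 : b0 ≠ ⊥ := left_ne_zero_of_mul h12
  have hg1 : g1 ≠ ⊥ := right_ne_zero_of_mul h12
  have hg2 : g2 ≠ ⊥ := right_ne_zero_of_mul h123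
  rw [pow_two, mult_mulI L h123 (mul_ne_zero hI hI), mult_mulI L h12 hg2, mult_mulI L hb00 hg1,
    mult_mulI L hI hI] at hm1
  have hpn : p ∉ L.asIdeal := by
    intro h
    apply hPl
    apply key
    rw [hP]
    exact L.asIdeal.mul_mem_right _ h
  have hqn : q ∉ L.asIdeal := by
    intro h
    apply hPl
    apply key
    rw [hP]
    refine L.asIdeal.mul_mem_left _ ?_
    rcases hq with h1 | h1
    · rw [← h1]
      exact h
    · rw [h1] at h
      exact (neg_mem_iff).1 h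
  have z0 : multiplicity L.asIdeal b0 = 0 := by
    apply multiplicity_eq_zero.2
    intro h
    apply hmL
    rw [← Ideal.dvd_span_singleton]
    exact h.trans hb0
  have z1 : multiplicity L.asIdeal g1 = 0 := by
    apply multiplicity_eq_zero.2
    intro h
    exact hpn (Ideal.dvd_iff_le.1 h hp1)
  have z2 : multiplicity L.asIdeal g2 = 0 := by
    apply multiplicity_eq_zero.2
    intro h
    exact hqn (Ideal.dvd_iff_le.1 h hq2)
  rw [z0, z1, z2] at hm1
  rw [← hm1] at hodd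
  rcases hodd with ⟨c, hc⟩
  omega

end Pool.Agent.H12.WM
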