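import Pool.Agent.H12.WM.NcG
import Pool.Agent.H12.WM.Desc
import Pool.Agent.H12.WM.Tau

/-!
# W1 stage 2 (MP_b39724_nt), step 9': number of `n` for given `(p, q)`
-/

set_option autoImplicit false

open scoped NumberField

namespace Pool.Agent.H12.WM

open H88.A4

theorem bd_mul {K : Type} [Field K] [NumberField K] {A B : ℝ} (hA : 0 ≤ A) {x y : 𝓞 K}
    (hx : Bd A x) (hy : Bd B y) : Bd (A * B) (x * y) := by
  intro φ
  have h1 : φ ((x * y : 𝓞 K) : K) = φ (x : K) * φ (y : K) := by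
    rw [← map_mul]
    rfl
  rw [h1, norm_mul]
  exact mul_le_mul (hx φ) (hy φ) (norm_nonneg _) hA

theorem bd_mono {K : Type} [Field K] [NumberField K] {A B : ℝ} (h : A ≤ B) {x : 𝓞 K}
    (hx : Bd A x) : Bd B x := fun φ => (hx φ).trans h

theorem exists_bd {K : Type} [Field K] [NumberField K] (x : 𝓞 K) : ∃ A : ℝ, 1 ≤ A ∧ Bd A x := by
  classical
  refine ⟨1 + ∑ φ : K →+* ℂ, ‖φ (x : K)‖, ?_, ?_⟩
  · have : 0 ≤ ∑ φ : K →+* ℂ, ‖φ (x : K)‖ := Finset.sum_nonneg fun _ _ => norm_nonneg _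
    linarith
  · intro φ
    have h1 : ‖φ (x : K)‖ ≤ ∑ φ : K →+* ℂ, ‖φ (x : K)‖ :=
      Finset.single_le_sum (f := fun φ : K →+* ℂ => ‖φ (x : K)‖)
        (fun _ _ => norm_nonneg _) (Finset.mem_univ φ)
    linarith

theorem n_card2 (k M : Type) [Field k] [NumberField k] [Field M] [NumberField M] [Algebra k M]
    (τ : M ≃ₐ[k] M) (hτ : Invo k M τ) (m : ℕ) (hm : m ≠ 0) (C : ℝ) (hC : 1 ≤ C) (ε : ℝ)
    (hε : 0 < ε) :
    ∃ C' : ℝ, 0 < C' ∧ ∀ s : ℝ, 1 ≤ C * s → ∀ p q : 𝓞 M, p ≠ 0 → (q = tO τ p ∨ q = -tO τ p) →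
      Bd (C * s) p → ∀ S : Finset (𝓞 M), (∀ n ∈ S, n ≠ 0 ∧ Bd (2 * C ^ 4 * s ^ 6) n ∧
        (∃ u : 𝓞 M, n = tO τ u * p ^ 3 + u * q ^ 3) ∧ ∃ b0 g1 g2 I : Ideal (𝓞 M),
        Ideal.span {n} = b0 * g1 * g2 * I ^ 2 ∧ b0 ∣ Ideal.span {(m : 𝓞 M)} ∧ p ∈ g1 ∧ q ∈ g2) →
      (S.card : ℝ) ≤ C' * s ^ (3 * (Module.finrank ℚ k : ℝ) + ε) := by
  classical
  obtain ⟨δ, hδ, hδτ⟩ := exists_delta hτ
  obtain ⟨D, hD, hdesc⟩ := desc_n hτ hδ hδτ m hm
  obtain ⟨A, hA1, hA⟩ := exists_bd δ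
  obtain ⟨C1, hC1, hcard⟩ := n_card_gen k D hD (ε / 8) (by positivity)
  have hC0 : 0 < C := by linarith
  have hA0 : 0 < A := by linarith
  set d : ℝ := (Module.finrank ℚ k : ℝ) with hd
  refine ⟨C1 * (C ^ 2 * (2 * A * C ^ 6)) ^ (ε / 8) * (2 * A * C ^ 6) ^ (1 / 2 * d),
    by positivity, ?_⟩
  intro s hs p q hp hq hpb S hS
  have hs0 : 0 < s := by
    by_contra h
    push Not at h
    nlinarith
  -- the multiplier
  obtain ⟨e, he, hef, hen⟩ : ∃ e : 𝓞 M, (e = 1 ∨ e = δ) ∧ Bd A e ∧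
      ∀ n ∈ S, tO τ (e * n) = e * n := by
    rcases hq with hq | hq
    · refine ⟨1, Or.inl rfl, ?_, ?_⟩
      · intro φ
        have : ((1 : 𝓞 M) : M) = 1 := rfl
        rw [this, map_one, norm_one]
        exact hA1
      · intro n hn
        obtain ⟨_, _, ⟨u, hu⟩, _⟩ := hS n hn
        rw [one_mul, hu, hq, tO_add, tO_mul, tO_mul, tO_pow, tO_pow, tO_tO hτ, tO_tO hτ]
        ring
    · refine ⟨δ, Or.inr rfl, hA, ?_⟩
      intro n hn
      obtain ⟨_, _, ⟨u, hu⟩, _⟩ := hS n hn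
      rw [hu, hq, tO_mul, hδτ, tO_add, tO_mul, tO_mul, tO_pow, tO_pow, tO_neg, tO_tO hτ, tO_tO hτ]
      ring
  have he0 : e ≠ 0 := by
    rcases he with rfl | rfl
    · exact one_ne_zero
    · exact hδ
  have hPfix : tO τ (p * tO τ p) = p * tO τ p := by
    rw [tO_mul, tO_tO hτ]
    ring
  obtain ⟨P, hP⟩ := fixed_int hτ hPfix
  have hP0 : P ≠ 0 := by
    rintro rfl
    rw [map_zero] at hP
    exact mul_ne_zero hp (tO_ne hp) hP.symm
  have hτb : Bd (C * s) (tO τ p) := fun φ => hpb (φ.comp (τ : M →+* M))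
  have hPb : Bd ((C * s) * (C * s)) P := bd_desc hP (bd_mul (by positivity) hpb hτb)
  have hnex : ∀ n : 𝓞 M, ∃ n1 : 𝓞 k, n ∈ S → algebraMap (𝓞 k) (𝓞 M) n1 = e * n := by
    intro n
    by_cases hn : n ∈ S
    · obtain ⟨y, hy⟩ := fixed_int hτ (hen n hn)
      exact ⟨y, fun _ => hy⟩
    · exact ⟨0, fun h => absurd h hn⟩
  choose f hf using hnex
  have hinj : Set.InjOn f S := by
    intro x hx y hy hxy
    have h1 := hf x hx
    have h2 := hf y hy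
    rw [hxy, h2] at h1
    exact (mul_left_cancel₀ he0 h1).symm
  have hcS : (S.image f).card = S.card := Finset.card_image_of_injOn hinj
  have hH : 1 ≤ (C * s) * (C * s) := by nlinarith
  have hCs6 : 1 ≤ (C * s) ^ 6 := one_le_pow₀ hs
  have hY : 1 ≤ 2 * A * C ^ 6 * s ^ 6 := by
    have h1 : 2 * A * C ^ 6 * s ^ 6 = 2 * A * (C * s) ^ 6 := by ring
    rw [h1]
    nlinarith
  have key := hcard ((C * s) * (C * s)) (2 * A * C ^ 6 * s ^ 6) hH hY P P hP0 hP0 hPb hPb (S.image f) ?_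
  · rw [hcS] at key
    refine key.trans (le_of_eq ?_)
    have e1 : (C * s) * (C * s) * (2 * A * C ^ 6 * s ^ 6) = (C ^ 2 * (2 * A * C ^ 6)) * s ^ (8 : ℝ) := by
      rw [show (8 : ℝ) = ((8 : ℕ) : ℝ) by norm_num, Real.rpow_natCast]
      ring
    have e2 : 2 * A * C ^ 6 * s ^ 6 = (2 * A * C ^ 6) * s ^ (6 : ℝ) := by
      rw [show (6 : ℝ) = ((6 : ℕ) : ℝ) by norm_num, Real.rpow_natCast]
    have e4 : ((C * s) * (C * s) * (2 * A * C ^ 6 * s ^ 6)) ^ (ε / 8) =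
        (C ^ 2 * (2 * A * C ^ 6)) ^ (ε / 8) * s ^ (8 * (ε / 8)) := by
      rw [e1, Real.mul_rpow (by positivity) (by positivity), ← Real.rpow_mul hs0.le]
    have e5 : (2 * A * C ^ 6 * s ^ 6) ^ (1 / 2 * d) =
        (2 * A * C ^ 6) ^ (1 / 2 * d) * s ^ (6 * (1 / 2 * d)) := by
      rw [e2, Real.mul_rpow (by positivity) (by positivity), ← Real.rpow_mul hs0.le]
    have e3 : s ^ (3 * d + ε) = s ^ (8 * (ε / 8)) * s ^ (6 * (1 / 2 * d)) := by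
      rw [← Real.rpow_add hs0]
      congr 1
      ring
    rw [e4, e5, e3]
    ring
  · intro n1 hn1
    obtain ⟨n, hn, rfl⟩ := Finset.mem_image.1 hn1
    obtain ⟨hn0, hnb, _, hdec⟩ := hS n hn
    have hfn := hf n hn
    refine ⟨?_, ?_, hdesc e he p q n (f n) P hn0 hq hP hfn hdec⟩
    · intro h0
      rw [h0, map_zero] at hfn
      exact mul_ne_zero he0 hn0 hfn.symm
    · refine bd_desc hfn (bd_mono ?_ (bd_mul hA0.le hef hnb))
      have h1 : C ^ 4 ≤ C ^ 6 := pow_le_pow_right₀ hC (by norm_num)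
      have h2 : A * (2 * C ^ 4 * s ^ 6) = 2 * A * s ^ 6 * C ^ 4 := by ring
      have h3 : 2 * A * C ^ 6 * s ^ 6 = 2 * A * s ^ 6 * C ^ 6 := by ring
      rw [h2, h3]
      exact mul_le_mul_of_nonneg_left h1 (by positivity)

end Pool.Agent.H12.WM
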