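import Pool.Agent.H88.A4.Iface2
import Pool.Agent.H88.A4.Geo

/-!
# [H12 WM PS2] W1 stage 2, step 9': the sum over `(p, q)`, `q = ± τ(p)`

STATEMENT. `∑_(p,q) (1 + s^(3d) nm(p)^(-3/2)) ≤ C' s^(3d + ε)` over any finite set of pairs with `p ≠ 0`, `|p| ≤ C s`, `q = ± τ(p)`; `d = [k : ℚ]`, `[M : ℚ] = 2 d`.

PROOF. `H1 = C s ≥ 1`. The map `(p, q) ↦ p` has at most 2 preimages, so the sum is at most `2 ∑_(p ∈ S1)`, `S1` = the image. `#S1 ≤ C1 (C s)^(2d) (1 + log H1)^j`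
(`norm_sum M` with `a = 0`; `Module.finrank ℚ M = 2 d`: `Module.finrank_mul_finrank ℚ k M`, `hτ.deg`), `≤ C2 s^(2d + ε) ≤ C3 s^(3d + ε)` (`s ≥ 1/C`).
`nm p ≥ 1` (`one_le_nm`), `nm p^(-3/2) ≤ nm p^(-1)`, `∑ nm p^(-1) ≤ C1 (1 + log H1)^j ≤ C4 s^ε` (`norm_sum M`, `a = 1`; `Pool.Agent.H63.W1` has `log_le`).
Compare Pool/Agent/H12/WM/PQs.lean.
-/

set_option autoImplicit false

open scoped NumberField

namespace Pool.Agent.H12.WM

open H88.A4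

private theorem fib_le {M : Type} [Field M] [NumberField M] (f : 𝓞 M → 𝓞 M) (g : 𝓞 M → ℝ)
    (S : Finset (𝓞 M × 𝓞 M)) (hg : ∀ x ∈ S, 0 ≤ g x.1)
    (hS : ∀ x ∈ S, x.2 = f x.1 ∨ x.2 = -f x.1) [DecidableEq (𝓞 M)] :
    ∑ x ∈ S, g x.1 ≤ 2 * ∑ p ∈ S.image Prod.fst, g p := by
  rw [← Finset.sum_fiberwise_of_maps_to (t := S.image Prod.fst) (g := Prod.fst)
    (fun x hx => Finset.mem_image_of_mem _ hx), Finset.mul_sum]
  refine Finset.sum_le_sum fun p hp => ?_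
  have h1 : ∑ x ∈ S.filter (fun x => x.1 = p), g x.1 =
      ((S.filter fun x => x.1 = p).card : ℝ) * g p := by
    rw [Finset.sum_congr rfl (g := fun _ => g p) (fun x hx => by
      rw [(Finset.mem_filter.1 hx).2]), Finset.sum_const, nsmul_eq_mul]
  rw [h1]
  have h2 : (S.filter fun x => x.1 = p) ⊆ {(p, f p), (p, -f p)} := by
    intro x hx
    obtain ⟨hx1, hx2⟩ := Finset.mem_filter.1 hx
    rw [Finset.mem_insert, Finset.mem_singleton]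
    rcases hS x hx1 with h | h
    · left
      exact Prod.ext hx2 (by rw [h, hx2])
    · right
      exact Prod.ext hx2 (by rw [h, hx2])
  have h3 : (S.filter fun x => x.1 = p).card ≤ 2 :=
    (Finset.card_le_card h2).trans Finset.card_le_two
  obtain ⟨x, hx, rfl⟩ := Finset.mem_image.1 hp
  exact mul_le_mul_of_nonneg_right (by exact_mod_cast h3) (hg x hx)

theorem p_sum2 (k M : Type) [Field k] [NumberField k] [Field M] [NumberField M] [Algebra k M]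
    (τ : M ≃ₐ[k] M) (hτ : Invo k M τ) (C : ℝ) (hC : 1 ≤ C) (ε : ℝ) (hε : 0 < ε) :
    ∃ C' : ℝ, 0 < C' ∧ ∀ s : ℝ, 1 ≤ C * s → ∀ S : Finset (𝓞 M × 𝓞 M),
      (∀ x ∈ S, x.1 ≠ 0 ∧ Bd (C * s) x.1 ∧ (x.2 = tO τ x.1 ∨ x.2 = -tO τ x.1)) →
      ∑ x ∈ S, (1 + s ^ (3 * (Module.finrank ℚ k : ℝ)) * nm (x.1 : M) ^ (-(3 / 2) : ℝ)) ≤
        C' * s ^ (3 * (Module.finrank ℚ k : ℝ) + ε) := by
  classical
  obtain ⟨A0, k0, hA0, h0⟩ := norm_sum M 0 le_rfl zero_le_one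
  obtain ⟨A1, k1, hA1, h1⟩ := norm_sum M 1 zero_le_one le_rfl
  obtain ⟨D0, hD0, hd0⟩ := Pool.H63.W1.log_le k0 ε hε
  obtain ⟨D1, hD1, hd1⟩ := Pool.H63.W1.log_le k1 ε hε
  obtain ⟨d, hd⟩ : ∃ d : ℝ, d = (Module.finrank ℚ k : ℝ) := ⟨_, rfl⟩
  rw [← hd]
  have hdn : 0 ≤ d := hd ▸ Nat.cast_nonneg _
  have hdM : (Module.finrank ℚ M : ℝ) = 2 * d := by
    rw [hd, ← Module.finrank_mul_finrank ℚ k M, hτ.deg]
    push_cast
    ring
  rw [hdM] at h0 h1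
  have hC0 : 0 < C := by linarith
  -- the two one-dimensional bounds
  have b0 : ∀ H : ℝ, 1 ≤ H → ∀ S : Finset (𝓞 M), (∀ x ∈ S, x ≠ 0 ∧ Bd H x) →
      (S.card : ℝ) ≤ A0 * D0 * H ^ (2 * d + ε) := by
    intro H hH S hS
    have hHp : 0 < H := by linarith
    have := h0 H hH S hS
    simp only [neg_zero, Real.rpow_zero, Finset.sum_const, nsmul_eq_mul, mul_one, sub_zero,
      one_mul] at this
    refine this.trans ?_
    rw [Real.rpow_add hHp]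
    have h3 : A0 * H ^ (2 * d) * (1 + Real.log H) ^ k0 ≤ A0 * H ^ (2 * d) * (D0 * H ^ ε) :=
      mul_le_mul_of_nonneg_left (hd0 H hH) (by positivity)
    refine h3.trans (le_of_eq ?_)
    ring
  have b1 : ∀ H : ℝ, 1 ≤ H → ∀ S : Finset (𝓞 M), (∀ x ∈ S, x ≠ 0 ∧ Bd H x) →
      ∑ x ∈ S, nm (x : M) ^ (-(3 / 2) : ℝ) ≤ A1 * D1 * H ^ ε := by
    intro H hH S hS
    have hHp : 0 < H := by linarith
    have h2 := h1 H hH S hS
    have h3 : ∑ x ∈ S, nm (x : M) ^ (-(3 / 2) : ℝ) ≤ ∑ x ∈ S, nm (x : M) ^ (-1 : ℝ) := by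
      refine Finset.sum_le_sum fun x hx => ?_
      exact Real.rpow_le_rpow_of_exponent_le (one_le_nm M x (hS x hx).1) (by norm_num)
    refine h3.trans (h2.trans ?_)
    have h4 : H ^ ((1 - 1) * (2 * d)) = 1 := by
      rw [sub_self, zero_mul, Real.rpow_zero]
    rw [h4]
    have h5 : A1 * 1 * (1 + Real.log H) ^ k1 ≤ A1 * 1 * (D1 * H ^ ε) :=
      mul_le_mul_of_nonneg_left (hd1 H hH) (by positivity)
    refine h5.trans (le_of_eq ?_)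
    ring
  refine ⟨2 * (A0 * D0 * C ^ (2 * d + ε) * C ^ d + A1 * D1 * C ^ ε), by positivity, ?_⟩
  intro s hCs S hS
  have hs : 0 < s := by
    by_contra h
    push Not at h
    nlinarith
  obtain ⟨S1, hS1⟩ : ∃ S1, S1 = S.image Prod.fst := ⟨_, rfl⟩
  have m1 : ∀ x ∈ S1, x ≠ 0 ∧ Bd (C * s) x := by
    intro x hx
    rw [hS1] at hx
    obtain ⟨y, hy, rfl⟩ := Finset.mem_image.1 hx
    exact ⟨(hS y hy).1, (hS y hy).2.1⟩
  have hnm : ∀ x : 𝓞 M, 0 ≤ nm (x : M) := fun x => Finset.prod_nonneg fun _ _ => norm_nonneg _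
  have e1 := fib_le (tO τ) (fun p => 1 + s ^ (3 * d) * nm (p : M) ^ (-(3 / 2) : ℝ)) S
    (fun x _ => by
      have := Real.rpow_nonneg (hnm x.1) (-(3 / 2) : ℝ)
      positivity) (fun x hx => (hS x hx).2.2)
  refine e1.trans ?_
  rw [← hS1, Finset.sum_add_distrib, ← Finset.mul_sum, Finset.sum_const, nsmul_eq_mul, mul_one]
  have c0 := b0 (C * s) hCs S1 m1
  have c1 := b1 (C * s) hCs S1 m1
  rw [Real.mul_rpow hC0.le hs.le] at c0 c1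
  have hCs1 : 1 ≤ C ^ d * s ^ d := by
    rw [← Real.mul_rpow hC0.le hs.le]
    exact Real.one_le_rpow hCs hdn
  have c2 : s ^ (2 * d + ε) ≤ C ^ d * s ^ (3 * d + ε) := by
    have e2 : s ^ (3 * d + ε) = s ^ d * s ^ (2 * d + ε) := by
      rw [← Real.rpow_add hs]
      congr 1
      ring
    rw [e2, ← mul_assoc]
    exact le_mul_of_one_le_left (Real.rpow_nonneg hs.le _) hCs1
  have c3 : s ^ (3 * d) * ∑ p ∈ S1, nm (p : M) ^ (-(3 / 2) : ℝ) ≤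
      A1 * D1 * C ^ ε * s ^ (3 * d + ε) := by
    calc s ^ (3 * d) * ∑ p ∈ S1, nm (p : M) ^ (-(3 / 2) : ℝ)
        ≤ s ^ (3 * d) * (A1 * D1 * (C ^ ε * s ^ ε)) :=
          mul_le_mul_of_nonneg_left c1 (Real.rpow_nonneg hs.le _)
      _ = A1 * D1 * C ^ ε * s ^ (3 * d + ε) := by
          rw [Real.rpow_add hs]
          ring
  have c4 : (S1.card : ℝ) ≤ A0 * D0 * C ^ (2 * d + ε) * C ^ d * s ^ (3 * d + ε) := by
    calc (S1.card : ℝ) ≤ A0 * D0 * (C ^ (2 * d + ε) * s ^ (2 * d + ε)) := c0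
      _ ≤ A0 * D0 * (C ^ (2 * d + ε) * (C ^ d * s ^ (3 * d + ε))) := by gcongr
      _ = _ := by ring
  calc 2 * ((S1.card : ℝ) + s ^ (3 * d) * ∑ p ∈ S1, nm (p : M) ^ (-(3 / 2) : ℝ))
      ≤ 2 * (A0 * D0 * C ^ (2 * d + ε) * C ^ d * s ^ (3 * d + ε) +
        A1 * D1 * C ^ ε * s ^ (3 * d + ε)) := by linarith
    _ = _ := by ring

end Pool.Agent.H12.WM
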