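import Pool.Agent.H88.A4.Iface2
import Pool.Agent.H88.A4.Geo
import Pool.Agent.H12.WM.Tau

/-!
# [H12 WM U2] W1 stage 2, step 9': number of `u` for given `(p, q, n)`

STATEMENT. `M / k` quadratic, `τ` the involution, `q = ± τ(p)`, `p ≠ 0`, `m ∈ (p, q)`: the number of `u ∈ 𝓞 M` with `|u| ≤ C s³` and
`τ(u) p³ + u q³ = n` is at most `C' (1 + s^(3d) nm(p)^(-3/2))`, `d = [k : ℚ]` (`nm` over `M`).

PROOF. Let `q = e τ(p)`, `e = ±1` (so `q³ = e τ(p)³`). Choose once and for all `δ ∈ 𝓞 M`, `δ ≠ 0`, `τ(δ) = -δ` (`x - τ x` for an `x ∈ 𝓞 M` not fixed by `τ`; such `x` exists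
because `[M : k] = 2`). (a) `m ∈ (p, q)` gives `m⁵ = X p³ + Y q³`. (b) For two solutions let `w = u - u'`: `τ(w) p³ = -w q³`, so
`m⁵ w = (X w - Y τ(w)) p³`. Put `z = w / p³ ∈ M`: `τ(z) = τ(w)/τ(p)³ = -e z` (from `τ(w) p³ = - e w τ(p)³`), `m⁵ z ∈ 𝓞 M`.
Let `δ' = δ` if `e = 1`, `δ' = 1` if `e = -1`. Then `y = m⁵ δ' z ∈ 𝓞 M` is fixed by `τ`, so `y = algebraMap k M x`, `x ∈ k` integral, i.e. `x ∈ 𝓞 k`.
(c) Fix `u0 ∈ S` (if `S` is empty there is nothing to show) and map `u ↦ x(u) ∈ k` (`w = u - u0`): injective, and the difference of two values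
is a nonzero element of `𝓞 k` (the map is additive in `w`; use (b) for the pair), so `nm` (over `k`) of it is `≥ 1` (`one_le_nm`).
(d) Size: for `ψ : k → ℂ` let `φ, φ'` be the two embeddings of `M` above `ψ` (`φ' = φ ∘ τ`): `|x|_ψ = |y|_φ = |y|_φ'`, `|y|_φ ≤ m⁵ |δ'|_φ 2 C s³ / |p|_φ³`; the
geometric mean: `|x|_ψ ≤ C2 s³ (|p|_φ |p|_φ')^(-3/2) =: R ψ` (the same for differences), and `∏_ψ R ψ ≤ C2^d s^(3d) nm(p)^(-3/2)`:
the embeddings of `M` are in bijection with pairs (`ψ`, one of two): `∏_(φ : M) |p|_φ = ∏_ψ |N_(M/k) p|_ψ`. EASIER: put `P = N_(M/k)(p) = p τ(p)` in `k`,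
`R ψ = C2 s³ |P|_ψ^(-3/2)`, and `∏_ψ |P|_ψ = nm_k(P) = nm_M(p)` (`nm_eq` and `Ideal.absNorm`/`Algebra.norm_norm`: both are the absolute value of the norm to `ℚ`),
and for `|x|_ψ` use `|x|_ψ² = |y y|_φ`... i.e. `x² = y τ(y)` in `M`, `|x|_ψ² = |y|_φ |τ y|_φ ≤ (m⁵ C3 2 C s³)² / |p τ(p)|_φ³` with `|p τ(p)|_φ = |P|_ψ`.
(An embedding `φ` of `M` above `ψ` exists: `IsAlgClosed.lift` or `NumberField.ComplexEmbedding`.) (e) `box_card k` with `ν = 1`.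
-/

set_option autoImplicit false

open scoped NumberField

namespace Pool.Agent.H12.WM

open H88.A4

private theorem nm_abs {K : Type} [Field K] [NumberField K] (x : K) :
    nm x = |(Algebra.norm ℚ x : ℚ)| := by
  rw [Pool.H63.W1.nm_prod, NumberField.InfinitePlace.prod_eq_abs_norm]

private theorem nm_nonneg' {K : Type} [Field K] [NumberField K] (x : K) : 0 ≤ nm x :=
  Finset.prod_nonneg fun _ _ => norm_nonneg _

private theorem nm_tau {k M : Type} [Field k] [NumberField k] [Field M] [NumberField M] [Algebra k M]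
    (τ : M ≃ₐ[k] M) (x : M) : nm (τ x) = nm x := by
  rw [nm_abs, nm_abs]
  have h : Algebra.norm ℚ (τ x) = Algebra.norm ℚ x := by
    have h1 := Algebra.norm_eq_of_algEquiv (R := ℚ) (AlgEquiv.restrictScalars ℚ τ) x
    simpa using h1
  rw [h]

private theorem nm_base {k M : Type} [Field k] [NumberField k] [Field M] [NumberField M] [Algebra k M]
    (h2 : Module.finrank k M = 2) (x : k) : nm (algebraMap k M x) = nm x ^ 2 := by
  rw [nm_abs, nm_abs]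
  have h : Algebra.norm ℚ (algebraMap k M x) = Algebra.norm ℚ x ^ 2 := by
    rw [← Algebra.norm_norm (R := ℚ) (S := k), Algebra.norm_algebraMap, h2, map_pow]
  rw [h]
  push_cast
  rw [abs_pow]

theorem u_card2 (k M : Type) [Field k] [NumberField k] [Field M] [NumberField M] [Algebra k M]
    (τ : M ≃ₐ[k] M) (hτ : Invo k M τ) (m : ℕ) (hm : m ≠ 0) (C : ℝ) (hC : 1 ≤ C) :
    ∃ C' : ℝ, 0 < C' ∧ ∀ s : ℝ, 1 ≤ C * s → ∀ p q n : 𝓞 M, p ≠ 0 → (q = tO τ p ∨ q = -tO τ p) →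
      (m : 𝓞 M) ∈ Ideal.span {p, q} → ∀ S : Finset (𝓞 M),
      (∀ u ∈ S, Bd (C * s ^ 3) u ∧ tO τ u * p ^ 3 + u * q ^ 3 = n) →
      (S.card : ℝ) ≤ C' * (1 + s ^ (3 * (Module.finrank ℚ k : ℝ)) * nm (p : M) ^ (-(3 / 2) : ℝ)) := by
  classical
  obtain ⟨C1, hC1, hbox⟩ := box_card k
  obtain ⟨δ, hδ0, hδ⟩ := exists_delta hτ
  obtain ⟨D, hD1, hDδ⟩ : ∃ D : ℝ, 1 ≤ D ∧ ∀ φ : M →+* ℂ, ‖φ (δ : M)‖ ≤ D := by
    refine ⟨1 + ∑ φ : M →+* ℂ, ‖φ (δ : M)‖, ?_, ?_⟩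
    · have : 0 ≤ ∑ φ : M →+* ℂ, ‖φ (δ : M)‖ := Finset.sum_nonneg fun _ _ => norm_nonneg _
      linarith
    · intro φ
      have h1 : ‖φ (δ : M)‖ ≤ ∑ φ : M →+* ℂ, ‖φ (δ : M)‖ :=
        Finset.single_le_sum (f := fun φ : M →+* ℂ => ‖φ (δ : M)‖)
          (fun _ _ => norm_nonneg _) (Finset.mem_univ φ)
      linarith
  set d : ℕ := Module.finrank ℚ k with hd
  set K0 : ℝ := D * (m : ℝ) ^ 5 * (2 * C) with hK0
  have hm0 : (0 : ℝ) < m := by exact_mod_cast Nat.pos_of_ne_zero hm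
  have hK0pos : 0 < K0 := by positivity
  refine ⟨C1 * (1 + K0 ^ d), by positivity, ?_⟩
  intro s hs p q n hp hq hmem S hS
  have hs0 : 0 < s := by
    by_contra h
    push Not at h
    nlinarith
  have hnp : 0 < nm (p : M) := lt_of_lt_of_le one_pos (one_le_nm M p hp)
  have hRpos : 0 ≤ s ^ (3 * (d : ℝ)) * nm (p : M) ^ (-(3 / 2) : ℝ) := by positivity
  rcases S.eq_empty_or_nonempty with hSe | ⟨u0, hu0⟩
  · subst hSe
    simp only [Finset.card_empty, Nat.cast_zero]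
    positivity
  obtain ⟨x, y, hxy⟩ := Ideal.mem_span_pair.1 hmem
  obtain ⟨X, hX⟩ : ∃ X : 𝓞 M, X = x ^ 5 * p ^ 2 + 5 * x ^ 4 * y * p * q + 10 * x ^ 3 * y ^ 2 * q ^ 2 :=
    ⟨_, rfl⟩
  obtain ⟨Y, hY⟩ : ∃ Y : 𝓞 M, Y = 10 * x ^ 2 * y ^ 3 * p ^ 2 + 5 * x * y ^ 4 * p * q + y ^ 5 * q ^ 2 :=
    ⟨_, rfl⟩
  have hM5 : (m : 𝓞 M) ^ 5 = X * p ^ 3 + Y * q ^ 3 := by
    rw [← hxy, hX, hY]
    ring
  have hm5ne : (m : 𝓞 M) ^ 5 ≠ 0 := pow_ne_zero 5 (Nat.cast_ne_zero.2 hm)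
  have htm : tO τ ((m : 𝓞 M) ^ 5) = (m : 𝓞 M) ^ 5 := by
    rw [tO_pow]
    congr 1
    apply NumberField.RingOfIntegers.coe_injective
    change τ (algebraMap (𝓞 M) M (m : 𝓞 M)) = algebraMap (𝓞 M) M (m : 𝓞 M)
    rw [map_natCast, map_natCast]
  -- the sign
  obtain ⟨e, he, hq3⟩ : ∃ e : 𝓞 M, (e = 1 ∨ e = -1) ∧ q ^ 3 = e * tO τ p ^ 3 := by
    rcases hq with h | h
    · exact ⟨1, Or.inl rfl, by rw [h]; ring⟩
    · exact ⟨-1, Or.inr rfl, by rw [h]; ring⟩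
  obtain ⟨δ', hδ'0, hδ', hδ'D⟩ : ∃ δ' : 𝓞 M, δ' ≠ 0 ∧ tO τ δ' = -e * δ' ∧
      ∀ φ : M →+* ℂ, ‖φ (δ' : M)‖ ≤ D := by
    rcases he with h | h
    · exact ⟨δ, hδ0, by rw [h, hδ]; ring, hDδ⟩
    · refine ⟨1, one_ne_zero, by rw [h, tO_one]; ring, ?_⟩
      intro φ
      have h1 : ((1 : 𝓞 M) : M) = 1 := map_one (algebraMap (𝓞 M) M)
      rw [h1, map_one, norm_one]
      exact hD1
  have hee : e * e = 1 := by
    rcases he with h | h <;> rw [h] <;> ring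
  have htp : tO τ p ^ 3 ≠ 0 := pow_ne_zero 3 (tO_ne hp)
  have hp3 : p ^ 3 ≠ 0 := pow_ne_zero 3 hp
  -- the map
  have hZ : ∀ w : 𝓞 M, tO τ w * p ^ 3 + w * q ^ 3 = 0 →
      (m : 𝓞 M) ^ 5 * w = (X * w - Y * tO τ w) * p ^ 3 ∧
      tO τ (δ' * (X * w - Y * tO τ w)) = δ' * (X * w - Y * tO τ w) := by
    intro w hw
    have h1 : (m : 𝓞 M) ^ 5 * w = (X * w - Y * tO τ w) * p ^ 3 := by
      rw [hM5]
      linear_combination Y * hw
    refine ⟨h1, ?_⟩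
    have h2 : (m : 𝓞 M) ^ 5 * tO τ w = tO τ (X * w - Y * tO τ w) * tO τ p ^ 3 := by
      have := congrArg (tO τ) h1
      rw [tO_mul, tO_mul, htm, tO_pow] at this
      exact this
    have h3 : tO τ (X * w - Y * tO τ w) = -e * (X * w - Y * tO τ w) := by
      have h4 : tO τ (X * w - Y * tO τ w) * (tO τ p ^ 3 * p ^ 3)
          = -e * (X * w - Y * tO τ w) * (tO τ p ^ 3 * p ^ 3) := by
        rw [hq3] at hw
        linear_combination (-p ^ 3) * h2 + (m : 𝓞 M) ^ 5 * hw - e * tO τ p ^ 3 * h1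
      exact mul_right_cancel₀ (mul_ne_zero htp hp3) h4
    rw [tO_mul, hδ', h3]
    linear_combination (δ' * (X * w - Y * tO τ w)) * hee
  have hrel : ∀ u ∈ S, ∀ v ∈ S, tO τ (u - v) * p ^ 3 + (u - v) * q ^ 3 = 0 := by
    intro u hu v hv
    rw [tO_sub]
    linear_combination (hS u hu).2 - (hS v hv).2
  have hex : ∀ u ∈ S, ∃ x : 𝓞 k, algebraMap (𝓞 k) (𝓞 M) x
      = δ' * (X * (u - u0) - Y * tO τ (u - u0)) := fun u hu =>
    fixed_int hτ (hZ _ (hrel u hu u0 hu0)).2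
  choose! g hg using hex
  have hgd : ∀ u ∈ S, ∀ v ∈ S, algebraMap (𝓞 k) (𝓞 M) (g u - g v)
      = δ' * (X * (u - v) - Y * tO τ (u - v)) := by
    intro u hu v hv
    rw [map_sub, hg u hu, hg v hv, tO_sub, tO_sub, tO_sub]
    ring
  have hgne : ∀ u ∈ S, ∀ v ∈ S, u ≠ v → g u - g v ≠ 0 := by
    intro u hu v hv huv h0
    have h1 := hgd u hu v hv
    rw [h0, map_zero] at h1
    have h2 := (hZ _ (hrel u hu v hv)).1
    rcases mul_eq_zero.1 h1.symm with h3 | h3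
    · exact hδ'0 h3
    · rw [h3, zero_mul] at h2
      rcases mul_eq_zero.1 h2 with h4 | h4
      · exact hm5ne h4
      · exact huv (sub_eq_zero.1 h4)
  obtain ⟨P, hP⟩ : ∃ P : 𝓞 k, algebraMap (𝓞 k) (𝓞 M) P = p * tO τ p := by
    apply fixed_int hτ
    rw [tO_mul, tO_tO hτ]
    ring
  have hPM : algebraMap k M (P : k) = (p : M) * τ (p : M) := by
    have h1 := congrArg (algebraMap (𝓞 M) M) hP
    rw [map_mul] at h1
    exact h1
  have hP0 : P ≠ 0 := by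
    intro h
    rw [h, map_zero] at hP
    rcases mul_eq_zero.1 hP.symm with h1 | h1
    · exact hp h1
    · exact tO_ne hp h1
  have hPpos : ∀ ψ : k →+* ℂ, 0 < ‖ψ (P : k)‖ := by
    intro ψ
    rw [norm_pos_iff, map_ne_zero]
    intro h
    exact hP0 (NumberField.RingOfIntegers.coe_injective h)
  have hnmP : nm (P : k) = nm (p : M) := by
    have h1 : nm (P : k) ^ 2 = nm (p : M) ^ 2 := by
      rw [← nm_base hτ.deg, hPM, nm_mul, nm_tau]
      ring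
    exact (pow_left_inj₀ (nm_nonneg' _) (nm_nonneg' _) two_ne_zero).1 h1
  -- the size
  have hsize : ∀ u ∈ S, ∀ v ∈ S, ∀ ψ : k →+* ℂ,
      ‖ψ ((g u - g v : 𝓞 k) : k)‖ ≤ K0 * s ^ 3 * ‖ψ (P : k)‖ ^ (-(3 / 2) : ℝ) := by
    intro u hu v hv ψ
    set φ : M →+* ℂ := NumberField.ComplexEmbedding.lift M ψ with hφ
    have hlift : ∀ z : k, φ (algebraMap k M z) = ψ z := fun z =>
      NumberField.ComplexEmbedding.lift_algebraMap_apply M ψ z
    set w : 𝓞 M := u - v with hw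
    set Z : 𝓞 M := X * w - Y * tO τ w with hZdef
    have hw1 := (hZ w (hrel u hu v hv)).1
    have hgM : algebraMap k M ((g u - g v : 𝓞 k) : k) = (δ' : M) * (Z : M) := by
      have h1 := congrArg (algebraMap (𝓞 M) M) (hgd u hu v hv)
      rw [map_mul] at h1
      exact h1
    have hfix : τ ((δ' : M) * (Z : M)) = (δ' : M) * (Z : M) := by
      rw [← hgM]
      exact τ.commutes _
    have hw2 : (m : M) ^ 5 * (w : M) = (Z : M) * (p : M) ^ 3 := by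
      have h3 := congrArg (algebraMap (𝓞 M) M) hw1
      rw [map_mul, map_mul, map_pow, map_pow, map_natCast] at h3
      exact h3
    have hwB : ∀ χ : M →+* ℂ, ‖χ (w : M)‖ ≤ 2 * C * s ^ 3 := by
      intro χ
      have h1 : (w : M) = (u : M) - (v : M) := map_sub (algebraMap (𝓞 M) M) u v
      rw [h1, map_sub]
      calc ‖χ (u : M) - χ (v : M)‖ ≤ ‖χ (u : M)‖ + ‖χ (v : M)‖ := norm_sub_le _ _
        _ ≤ C * s ^ 3 + C * s ^ 3 := add_le_add ((hS u hu).1 χ) ((hS v hv).1 χ)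
        _ = 2 * C * s ^ 3 := by ring
    -- for every embedding of `M`
    have hev : ∀ χ : M →+* ℂ, ‖χ ((δ' : M) * (Z : M))‖ * ‖χ (p : M)‖ ^ 3 ≤ K0 * s ^ 3 := by
      intro χ
      have h1 : ‖χ (Z : M)‖ * ‖χ (p : M)‖ ^ 3 = (m : ℝ) ^ 5 * ‖χ (w : M)‖ := by
        have h2 := congrArg (fun z => ‖χ z‖) hw2
        simp only [map_mul, map_pow, map_natCast, norm_mul, norm_pow, Complex.norm_natCast] at h2
        exact h2.symm
      rw [map_mul, norm_mul, mul_assoc, h1, hK0]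
      calc ‖χ (δ' : M)‖ * ((m : ℝ) ^ 5 * ‖χ (w : M)‖)
          ≤ D * ((m : ℝ) ^ 5 * (2 * C * s ^ 3)) := by
            gcongr
            · exact hδ'D χ
            · exact hwB χ
        _ = D * (m : ℝ) ^ 5 * (2 * C) * s ^ 3 := by ring
    have h5 := hev φ
    have h6 := hev (φ.comp (τ : M →+* M))
    have h7 : (φ.comp (τ : M →+* M)) ((δ' : M) * (Z : M)) = φ ((δ' : M) * (Z : M)) := by
      rw [RingHom.comp_apply]
      congr 1
    have h8 : φ ((δ' : M) * (Z : M)) = ψ ((g u - g v : 𝓞 k) : k) := by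
      rw [← hgM, hlift]
    rw [h7, h8] at h6
    rw [h8] at h5
    have h9 : (φ.comp (τ : M →+* M)) (p : M) = φ (τ (p : M)) := rfl
    rw [h9] at h6
    have h10 : ‖φ (p : M)‖ * ‖φ (τ (p : M))‖ = ‖ψ (P : k)‖ := by
      rw [← norm_mul, ← map_mul, ← hPM, hlift]
    set a : ℝ := ‖ψ ((g u - g v : 𝓞 k) : k)‖ with ha
    have ha0 : 0 ≤ a := norm_nonneg _
    have h11 : a ^ 2 * ‖ψ (P : k)‖ ^ 3 ≤ (K0 * s ^ 3) ^ 2 := by
      calc a ^ 2 * ‖ψ (P : k)‖ ^ 3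
          = (a * ‖φ (p : M)‖ ^ 3) * (a * ‖φ (τ (p : M))‖ ^ 3) := by
            rw [← h10]
            ring
        _ ≤ (K0 * s ^ 3) * (K0 * s ^ 3) := mul_le_mul h5 h6 (by positivity) (by positivity)
        _ = (K0 * s ^ 3) ^ 2 := by ring
    have hPψ := hPpos ψ
    refine le_of_pow_le_pow_left₀ two_ne_zero (by positivity) ?_
    have h12 : (K0 * s ^ 3 * ‖ψ (P : k)‖ ^ (-(3 / 2) : ℝ)) ^ 2
        = (K0 * s ^ 3) ^ 2 * (‖ψ (P : k)‖ ^ 3)⁻¹ := by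
      rw [mul_pow]
      congr 1
      rw [← Real.rpow_natCast (‖ψ (P : k)‖ ^ (-(3 / 2) : ℝ)), ← Real.rpow_mul hPψ.le,
        ← Real.rpow_natCast _ 3, ← Real.rpow_neg hPψ.le]
      congr 1
      push_cast
      ring
    rw [h12, ← div_eq_mul_inv, le_div_iff₀ (by positivity)]
    exact h11
  -- the count
  have hinj : Set.InjOn (fun u => ((g u : 𝓞 k) : k)) S := by
    intro u hu v hv h
    by_contra huv
    exact hgne u hu v hv huv (sub_eq_zero.2 (NumberField.RingOfIntegers.coe_injective h))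
  have hcard : (S.image (fun u => ((g u : 𝓞 k) : k))).card = S.card :=
    Finset.card_image_of_injOn hinj
  have hcoe : ∀ u v : 𝓞 M, ((g u - g v : 𝓞 k) : k) = (g u : k) - (g v : k) := fun u v =>
    map_sub (algebraMap (𝓞 k) k) _ _
  have h := hbox 1 one_pos (fun ψ => K0 * s ^ 3 * ‖ψ (P : k)‖ ^ (-(3 / 2) : ℝ))
    (fun ψ => by
      have := hPpos ψ
      positivity)
    (S.image (fun u => ((g u : 𝓞 k) : k))) (by
      intro a ha b hb hab
      obtain ⟨u, hu, rfl⟩ := Finset.mem_image.1 ha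
      obtain ⟨v, hv, rfl⟩ := Finset.mem_image.1 hb
      rw [← hcoe]
      exact one_le_nm k _ (hgne u hu v hv (fun h => hab (by rw [h])))) (by
      intro a ha b hb ψ
      obtain ⟨u, hu, rfl⟩ := Finset.mem_image.1 ha
      obtain ⟨v, hv, rfl⟩ := Finset.mem_image.1 hb
      rw [← hcoe]
      exact hsize u hu v hv ψ)
  rw [hcard, div_one, Finset.prod_mul_distrib, Finset.prod_const, Finset.card_univ,
    NumberField.Embeddings.card k ℂ] at h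
  have hprod : ∏ ψ : k →+* ℂ, ‖ψ (P : k)‖ ^ (-(3 / 2) : ℝ) = nm (p : M) ^ (-(3 / 2) : ℝ) := by
    rw [← hnmP, nm, Real.finsetProd_rpow _ _ (fun ψ _ => norm_nonneg _)]
  rw [hprod] at h
  have hs3 : (K0 * s ^ 3) ^ d = K0 ^ d * s ^ (3 * (d : ℝ)) := by
    rw [mul_pow, ← pow_mul]
    congr 1
    rw [← Real.rpow_natCast]
    push_cast
    rfl
  rw [← hd, hs3] at h
  refine h.trans ?_
  set T : ℝ := s ^ (3 * (d : ℝ)) * nm (p : M) ^ (-(3 / 2) : ℝ) with hT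
  have hKd : 0 < K0 ^ d := by positivity
  calc C1 * (1 + K0 ^ d * s ^ (3 * (d : ℝ)) * nm (p : M) ^ (-(3 / 2) : ℝ))
      = C1 * (1 + K0 ^ d * T) := by rw [hT]; ring
    _ ≤ C1 * ((1 + K0 ^ d) * (1 + T)) := by
        apply mul_le_mul_of_nonneg_left _ hC1.le
        nlinarith
    _ = C1 * (1 + K0 ^ d) * (1 + T) := by ring

end Pool.Agent.H12.WM
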