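import Pool.Agent.H12.WM.Cnt
import Pool.Agent.H12.WM.N2
import Pool.Agent.H12.WM.U2
import Pool.Agent.H12.WM.PS2

/-!
# W1 stage 2 (MP_b39724_nt), step 9': assembly of the count, `EZero2Stmt`
-/

set_option autoImplicit false

open scoped NumberField

namespace Pool.Agent.H12.WM

open H88.A4

theorem eZero2 (k M : Type) [Field k] [NumberField k] [Field M] [NumberField M] [Algebra k M] :
    EZero2Stmt k M := by
  classical
  intro τ hτ m hm C hC ε hε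
  obtain ⟨C1, hC1, h1⟩ := u_card2 k M τ hτ m hm C hC
  obtain ⟨C2, hC2, h2⟩ := n_card2 k M τ hτ m hm C hC (ε / 2) (half_pos hε)
  obtain ⟨C3, hC3, h3⟩ := p_sum2 k M τ hτ C hC (ε / 2) (half_pos hε)
  refine ⟨C2 * (C1 * C3), by positivity, ?_⟩
  intro s hs S hS
  have hC0 : 0 < C := by linarith
  have hs0 : 0 < s := by
    by_contra h
    push Not at h
    nlinarith
  have hmem : ∀ y ∈ S, Adm m C s s y.1 (tO τ y.1) ∧ PQ2 τ m C s y.1 y.2.1 y.2.2 := hS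
  set f : 𝓞 M × (𝓞 M × 𝓞 M) → 𝓞 M := fun y => tO τ y.1 * y.2.1 ^ 3 + y.1 * y.2.2 ^ 3 with hf
  set A : ℝ := C2 * s ^ (3 * (Module.finrank ℚ k : ℝ) + ε / 2) with hA
  have hA0 : 0 ≤ A := by positivity
  set g : 𝓞 M × 𝓞 M → ℝ := fun x => C1 * (1 + s ^ (3 * (Module.finrank ℚ k : ℝ)) *
        nm (x.1 : M) ^ (-(3 / 2) : ℝ)) with hg
  have hqb : ∀ p q : 𝓞 M, (q = tO τ p ∨ q = -tO τ p) → Bd (C * s) p → Bd (C * s) q := by
    intro p q hq hp φ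
    have hτb : Bd (C * s) (tO τ p) := fun φ => hp (φ.comp (τ : M →+* M))
    rcases hq with rfl | rfl
    · exact hτb φ
    · have h4 : φ ((-tO τ p : 𝓞 M) : M) = -φ ((tO τ p : 𝓞 M) : M) := by
        rw [← map_neg]
        rfl
      rw [h4, norm_neg]
      exact hτb φ
  have hsz : ∀ y ∈ S, Bd (2 * C ^ 4 * s ^ 6) (f y) := by
    intro y hy φ
    obtain ⟨hAd, hPQ⟩ := hmem y hy
    have e1 := hAd.ule φ
    have e2 := hAd.vle φ
    have e3 := hPQ.2.2.1 φ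
    have e4 := hqb _ _ hPQ.2.1 hPQ.2.2.1 φ
    have e5 : ‖φ ((f y : 𝓞 M) : M)‖ ≤ ‖φ ((tO τ y.1 : 𝓞 M) : M)‖ * ‖φ (y.2.1 : M)‖ ^ 3 +
        ‖φ (y.1 : M)‖ * ‖φ (y.2.2 : M)‖ ^ 3 := by
      have h6 : φ ((f y : 𝓞 M) : M) = φ ((tO τ y.1 : 𝓞 M) : M) * φ (y.2.1 : M) ^ 3 +
          φ (y.1 : M) * φ (y.2.2 : M) ^ 3 := by
        have h7 : ((f y : 𝓞 M) : M) = ((tO τ y.1 : 𝓞 M) : M) * (y.2.1 : M) ^ 3 +
            (y.1 : M) * (y.2.2 : M) ^ 3 := rfl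
        rw [h7, map_add, map_mul, map_mul, map_pow, map_pow]
      rw [h6]
      refine (norm_add_le _ _).trans ?_
      rw [norm_mul, norm_mul, norm_pow, norm_pow]
    refine e5.trans ?_
    have e6 : ‖φ (y.2.1 : M)‖ ^ 3 ≤ (C * s) ^ 3 := pow_le_pow_left₀ (norm_nonneg _) e3 3
    have e7 : ‖φ (y.2.2 : M)‖ ^ 3 ≤ (C * s) ^ 3 := pow_le_pow_left₀ (norm_nonneg _) e4 3
    have e8 : ‖φ ((tO τ y.1 : 𝓞 M) : M)‖ * ‖φ (y.2.1 : M)‖ ^ 3 ≤ (C * s ^ 3) * (C * s) ^ 3 :=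
      mul_le_mul e2 e6 (by positivity) (by positivity)
    have e9 : ‖φ (y.1 : M)‖ * ‖φ (y.2.2 : M)‖ ^ 3 ≤ (C * s ^ 3) * (C * s) ^ 3 :=
      mul_le_mul e1 e7 (by positivity) (by positivity)
    calc _ ≤ (C * s ^ 3) * (C * s) ^ 3 + (C * s ^ 3) * (C * s) ^ 3 := add_le_add e8 e9
      _ = 2 * C ^ 4 * s ^ 6 := by ring
  have key := card_two_step S f hA0 g ?_ ?_
  · have hsum := h3 s hs (S.image Prod.snd) (by
      intro x hx
      obtain ⟨y, hy, rfl⟩ := Finset.mem_image.1 hx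
      obtain ⟨_, hPQ⟩ := hmem y hy
      exact ⟨hPQ.1, hPQ.2.2.1, hPQ.2.1⟩)
    have hgs : ∑ x ∈ S.image Prod.snd, g x ≤
        C1 * (C3 * s ^ (3 * (Module.finrank ℚ k : ℝ) + ε / 2)) := by
      simp only [hg]
      rw [← Finset.mul_sum]
      exact mul_le_mul_of_nonneg_left hsum hC1.le
    refine key.trans ?_
    calc A * ∑ x ∈ S.image Prod.snd, g x
        ≤ A * (C1 * (C3 * s ^ (3 * (Module.finrank ℚ k : ℝ) + ε / 2))) :=
          mul_le_mul_of_nonneg_left hgs hA0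
      _ = C2 * (C1 * C3) * (s ^ (3 * (Module.finrank ℚ k : ℝ) + ε / 2) *
          s ^ (3 * (Module.finrank ℚ k : ℝ) + ε / 2)) := by
        rw [hA]
        ring
      _ = C2 * (C1 * C3) * s ^ (6 * (Module.finrank ℚ k : ℝ) + ε) := by
        rw [← Real.rpow_add hs0]
        congr 2
        ring
  · intro x hx
    obtain ⟨y0, hy0, rfl⟩ := Finset.mem_image.1 hx
    obtain ⟨_, hPQ0⟩ := hmem y0 hy0
    refine h2 s hs y0.2.1 y0.2.2 hPQ0.1 hPQ0.2.1 hPQ0.2.2.1 _ ?_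
    intro n hn
    obtain ⟨y, hy, rfl⟩ := Finset.mem_image.1 hn
    rw [Finset.mem_filter] at hy
    obtain ⟨_, hPQ⟩ := hmem y hy.1
    obtain ⟨_, _, _, _, hn0, b0, g1, g2, I, e1, e2, e3, e4⟩ := hPQ
    refine ⟨hn0, hsz y hy.1, ⟨y.1, ?_⟩, b0, g1, g2, I, e1, e2, ?_, ?_⟩
    · rw [← hy.2]
    · rw [← hy.2]
      exact e3
    · rw [← hy.2]
      exact e4
  · intro x hx n
    obtain ⟨y0, hy0, rfl⟩ := Finset.mem_image.1 hx
    obtain ⟨_, hPQ0⟩ := hmem y0 hy0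
    have hc : (S.filter fun y => y.2 = y0.2 ∧ f y = n).card =
        ((S.filter fun y => y.2 = y0.2 ∧ f y = n).image Prod.fst).card := by
      rw [Finset.card_image_of_injOn]
      intro y hy z hz hyz
      simp only [Finset.coe_filter, Set.mem_ofPred_eq] at hy hz
      exact Prod.ext hyz (hy.2.1.trans hz.2.1.symm)
    rw [hc]
    refine h1 s hs y0.2.1 y0.2.2 n hPQ0.1 hPQ0.2.1 hPQ0.2.2.2.1 _ ?_
    intro z hz
    obtain ⟨y, hy, rfl⟩ := Finset.mem_image.1 hz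
    rw [Finset.mem_filter] at hy
    obtain ⟨hAd, _⟩ := hmem y hy.1
    refine ⟨hAd.ule, ?_⟩
    rw [← hy.2.1]
    exact hy.2.2

end Pool.Agent.H12.WM
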