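import Pool.Agent.H12.WM.Rec

/-!
# W1 (MP_b39724_nt), step 9.2: the case `E = D1 D3 - D2² = 0`

`(D1, D2, D3) = -(p², pq, q²)` with `p, q ∈ K`, and `α` is `uvn (p t1 + q t2)` modulo squares, `n = v p³ + u q³`.
-/

set_option autoImplicit false

namespace Pool.Agent.H12.WM

/-- `η = p t1 + q t2` has norm `u v (v p³ + u q³)` -/
theorem norm_eta {F : Type*} [Field F] {s : F →+* F} {w u v p q t1 t2 : F} (hw : w ^ 2 + w + 1 = 0)
    (hsw : s w = w) (hsp : s p = p) (hsq : s q = q) (h1 : s t1 = w * t1) (h2 : s t2 = w ^ 2 * t2)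
    (h12 : t1 * t2 = u * v) (h11 : t1 ^ 2 = v * t2) (h22 : t2 ^ 2 = u * t1) :
    (p * t1 + q * t2) * s (p * t1 + q * t2) * s (s (p * t1 + q * t2)) =
      u * v * (v * p ^ 3 + u * q ^ 3) := by
  have hw3 : w ^ 3 = 1 := by linear_combination (w - 1) * hw
  have e1 : s (p * t1 + q * t2) = p * (w * t1) + q * (w ^ 2 * t2) := by
    simp only [map_add, map_mul, hsp, hsq, h1, h2]
  have e2 : s (s (p * t1 + q * t2)) = p * (w * (w * t1)) + q * (w ^ 2 * (w ^ 2 * t2)) := by
    rw [e1]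
    simp only [map_add, map_mul, map_pow, hsp, hsq, h1, h2, hsw]
  have h13 : t1 ^ 3 = u * v ^ 2 := by linear_combination t1 * h11 + v * h12
  have h23 : t2 ^ 3 = u ^ 2 * v := by linear_combination t2 * h22 + u * h12
  have e3 : (p * t1 + q * t2) * (p * (w * t1) + q * (w ^ 2 * t2)) *
      (p * (w * (w * t1)) + q * (w ^ 2 * (w ^ 2 * t2))) = p ^ 3 * t1 ^ 3 + q ^ 3 * t2 ^ 3 := by
    have hw4 : w ^ 4 = w := by linear_combination w * hw3
    have hw2 : w ^ 2 = -1 - w := by linear_combination hw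
    have hA : (p * (w * t1) + q * (w ^ 2 * t2)) * (p * (w * (w * t1)) + q * (w ^ 2 * (w ^ 2 * t2))) =
        p ^ 2 * t1 ^ 2 - p * q * (t1 * t2) + q ^ 2 * t2 ^ 2 := by
      linear_combination (p ^ 2 * t1 ^ 2 + p * q * t1 * t2 * w ^ 2 + q ^ 2 * t2 ^ 2 * (w ^ 3 + 1) +
        p * q * t1 * t2 * w) * hw3 + p * q * t1 * t2 * hw
    rw [mul_assoc, hA]
    ring
  rw [e2, e1, e3, h13, h23]
  ring

/-- `η ≠ 0` -/
theorem eta_ne {F : Type*} [Field F] (h3 : (3 : F) ≠ 0) {s : F →+* F} {w p q t1 t2 : F}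
    (hw : w ^ 2 + w + 1 = 0) (hsp : s p = p) (hsq : s q = q) (h1 : s t1 = w * t1)
    (h2 : s t2 = w ^ 2 * t2) (ht1 : t1 ≠ 0) (hp : p ≠ 0) : p * t1 + q * t2 ≠ 0 := by
  intro h
  have e1 : s (p * t1 + q * t2) = p * (w * t1) + q * (w ^ 2 * t2) := by
    simp only [map_add, map_mul, hsp, hsq, h1, h2]
  rw [h, map_zero] at e1
  have hw0 : w ≠ 0 := by
    intro h0
    rw [h0] at hw
    simp at hw
  have h4 : w * (1 - w) * (p * t1) = 0 := by linear_combination -e1 - w ^ 2 * h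
  have h5 : (1 - w) ≠ 0 := by
    intro h0
    have h6 : w = 1 := by linear_combination -h0
    rw [h6] at hw
    exact h3 (by linear_combination hw)
  exact (mul_ne_zero (mul_ne_zero hw0 h5) (mul_ne_zero hp ht1)) h4

/-- `η Θ0 = u v n` -/
theorem eta_theta {F : Type*} [Field F] {u v p q t1 t2 : F} (h12 : t1 * t2 = u * v)
    (h11 : t1 ^ 2 = v * t2) (h22 : t2 ^ 2 = u * t1) :
    (p * t1 + q * t2) * (p ^ 2 * v * t2 - p * q * (u * v) + q ^ 2 * u * t1) =
      u * v * (v * p ^ 3 + u * q ^ 3) := by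
  linear_combination (p ^ 3 * v + q ^ 3 * u) * h12 + p * q ^ 2 * u * h11 + p ^ 2 * q * v * h22

/-- abstract form: `-Θ = α ξ²`, `N α = k0²`, `E = 0`, `D1 ≠ 0` -/
theorem exists_pq {K F : Type*} [Field K] [Field F] [Algebra K F] (h3 : (3 : F) ≠ 0) {s : F →+* F}
    (hs : ∀ x, s (s (s x)) = x) (hfix : ∀ x : F, s x = x ↔ ∃ k : K, algebraMap K F k = x)
    {w u v k0 D1 D2 D3 : K} {t1 t2 α ξ : F} (hw : w ^ 2 + w + 1 = 0) (hu : u ≠ 0) (hv : v ≠ 0)
    (h1 : s t1 = algebraMap K F w * t1) (h2 : s t2 = algebraMap K F w ^ 2 * t2)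
    (h12 : t1 * t2 = algebraMap K F u * algebraMap K F v) (h11 : t1 ^ 2 = algebraMap K F v * t2)
    (h22 : t2 ^ 2 = algebraMap K F u * t1)
    (hN : α * s α * s (s α) = algebraMap K F k0 ^ 2)
    (hE : D1 * D3 = D2 ^ 2) (hD1 : D1 ≠ 0)
    (hrec : -(algebraMap K F D1 * algebraMap K F v * t2 -
        algebraMap K F D2 * (algebraMap K F u * algebraMap K F v) +
        algebraMap K F D3 * algebraMap K F u * t1) = α * ξ ^ 2) :
    ∃ p q : K, D1 = -p ^ 2 ∧ D2 = -(p * q) ∧ D3 = -q ^ 2 ∧ v * p ^ 3 + u * q ^ 3 ≠ 0 ∧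
      ∃ y : F, y ≠ 0 ∧ α * y ^ 2 = algebraMap K F (u * v * (v * p ^ 3 + u * q ^ 3)) *
        (algebraMap K F p * t1 + algebraMap K F q * t2) := by
  have hk : ∀ k : K, s (algebraMap K F k) = algebraMap K F k := fun k => (hfix _).2 ⟨k, rfl⟩
  have hinj := (algebraMap K F).injective
  have hw' : (algebraMap K F w) ^ 2 + algebraMap K F w + 1 = 0 := by
    have h := congrArg (algebraMap K F) hw
    simpa only [map_add, map_pow, map_one, map_zero] using h
  have hu' : algebraMap K F u ≠ 0 := fun h => hu (hinj (by rw [h, map_zero]))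
  have hv' : algebraMap K F v ≠ 0 := fun h => hv (hinj (by rw [h, map_zero]))
  have ht1 : t1 ≠ 0 := by
    intro h
    rw [h, zero_mul] at h12
    exact mul_ne_zero hu' hv' h12.symm
  have ht12 : ∀ P Q : K, P ≠ 0 → v * P ^ 3 + u * Q ^ 3 ≠ 0 := by
    intro P Q hP h0
    have hη := eta_ne (p := algebraMap K F P) (q := algebraMap K F Q) h3 hw' (hk P) (hk Q) h1 h2 ht1
      (fun h => hP (hinj (by rw [h, map_zero])))
    have hn := norm_eta (u := algebraMap K F u) (v := algebraMap K F v) hw' (hk w) (hk P) (hk Q)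
      h1 h2 h12 h11 h22
    have h5 : algebraMap K F v * algebraMap K F P ^ 3 + algebraMap K F u * algebraMap K F Q ^ 3 = 0 := by
      rw [← map_pow, ← map_pow, ← map_mul, ← map_mul, ← map_add, h0, map_zero]
    rw [h5, mul_zero] at hn
    exact (mul_ne_zero (mul_ne_zero hη ((map_ne_zero s).2 hη))
      ((map_ne_zero s).2 ((map_ne_zero s).2 hη))) hn
  -- first with `P = D1`, `Q = D2`
  set n0 : K := v * D1 ^ 3 + u * D2 ^ 3 with hn0
  have hn0' : n0 ≠ 0 := ht12 D1 D2 hD1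
  have hn0F : algebraMap K F v * algebraMap K F D1 ^ 3 + algebraMap K F u * algebraMap K F D2 ^ 3 =
      algebraMap K F n0 := by
    rw [hn0]
    simp only [map_add, map_mul, map_pow]
  set η0 : F := algebraMap K F D1 * t1 + algebraMap K F D2 * t2 with hη0
  have hη0' : η0 ≠ 0 := eta_ne h3 hw' (hk D1) (hk D2) h1 h2 ht1 (fun h => hD1 (hinj (by rw [h, map_zero])))
  have hNη := norm_eta (u := algebraMap K F u) (v := algebraMap K F v) hw' (hk w) (hk D1) (hk D2)
      h1 h2 h12 h11 h22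
  rw [hn0F] at hNη
  have hηΘ := eta_theta (p := algebraMap K F D1) (q := algebraMap K F D2) h12 h11 h22
  rw [hn0F] at hηΘ
  have hEF : algebraMap K F D1 * algebraMap K F D3 = algebraMap K F D2 ^ 2 := by
    rw [← map_mul, ← map_pow, hE]
  -- `η0 α ξ² D1 = - u v n0`
  have hA : η0 * (α * ξ ^ 2) * algebraMap K F D1 =
      -(algebraMap K F u * algebraMap K F v * algebraMap K F n0) := by
    rw [← hrec, ← hηΘ]
    rw [← hη0]
    linear_combination (-(η0 * algebraMap K F u * t1)) * hEF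
  have hαξ : α * ξ ^ 2 ≠ 0 := by
    intro h
    rw [h, mul_zero, zero_mul] at hA
    have h5 : algebraMap K F n0 ≠ 0 := fun h => hn0' (hinj (by rw [h, map_zero]))
    exact (neg_ne_zero.2 (mul_ne_zero (mul_ne_zero hu' hv') h5)) hA.symm
  have hξ : ξ ≠ 0 := by
    rintro rfl
    simp at hαξ
  -- the norm of `ξ` is in `K`
  obtain ⟨x0, hx0⟩ : ∃ k : K, algebraMap K F k = ξ * s ξ * s (s ξ) := by
    rw [← hfix]
    rw [map_mul, map_mul, hs]
    ring
  -- norms
  have hB : (algebraMap K F (u * v * n0)) * ((algebraMap K F k0) ^ 2 * (algebraMap K F x0) ^ 2) *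
      algebraMap K F D1 ^ 3 = -(algebraMap K F (u * v * n0)) ^ 3 := by
    have hA1 := congrArg s hA
    have hA2 := congrArg s hA1
    simp only [map_mul, map_neg, map_pow, hk] at hA1 hA2
    have hP : (η0 * (α * ξ ^ 2) * algebraMap K F D1) * (s η0 * (s α * s ξ ^ 2) * algebraMap K F D1) *
        (s (s η0) * (s (s α) * s (s ξ) ^ 2) * algebraMap K F D1) =
        -(algebraMap K F (u * v * n0)) ^ 3 := by
      rw [hA, hA1, hA2]
      simp only [map_mul]
      ring
    rw [← hP, hx0]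
    have hNη' : η0 * s η0 * s (s η0) = algebraMap K F (u * v * n0) := by
      rw [hNη]
      simp only [map_mul]
    rw [← hNη', ← hN]
    ring
  have hC : u * v * n0 * (k0 ^ 2 * x0 ^ 2) * D1 ^ 3 = -(u * v * n0) ^ 3 := by
    apply hinj
    have : algebraMap K F (u * v * n0 * (k0 ^ 2 * x0 ^ 2) * D1 ^ 3) =
        (algebraMap K F (u * v * n0)) * ((algebraMap K F k0) ^ 2 * (algebraMap K F x0) ^ 2) *
      algebraMap K F D1 ^ 3 := by
      simp only [map_mul, map_pow]
    rw [this, hB, map_neg, map_pow]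
  have huvn : u * v * n0 ≠ 0 := mul_ne_zero (mul_ne_zero hu hv) hn0'
  have hD : D1 * (D1 * k0 * x0) ^ 2 = -(u * v * n0) ^ 2 := by
    apply mul_left_cancel₀ huvn
    linear_combination hC
  have hkx : D1 * k0 * x0 ≠ 0 := by
    intro h
    rw [h] at hD
    have h5 : (u * v * n0) ^ 2 = 0 := by linear_combination hD
    exact huvn (pow_eq_zero_iff (two_ne_zero) |>.1 h5)
  set p : K := u * v * n0 / (D1 * k0 * x0) with hp
  have hp2 : D1 = -p ^ 2 := by
    rw [hp, div_pow, ← neg_div, eq_div_iff (pow_ne_zero 2 hkx)]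
    exact hD
  have hp0 : p ≠ 0 := div_ne_zero huvn hkx
  set q : K := -D2 / p with hq
  have hD2 : D2 = -(p * q) := by
    rw [hq]
    field_simp
  have hD3 : D3 = -q ^ 2 := by
    apply mul_left_cancel₀ hD1
    rw [hE]
    rw [hD2, hp2]
    ring
  have hn : v * p ^ 3 + u * q ^ 3 ≠ 0 := ht12 p q hp0
  refine ⟨p, q, hp2, hD2, hD3, hn, ?_⟩
  have hηp := eta_ne (q := algebraMap K F q) h3 hw' (hk p) (hk q) h1 h2 ht1
    (fun h => hp0 (hinj (by rw [h, map_zero])))
  have hηΘp := eta_theta (p := algebraMap K F p) (q := algebraMap K F q) h12 h11 h22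
  refine ⟨ξ * (algebraMap K F p * t1 + algebraMap K F q * t2), mul_ne_zero hξ hηp, ?_⟩
  have hαξ2 : α * ξ ^ 2 = algebraMap K F p ^ 2 * algebraMap K F v * t2 -
      algebraMap K F p * algebraMap K F q * (algebraMap K F u * algebraMap K F v) +
      algebraMap K F q ^ 2 * algebraMap K F u * t1 := by
    rw [← hrec, hp2, hD2, hD3]
    simp only [map_neg, map_mul, map_pow]
    ring
  have hfin : algebraMap K F (u * v * (v * p ^ 3 + u * q ^ 3)) =
      algebraMap K F u * algebraMap K F v *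
        (algebraMap K F v * algebraMap K F p ^ 3 + algebraMap K F u * algebraMap K F q ^ 3) := by
    simp only [map_mul, map_add, map_pow]
  rw [hfin, ← hηΘp, mul_pow, ← mul_assoc, hαξ2]
  ring

end Pool.Agent.H12.WM
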