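import Pool.Agent.H88.A4.Iface
import Pool.Agent.H88.A4.Geo

/-!
# [H12 WM Fib] W1, step 9.4: number of generators of a principal ideal in a box

STATEMENT. `H ≥ 1`: the number of `n ∈ 𝓞 K` with `(n) = J` and `|n|_φ ≤ H` for all `φ` is at most `C' H^ε`.

PROOF. Let `n0` be one of them (`S` not empty; `J = 0` gives `n = 0` only, one element). For `n` in `S`: `n0 = n y` with `y ∈ 𝓞 K`, a unit
(`Ideal.span_singleton_eq_span_singleton`). `nm n ≥ 1` (`one_le_nm`) and `|n|_ψ ≤ H`, so `|n|_φ ≥ H^(-(d-1)) ≥ H^(-d)` for every `φ`, and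
`|y|_φ = |n0|_φ / |n|_φ ≤ H · H^d = H^(d+1)`. `n ↦ (n, y)` is injective into the pairs of `div_pairs (ε / (d+1))` for the number `n0` and the
box `H^(d+1) ≥ H`: at most `C (H^(d+1))^(ε/(d+1)) = C H^ε`. (`C' = max C 1`.)
-/

set_option autoImplicit false

open scoped NumberField

namespace Pool.Agent.H12.WM

open H88.A4

private theorem lower {K : Type} [Field K] [NumberField K] {H : ℝ} (hH : 1 ≤ H) {n : 𝓞 K}
    (hn : n ≠ 0) (hb : Bd H n) (φ : K →+* ℂ) :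
    1 ≤ ‖φ (n : K)‖ * H ^ (Fintype.card (K →+* ℂ)) := by
  classical
  have h1 : (1 : ℝ) ≤ ∏ ψ : K →+* ℂ, ‖ψ (n : K)‖ := one_le_nm K n hn
  have h2 : ∏ ψ : K →+* ℂ, ‖ψ (n : K)‖ =
      ‖φ (n : K)‖ * ∏ ψ ∈ Finset.univ.erase φ, ‖ψ (n : K)‖ :=
    (Finset.mul_prod_erase Finset.univ (fun ψ : K →+* ℂ => ‖ψ (n : K)‖) (Finset.mem_univ φ)).symm
  have h3 : ∏ ψ ∈ Finset.univ.erase φ, ‖ψ (n : K)‖ ≤ H ^ (Fintype.card (K →+* ℂ)) := by
    calc ∏ ψ ∈ Finset.univ.erase φ, ‖ψ (n : K)‖ ≤ ∏ _ψ ∈ Finset.univ.erase φ, H :=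
          Finset.prod_le_prod (fun _ _ => norm_nonneg _) (fun ψ _ => hb ψ)
      _ = H ^ (Finset.univ.erase φ).card := by rw [Finset.prod_const]
      _ ≤ H ^ (Fintype.card (K →+* ℂ)) :=
          pow_le_pow_right₀ hH (Finset.card_le_univ _)
  rw [h2] at h1
  exact h1.trans (mul_le_mul_of_nonneg_left h3 (norm_nonneg _))

theorem gen_card (K : Type) [Field K] [NumberField K] (ε : ℝ) (hε : 0 < ε) :
    ∃ C' : ℝ, 0 < C' ∧ ∀ H : ℝ, 1 ≤ H → ∀ (J : Ideal (𝓞 K)) (S : Finset (𝓞 K)),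
      (∀ n ∈ S, Ideal.span {n} = J ∧ Bd H n) → (S.card : ℝ) ≤ C' * H ^ ε := by
  classical
  set d := Fintype.card (K →+* ℂ) with hd
  have hd0 : (0 : ℝ) < (d : ℝ) + 1 := by positivity
  obtain ⟨C, hC, hdiv⟩ := div_pairs K (ε / ((d : ℝ) + 1)) (by positivity)
  refine ⟨max C 1, by positivity, ?_⟩
  intro H hH J S hS
  have hH0 : (0 : ℝ) < H := by linarith
  have hHε : (1 : ℝ) ≤ H ^ ε := Real.one_le_rpow hH hε.le
  have hone : (1 : ℝ) ≤ max C 1 * H ^ ε := one_le_mul_of_one_le_of_one_le (le_max_right _ _) hHε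
  by_cases hJ : J = ⊥
  · have h1 : S ⊆ {0} := by
      intro n hn
      have h2 := (hS n hn).1
      rw [hJ, Ideal.span_singleton_eq_bot] at h2
      rw [Finset.mem_singleton]
      exact h2
    have h2 := Finset.card_le_card h1
    rw [Finset.card_singleton] at h2
    have h3 : (S.card : ℝ) ≤ 1 := by exact_mod_cast h2
    exact h3.trans hone
  rcases S.eq_empty_or_nonempty with hSe | ⟨n0, hn0⟩
  · rw [hSe, Finset.card_empty, Nat.cast_zero]
    exact zero_le_one.trans hone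
  have hne : ∀ n ∈ S, n ≠ 0 := by
    intro n hn h0
    apply hJ
    rw [← (hS n hn).1, h0, Ideal.span_singleton_eq_bot]
  have hex : ∀ n : 𝓞 K, ∃ y : 𝓞 K, n ∈ S → n * y = n0 := by
    intro n
    by_cases hn : n ∈ S
    · have h1 : Ideal.span {n} = Ideal.span {n0} := by rw [(hS n hn).1, (hS n0 hn0).1]
      rw [Ideal.span_singleton_eq_span_singleton] at h1
      obtain ⟨u, hu⟩ := h1
      exact ⟨u, fun _ => hu⟩
    · exact ⟨0, fun h => absurd h hn⟩
  choose y hy using hex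
  have hcard : (S.image fun n => (n, y n)).card = S.card :=
    Finset.card_image_of_injective _ (fun a b hab => (Prod.ext_iff.1 hab).1)
  have hpow : (1 : ℝ) ≤ H ^ (d + 1) := one_le_pow₀ hH
  have h1 := hdiv (H ^ (d + 1)) hpow n0 (hne n0 hn0) (S.image fun n => (n, y n)) (by
    intro x hx
    rw [Finset.mem_image] at hx
    obtain ⟨n, hn, rfl⟩ := hx
    refine ⟨hy n hn, ?_, ?_⟩
    · intro φ
      refine ((hS n hn).2 φ).trans ?_
      calc H = H ^ 1 := (pow_one H).symm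
        _ ≤ H ^ (d + 1) := pow_le_pow_right₀ hH (by omega)
    · intro φ
      have h2 := lower hH (hne n hn) (hS n hn).2 φ
      have h3 : ‖φ (n : K)‖ * ‖φ (y n : K)‖ = ‖φ (n0 : K)‖ := by
        rw [← norm_mul, ← map_mul]
        congr 2
        exact_mod_cast congrArg (fun z : 𝓞 K => (z : K)) (hy n hn)
      have h4 : ‖φ (n0 : K)‖ ≤ H := (hS n0 hn0).2 φ
      show ‖φ (y n : K)‖ ≤ H ^ (d + 1)
      calc ‖φ (y n : K)‖ = ‖φ (y n : K)‖ * 1 := (mul_one _).symm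
        _ ≤ ‖φ (y n : K)‖ * (‖φ (n : K)‖ * H ^ d) :=
            mul_le_mul_of_nonneg_left h2 (norm_nonneg _)
        _ = (‖φ (n : K)‖ * ‖φ (y n : K)‖) * H ^ d := by ring
        _ = ‖φ (n0 : K)‖ * H ^ d := by rw [h3]
        _ ≤ H * H ^ d := mul_le_mul_of_nonneg_right h4 (by positivity)
        _ = H ^ (d + 1) := by rw [pow_succ]; ring)
  rw [hcard] at h1
  refine h1.trans ?_
  have h2 : (H ^ (d + 1)) ^ (ε / ((d : ℝ) + 1)) = H ^ ε := by
    rw [← Real.rpow_natCast, ← Real.rpow_mul hH0.le]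
    congr 1
    push_cast
    field_simp
  rw [h2]
  exact mul_le_mul_of_nonneg_right (le_max_left _ _) (by positivity)

end Pool.Agent.H12.WM
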