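import Pool.Agent.H12.WM.Jac

/-!
# [H12 WM GcdB] W1, 4.4: `D1, D2, D3 ∈ l^N` implies `9 u⁴ v² ∈ l^N` (every prime ideal `l`)

PROOF. If `9 = 0` in `R` there is nothing to show, the same if `u = 0` or `v = 0`. Let `o(x)` be the exponent of `l` in `x` (`emultiplicity l.asIdeal
(Ideal.span {x})`, or `l.intValuation`; `x ∈ l^k ↔ k ≤ o(x)`, `o(xy) = o(x) + o(y)`). Suppose `N > o(9u⁴v²) = o(9uv²) + 3 o(u)`, `k := o(u)`.
By `jac` with `I = l^N`: `N ≤ o(9uv²) + 3 o(b1)`, so `o(b1) > k`, i.e. `b1 ∈ l^(k+1)`, the same for `b3` and `b1 + 2 b2 + b3`, so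
`2 b2 ∈ l^(k+1)`; `D1 ∈ l^N ⊆ l^(k+1)`. By `e1`: `u = r D1 - (b3 p1² - 2 b2 p1 p2 + b1 p2²) ∈ l^(k+1)`, contradiction to `k = o(u)`.
-/

set_option autoImplicit false

open IsDedekindDomain

namespace Pool.Agent.H12.WM

open H88.A4

private theorem val_mem {R : Type} [CommRing R] [IsDedekindDomain R] (l : HeightOneSpectrum R) (x : R)
    (k : ℕ) : x ∈ l.asIdeal ^ k ↔ (k : ℕ∞) ≤ emultiplicity l.asIdeal (Ideal.span {x}) := by
  rw [← pow_dvd_iff_le_emultiplicity, Ideal.dvd_span_singleton]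

private theorem val_mul {R : Type} [CommRing R] [IsDedekindDomain R] (l : HeightOneSpectrum R) (x y : R) :
    emultiplicity l.asIdeal (Ideal.span {x * y}) =
      emultiplicity l.asIdeal (Ideal.span {x}) + emultiplicity l.asIdeal (Ideal.span {y}) := by
  rw [← Ideal.span_singleton_mul_span_singleton, emultiplicity_mul l.prime]

theorem gcd_le {R : Type} [CommRing R] [IsDedekindDomain R] (l : HeightOneSpectrum R) {β : Blk R}
    {π : Row R} {r r' u v : R} (h : Sol β π r r' u v) {N : ℕ}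
    (h1 : β.D1 ∈ l.asIdeal ^ N) (h2 : β.D2 ∈ l.asIdeal ^ N) (h3 : β.D3 ∈ l.asIdeal ^ N) :
    9 * u ^ 4 * v ^ 2 ∈ l.asIdeal ^ N := by
  by_contra hcon
  obtain ⟨o, ho⟩ : ∃ o : R → ℕ∞, o = fun x => emultiplicity l.asIdeal (Ideal.span {x}) := ⟨_, rfl⟩
  have hm : ∀ (x : R) (k : ℕ), x ∈ l.asIdeal ^ k ↔ (k : ℕ∞) ≤ o x := by
    intro x k
    rw [ho]
    exact val_mem l x k
  have hmul : ∀ x y : R, o (x * y) = o x + o y := by
    intro x y
    rw [ho]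
    exact val_mul l x y
  rw [hm, not_le] at hcon
  have e : o (9 * u ^ 4 * v ^ 2) = o 9 + (o u + o u + o u + o u) + (o v + o v) := by
    have e1 : (9 : R) * u ^ 4 * v ^ 2 = 9 * (u * u * u * u) * (v * v) := by ring
    rw [e1, hmul, hmul, hmul, hmul, hmul, hmul]
  rw [e] at hcon
  have hfin : ∀ x : ℕ∞, x ≤ o 9 + (o u + o u + o u + o u) + (o v + o v) → x ≠ ⊤ := fun x hx =>
    ne_top_of_lt (lt_of_le_of_lt hx hcon)
  have f9 : o 9 ≠ ⊤ := hfin _ (le_add_right (le_add_right le_rfl))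
  have fu : o u ≠ ⊤ := hfin _ (le_add_right (le_add_left le_add_self))
  have fv : o v ≠ ⊤ := hfin _ (le_add_left le_add_self)
  obtain ⟨a, ha⟩ := ENat.ne_top_iff_exists.1 f9
  obtain ⟨k, hk⟩ := ENat.ne_top_iff_exists.1 fu
  obtain ⟨w, hw⟩ := ENat.ne_top_iff_exists.1 fv
  rw [← ha, ← hk, ← hw] at hcon
  have hcon' : a + (k + k + k + k) + (w + w) < N := by exact_mod_cast hcon
  have key : ∀ x : R, 9 * (u * v ^ 2) * x ^ 3 ∈ l.asIdeal ^ N → x ∈ l.asIdeal ^ (k + 1) := by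
    intro x hx
    by_contra hx1
    rw [hm, not_le] at hx1
    obtain ⟨b, hb⟩ := ENat.ne_top_iff_exists.1 (ne_top_of_lt hx1)
    rw [← hb] at hx1
    have hx1' : b < k + 1 := by exact_mod_cast hx1
    rw [hm] at hx
    have e1 : (9 : R) * (u * v ^ 2) * x ^ 3 = 9 * (u * (v * v)) * (x * x * x) := by ring
    rw [e1, hmul, hmul, hmul, hmul, hmul, hmul, ← ha, ← hk, ← hw, ← hb] at hx
    have hx' : N ≤ a + (k + (w + w)) + (b + b + b) := by exact_mod_cast hx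
    omega
  obtain ⟨⟨j1, -⟩, ⟨j3, -⟩, ⟨j2, -⟩⟩ := jac h h1 h2 h3
  have m1 := key _ j1
  have m3 := key _ j3
  have m2 := key _ j2
  have m22 : 2 * β.b2 ∈ l.asIdeal ^ (k + 1) := by
    have h4 := Ideal.sub_mem _ (Ideal.sub_mem _ m2 m1) m3
    have h5 : β.b1 + 2 * β.b2 + β.b3 - β.b1 - β.b3 = 2 * β.b2 := by ring
    rwa [h5] at h4
  have mD : β.D1 ∈ l.asIdeal ^ (k + 1) := Ideal.pow_le_pow_right (by omega) h1
  have mu : u ∈ l.asIdeal ^ (k + 1) := by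
    have h5 : u = r * β.D1 - (π.p1 * π.p1 * β.b3 - π.p1 * π.p2 * (2 * β.b2) + π.p2 * π.p2 * β.b1) := by
      rw [← h.e1]
      unfold Blk.Ab
      ring
    rw [h5]
    exact Ideal.sub_mem _ (Ideal.mul_mem_left _ _ mD) (Ideal.add_mem _ (Ideal.sub_mem _
      (Ideal.mul_mem_left _ _ m3) (Ideal.mul_mem_left _ _ m22)) (Ideal.mul_mem_left _ _ m1))
  rw [hm, ← hk] at mu
  have h6 : k + 1 ≤ k := by exact_mod_cast mu
  omega

end Pool.Agent.H12.WM
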