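import Pool.Agent.H88.A4.Defs

/-!
# [H12 WM Jac] W1, 4.4: consequences of the equations modulo an ideal which contains `D1, D2, D3`

(`jac`) `9 u v² b1³ ∈ I`, `9 u² v c1³ ∈ I`, and the same for `(b3, c3)` and for `(b1 + 2 b2 + b3, c1 + 2 c2 + c3)`.

PROOF. Put `X0 = b1 p2 - b2 p1`, `X1 = b1 q2 + c1 p2 - b2 q1 - c2 p1`, `X2 = c1 q2 - c2 q1`. Jacobi's identity
`det(M) m11 + X² = det(m) (m11 m33 - m13²)` for `M = λB + μC` gives, using `e1 - e4` (all checked by `linear_combination`):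
  `u b1 + X0² = D1 (b1 r - p1²)`,
  `u c1 + 2 X0 X1 = D1 (b1 r' + c1 r - 2 p1 q1) + D2 (b1 r - p1²)`,
  `X1² + 2 X0 X2 = D1 (c1 r' - q1²) + D2 (b1 r' + c1 r - 2 p1 q1) + D3 (b1 r - p1²)`,
  `v b1 + 2 X1 X2 = D2 (c1 r' - q1²) + D3 (b1 r' + c1 r - 2 p1 q1)`,
  `v c1 + X2² = D3 (c1 r' - q1²)`.
So modulo `I`: `u b1 = -X0²`, `u c1 = -2X0X1`, `X1² = -2X0X2`, `v b1 = -2X1X2`, `v c1 = -X2²`. Hence `u v b1 c1 = X0²X2²` and also
`= 4 X0 X1² X2 = -8 X0²X2²`, so `9 X0²X2² = 0`. `v² b1² = 4 X1²X2² = -8 X0 X2³`, times `u b1 = -X0²`: `u v² b1³ = 8 X0³X2³`, times 9: `0`.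
`u² c1² = 4 X0²X1² = -8 X0³ X2`, times `v c1 = -X2²`: `u² v c1³ = 8 X0³X2³`, times 9: `0`.
Work in `R ⧸ I` (`Ideal.Quotient.eq_zero_iff_mem`) or write the coefficients explicitly.
For `(b3, c3)`: apply the first part to the block `(b3, b2, b1, c3, c2, c1)` and the row `(p2, p1, q2, q1)` (`Sol` is symmetric).
For the third: apply it to `b' = (b1+2b2+b3, b2+b3, b3)`, `c'` likewise, row `(p1+p2, p2, q1+q2, q2)` (change of basis `x1 -> x1 + x2`):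
`D1, D2, D3` do not change.
-/

set_option autoImplicit false

namespace Pool.Agent.H12.WM

open H88.A4

variable {R : Type} [CommRing R]

/-- the first diagonal entry -/
theorem jac1 {β : Blk R} {π : Row R} {r r' u v : R} (h : Sol β π r r' u v) {I : Ideal R}
    (h1 : β.D1 ∈ I) (h2 : β.D2 ∈ I) (h3 : β.D3 ∈ I) :
    9 * (u * v ^ 2) * β.b1 ^ 3 ∈ I ∧ 9 * (u ^ 2 * v) * β.c1 ^ 3 ∈ I := by
  obtain ⟨b1, b2, b3, c1, c2, c3⟩ := β
  obtain ⟨p1, p2, q1, q2⟩ := π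
  obtain ⟨e1, e2, e3, e4⟩ := h
  simp only [Blk.D1, Blk.D2, Blk.D3, Blk.Ab, Blk.Ac] at e1 e2 e3 e4 h1 h2 h3 ⊢
  obtain ⟨X0, hX0⟩ : ∃ X, X = b1 * p2 - b2 * p1 := ⟨_, rfl⟩
  obtain ⟨X1, hX1⟩ : ∃ X, X = b1 * q2 + c1 * p2 - b2 * q1 - c2 * p1 := ⟨_, rfl⟩
  obtain ⟨X2, hX2⟩ : ∃ X, X = c1 * q2 - c2 * q1 := ⟨_, rfl⟩
  obtain ⟨D1, hD1⟩ : ∃ D, D = b1 * b3 - b2 ^ 2 := ⟨_, rfl⟩
  obtain ⟨D2, hD2⟩ : ∃ D, D = b1 * c3 + b3 * c1 - 2 * b2 * c2 := ⟨_, rfl⟩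
  obtain ⟨D3, hD3⟩ : ∃ D, D = c1 * c3 - c2 ^ 2 := ⟨_, rfl⟩
  have f1 : u * b1 + X0 ^ 2 = D1 * (b1 * r - p1 ^ 2) := by
    rw [hX0, hD1]
    linear_combination (-b1) * e1
  have f2 : u * c1 + 2 * X0 * X1 = D1 * (b1 * r' + c1 * r - 2 * p1 * q1) +
      D2 * (b1 * r - p1 ^ 2) := by
    rw [hX0, hX1, hD1, hD2]
    linear_combination (-c1) * e1 + (-b1) * e2
  have f3 : X1 ^ 2 + 2 * X0 * X2 = D1 * (c1 * r' - q1 ^ 2) +
      D2 * (b1 * r' + c1 * r - 2 * p1 * q1) + D3 * (b1 * r - p1 ^ 2) := by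
    rw [hX0, hX1, hX2, hD1, hD2, hD3]
    linear_combination (-c1) * e2 + (-b1) * e3
  have f4 : v * b1 + 2 * X1 * X2 = D2 * (c1 * r' - q1 ^ 2) +
      D3 * (b1 * r' + c1 * r - 2 * p1 * q1) := by
    rw [hX1, hX2, hD2, hD3]
    linear_combination (-b1) * e4 + (-c1) * e3
  have f5 : v * c1 + X2 ^ 2 = D3 * (c1 * r' - q1 ^ 2) := by
    rw [hX2, hD3]
    linear_combination (-c1) * e4
  rw [← hD1] at h1
  rw [← hD2] at h2
  rw [← hD3] at h3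
  clear hD1 hD2 hD3 hX0 hX1 hX2 e1 e2 e3 e4
  have k1 := Ideal.Quotient.eq_zero_iff_mem.2 h1
  have k2 := Ideal.Quotient.eq_zero_iff_mem.2 h2
  have k3 := Ideal.Quotient.eq_zero_iff_mem.2 h3
  have g1 := congrArg (Ideal.Quotient.mk I) f1
  have g2 := congrArg (Ideal.Quotient.mk I) f2
  have g3 := congrArg (Ideal.Quotient.mk I) f3
  have g4 := congrArg (Ideal.Quotient.mk I) f4
  have g5 := congrArg (Ideal.Quotient.mk I) f5
  simp only [map_add, map_mul, map_pow, map_ofNat, k1, k2, k3, zero_mul, add_zero] at g1 g2 g3 g4 g5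
  rw [← Ideal.Quotient.eq_zero_iff_mem, ← Ideal.Quotient.eq_zero_iff_mem]
  simp only [map_mul, map_pow, map_ofNat]
  generalize Ideal.Quotient.mk I u = u' at *
  generalize Ideal.Quotient.mk I v = v' at *
  generalize Ideal.Quotient.mk I b1 = B at *
  generalize Ideal.Quotient.mk I c1 = C at *
  generalize Ideal.Quotient.mk I X0 = Y0 at *
  generalize Ideal.Quotient.mk I X1 = Y1 at *
  generalize Ideal.Quotient.mk I X2 = Y2 at *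
  have r1 : u' * B = -Y0 ^ 2 := by linear_combination g1
  have r2 : u' * C = -(2 * Y0 * Y1) := by linear_combination g2
  have r4 : v' * B = -(2 * Y1 * Y2) := by linear_combination g4
  have r5 : v' * C = -Y2 ^ 2 := by linear_combination g5
  have e : (u' * B) * (v' * C) = (u' * C) * (v' * B) := by ring
  rw [r1, r5, r2, r4] at e
  have h0 : 9 * Y0 ^ 2 * Y2 ^ 2 = 0 := by linear_combination e + 4 * Y0 * Y2 * g3
  constructor
  · have h4 : 9 * (u' * v' ^ 2) * B ^ 3 = 9 * (u' * B) * (v' * B) ^ 2 := by ring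
    rw [h4, r1, r4]
    linear_combination (-4 * Y1 ^ 2) * h0
  · have h4 : 9 * (u' ^ 2 * v') * C ^ 3 = 9 * (u' * C) ^ 2 * (v' * C) := by ring
    rw [h4, r2, r5]
    linear_combination (-4 * Y1 ^ 2) * h0

/-- all three -/
theorem jac {β : Blk R} {π : Row R} {r r' u v : R} (h : Sol β π r r' u v) {I : Ideal R}
    (h1 : β.D1 ∈ I) (h2 : β.D2 ∈ I) (h3 : β.D3 ∈ I) :
    (9 * (u * v ^ 2) * β.b1 ^ 3 ∈ I ∧ 9 * (u ^ 2 * v) * β.c1 ^ 3 ∈ I) ∧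
    (9 * (u * v ^ 2) * β.b3 ^ 3 ∈ I ∧ 9 * (u ^ 2 * v) * β.c3 ^ 3 ∈ I) ∧
    (9 * (u * v ^ 2) * (β.b1 + 2 * β.b2 + β.b3) ^ 3 ∈ I ∧
      9 * (u ^ 2 * v) * (β.c1 + 2 * β.c2 + β.c3) ^ 3 ∈ I) := by
  refine ⟨jac1 h h1 h2 h3, ?_, ?_⟩
  · obtain ⟨b1, b2, b3, c1, c2, c3⟩ := β
    obtain ⟨p1, p2, q1, q2⟩ := π
    obtain ⟨e1, e2, e3, e4⟩ := h
    have hS : Sol (⟨b3, b2, b1, c3, c2, c1⟩ : Blk R) (⟨p2, p1, q2, q1⟩ : Row R) r r' u v := by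
      simp only [Blk.D1, Blk.D2, Blk.D3, Blk.Ab, Blk.Ac] at e1 e2 e3 e4
      refine ⟨?_, ?_, ?_, ?_⟩ <;> simp only [Blk.D1, Blk.D2, Blk.D3, Blk.Ab, Blk.Ac]
      · linear_combination e1
      · linear_combination e2
      · linear_combination e3
      · linear_combination e4
    refine jac1 hS ?_ ?_ ?_
    · simp only [Blk.D1] at h1 ⊢
      rwa [mul_comm b3 b1]
    · simp only [Blk.D2] at h2 ⊢
      rwa [add_comm (b3 * c1)]
    · simp only [Blk.D3] at h3 ⊢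
      rwa [mul_comm c3 c1]
  · obtain ⟨b1, b2, b3, c1, c2, c3⟩ := β
    obtain ⟨p1, p2, q1, q2⟩ := π
    obtain ⟨e1, e2, e3, e4⟩ := h
    have hS : Sol (⟨b1 + 2 * b2 + b3, b2 + b3, b3, c1 + 2 * c2 + c3, c2 + c3, c3⟩ : Blk R)
        (⟨p1 + p2, p2, q1 + q2, q2⟩ : Row R) r r' u v := by
      simp only [Blk.D1, Blk.D2, Blk.D3, Blk.Ab, Blk.Ac] at e1 e2 e3 e4
      refine ⟨?_, ?_, ?_, ?_⟩ <;> simp only [Blk.D1, Blk.D2, Blk.D3, Blk.Ab, Blk.Ac]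
      · linear_combination e1
      · linear_combination e2
      · linear_combination e3
      · linear_combination e4
    refine jac1 hS ?_ ?_ ?_
    · simp only [Blk.D1] at h1 ⊢
      have e : (b1 + 2 * b2 + b3) * b3 - (b2 + b3) ^ 2 = b1 * b3 - b2 ^ 2 := by ring
      rwa [e]
    · simp only [Blk.D2] at h2 ⊢
      have e : (b1 + 2 * b2 + b3) * c3 + b3 * (c1 + 2 * c2 + c3) - 2 * (b2 + b3) * (c2 + c3) =
          b1 * c3 + b3 * c1 - 2 * b2 * c2 := by ring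
      rwa [e]
    · simp only [Blk.D3] at h3 ⊢
      have e : (c1 + 2 * c2 + c3) * c3 - (c2 + c3) ^ 2 = c1 * c3 - c2 ^ 2 := by ring
      rwa [e]

end Pool.Agent.H12.WM
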