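import Pool.Agent.H12.WM.Fib

/-!
# [H12 WM NcG] W1, step 9.4 and 9': number of `n` with a bounded squarefree part, general sizes

STATEMENT. For given `p, q ≠ 0` of size at most `H`, the number of `n ≠ 0` of size at most `Y` with `(n) = b0 g1 g2 m²`, `b0 ∣ (D)`,
`p ∈ g1`, `q ∈ g2` is at most `C' (H Y)^ε Y^(d/2)`.

PROOF. Choose `(b0, g1, g2, m)` for every `n ∈ S`. The number of possible `b0`: at most `C1` (`ideal_div` with `I = (D) ≠ 0`). `g1 ∣ (p)`, `p ≠ 0`: at most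
`C2 N((p))^δ`, `N((p)) = nm p ≤ H^d` (`nm_eq`; product over the `d` embeddings; `Pool.Agent.H63.W1` has such lemmas, `nm_le`). `g2 ∣ (q)`: the same.
`m`: `N(m)² ≤ N((n)) = nm n ≤ Y^d` (`b0, g1, g2 ≠ 0` have norm `≥ 1`), so `N(m) ≤ Y^(d/2)`: at most `C3 Y^(d/2)` by `ideal_card` (`m ≠ 0`). For a given quadruple the ideal
`(n)` is given: at most `C4 Y^δ` values of `n` by `gen_card`. Product: `C1 C2² C3 C4 H^(2dδ) Y^(d/2 + δ)`; choose `δ = ε / (2 d + 1)`.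
(This is Nc.lean with free `H`, `Y`; if Nc.lean is already proved, copy its proof.)
-/

set_option autoImplicit false

open scoped NumberField

namespace Pool.Agent.H12.WM

open H88.A4

theorem n_card_gen (K : Type) [Field K] [NumberField K] (D : ℕ) (hD : D ≠ 0) (ε : ℝ) (hε : 0 < ε) :
    ∃ C' : ℝ, 0 < C' ∧ ∀ H Y : ℝ, 1 ≤ H → 1 ≤ Y → ∀ p q : 𝓞 K, p ≠ 0 → q ≠ 0 → Bd H p →
      Bd H q → ∀ S : Finset (𝓞 K),
      (∀ n ∈ S, n ≠ 0 ∧ Bd Y n ∧ ∃ b0 g1 g2 m : Ideal (𝓞 K),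
        Ideal.span {n} = b0 * g1 * g2 * m ^ 2 ∧ b0 ∣ Ideal.span {(D : 𝓞 K)} ∧ p ∈ g1 ∧ q ∈ g2) →
      (S.card : ℝ) ≤ C' * (H * Y) ^ ε * Y ^ (1 / 2 * (Module.finrank ℚ K : ℝ)) := by
  classical
  set d : ℕ := Module.finrank ℚ K with hd
  have hd1 : (0 : ℝ) ≤ d := Nat.cast_nonneg _
  set δ : ℝ := ε / (2 * (d : ℝ) + 1) with hδ
  have hδ0 : 0 < δ := by positivity
  have hδε : δ ≤ ε := by
    rw [hδ]
    exact div_le_self hε.le (by linarith)
  have hδd : (d : ℝ) * δ + (d : ℝ) * δ ≤ ε := by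
    have h1 : (2 * (d : ℝ) + 1) * δ = ε := by
      rw [hδ]; field_simp
    nlinarith
  obtain ⟨Cd, hCd, hdiv⟩ := ideal_div d δ hδ0
  obtain ⟨C3, hC3, hcard⟩ := ideal_card K
  obtain ⟨C4, hC4, hgen⟩ := gen_card K δ hδ0
  have hDK : (D : 𝓞 K) ≠ 0 := Nat.cast_ne_zero.2 hD
  have hspanD : Ideal.span {(D : 𝓞 K)} ≠ ⊥ := by
    rw [Ne, Ideal.span_singleton_eq_bot]; exact hDK
  set ND : ℝ := (Ideal.absNorm (Ideal.span {(D : 𝓞 K)}) : ℝ) with hND
  have hND0 : 0 < ND := by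
    rw [hND]
    exact_mod_cast Nat.pos_of_ne_zero (by rwa [Ne, Ideal.absNorm_eq_zero_iff])
  refine ⟨(Cd * ND ^ δ) * Cd * Cd * C3 * C4, by positivity, ?_⟩
  intro H Y hH hY p q hp hq hBp hBq S hS
  have hH0 : 0 < H := by linarith
  have hY0 : 0 < Y := by linarith
  set W : ℝ := Y ^ (1 / 2 * (d : ℝ)) with hW
  have hW1 : 1 ≤ W := Real.one_le_rpow hY (by positivity)
  have hW2 : W ^ 2 = Y ^ d := by
    rw [hW, ← Real.rpow_natCast, ← Real.rpow_mul hY0.le, ← Real.rpow_natCast]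
    congr 1
    push_cast
    ring
  -- choices
  have hex : ∀ n : 𝓞 K, ∃ t : Ideal (𝓞 K) × Ideal (𝓞 K) × Ideal (𝓞 K) × Ideal (𝓞 K), n ∈ S →
      Ideal.span {n} = t.1 * t.2.1 * t.2.2.1 * t.2.2.2 ^ 2 ∧ t.1 ∣ Ideal.span {(D : 𝓞 K)} ∧
        p ∈ t.2.1 ∧ q ∈ t.2.2.1 := by
    intro n
    by_cases hn : n ∈ S
    · obtain ⟨-, -, b0, g1, g2, m, h1⟩ := hS n hn
      exact ⟨(b0, g1, g2, m), fun _ => h1⟩
    · exact ⟨(⊥, ⊥, ⊥, ⊥), fun h => absurd h hn⟩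
  choose t ht using hex
  have hnm : ∀ x : 𝓞 K, ∀ R : ℝ, Bd R x → (Ideal.absNorm (Ideal.span {x}) : ℝ) ≤ R ^ d := by
    intro x R hx
    rw [← nm_eq]
    exact Pool.H63.W1.nm_le hx
  -- the four sets of ideals
  have hB : ((S.image fun n => (t n).1).card : ℝ) ≤ Cd * ND ^ δ := by
    refine hdiv K le_rfl _ hspanD _ ?_
    intro J hJ
    obtain ⟨n, hn, rfl⟩ := Finset.mem_image.1 hJ
    exact (ht n hn).2.1
  have hG : ∀ x : 𝓞 K, x ≠ 0 → Bd H x → ∀ T : Finset (Ideal (𝓞 K)), (∀ J ∈ T, x ∈ J) →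
      (T.card : ℝ) ≤ Cd * H ^ ((d : ℝ) * δ) := by
    intro x hx hBx T hT
    have hne : Ideal.span {x} ≠ ⊥ := by
      rw [Ne, Ideal.span_singleton_eq_bot]; exact hx
    have h1 := hdiv K le_rfl _ hne T (fun J hJ => Ideal.dvd_span_singleton.2 (hT J hJ))
    refine h1.trans (mul_le_mul_of_nonneg_left ?_ hCd.le)
    calc (Ideal.absNorm (Ideal.span {x}) : ℝ) ^ δ ≤ (H ^ d) ^ δ :=
          Real.rpow_le_rpow (Nat.cast_nonneg _) (hnm x H hBx) hδ0.le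
      _ = H ^ ((d : ℝ) * δ) := by
          rw [← Real.rpow_natCast, ← Real.rpow_mul hH0.le]
  have hG1 : ((S.image fun n => (t n).2.1).card : ℝ) ≤ Cd * H ^ ((d : ℝ) * δ) := by
    refine hG p hp hBp _ ?_
    intro J hJ
    obtain ⟨n, hn, rfl⟩ := Finset.mem_image.1 hJ
    exact (ht n hn).2.2.1
  have hG2 : ((S.image fun n => (t n).2.2.1).card : ℝ) ≤ Cd * H ^ ((d : ℝ) * δ) := by
    refine hG q hq hBq _ ?_
    intro J hJ
    obtain ⟨n, hn, rfl⟩ := Finset.mem_image.1 hJ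
    exact (ht n hn).2.2.2
  have hM : ((S.image fun n => (t n).2.2.2).card : ℝ) ≤ C3 * W := by
    refine hcard W hW1 _ ?_
    intro J hJ
    obtain ⟨n, hn, rfl⟩ := Finset.mem_image.1 hJ
    have h1 := (ht n hn).1
    have hn0 : Ideal.span {n} ≠ ⊥ := by
      rw [Ne, Ideal.span_singleton_eq_bot]; exact (hS n hn).1
    have hne : (t n).1 * (t n).2.1 * (t n).2.2.1 * (t n).2.2.2 ^ 2 ≠ 0 := by
      rw [← h1]; exact hn0
    have hm0 : (t n).2.2.2 ≠ ⊥ := by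
      intro h0
      apply hne
      rw [h0, ← Ideal.zero_eq_bot]
      ring
    refine ⟨hm0, ?_⟩
    have h2 : Ideal.absNorm (Ideal.span {n}) = Ideal.absNorm ((t n).1 * (t n).2.1 * (t n).2.2.1) *
        Ideal.absNorm (t n).2.2.2 ^ 2 := by
      rw [h1, map_mul, map_pow]
    have h3 : 1 ≤ Ideal.absNorm ((t n).1 * (t n).2.1 * (t n).2.2.1) := by
      apply Nat.pos_of_ne_zero
      rw [Ne, Ideal.absNorm_eq_zero_iff, ← Ideal.zero_eq_bot]
      exact left_ne_zero_of_mul hne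
    have h4 : Ideal.absNorm (t n).2.2.2 ^ 2 ≤ Ideal.absNorm (Ideal.span {n}) := by
      rw [h2]
      exact Nat.le_mul_of_pos_left _ h3
    have h5 : ((Ideal.absNorm (t n).2.2.2 : ℕ) : ℝ) ^ 2 ≤ W ^ 2 := by
      rw [hW2]
      refine le_trans ?_ (hnm n Y (hS n hn).2.1)
      exact_mod_cast h4
    exact (pow_le_pow_iff_left₀ (Nat.cast_nonneg _) (by positivity) two_ne_zero).1 h5
  have hT : ((S.image t).card : ℝ) ≤
      (Cd * ND ^ δ) * ((Cd * H ^ ((d : ℝ) * δ)) * ((Cd * H ^ ((d : ℝ) * δ)) * (C3 * W))) := by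
    have h1 : S.image t ⊆ (S.image fun n => (t n).1) ×ˢ ((S.image fun n => (t n).2.1) ×ˢ
        ((S.image fun n => (t n).2.2.1) ×ˢ (S.image fun n => (t n).2.2.2))) := by
      intro x hx
      obtain ⟨n, hn, rfl⟩ := Finset.mem_image.1 hx
      simp only [Finset.mem_product]
      exact ⟨Finset.mem_image_of_mem _ hn, Finset.mem_image_of_mem _ hn,
        Finset.mem_image_of_mem _ hn, Finset.mem_image_of_mem _ hn⟩
    have h2 := Finset.card_le_card h1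
    rw [Finset.card_product, Finset.card_product, Finset.card_product] at h2
    have h3 : ((S.image t).card : ℝ) ≤ ((S.image fun n => (t n).1).card : ℝ) *
        (((S.image fun n => (t n).2.1).card : ℝ) * (((S.image fun n => (t n).2.2.1).card : ℝ) *
          ((S.image fun n => (t n).2.2.2).card : ℝ))) := by
      exact_mod_cast h2
    refine h3.trans ?_
    gcongr
  have hfib : ∀ x ∈ S.image t, ((S.filter fun n => t n = x).card : ℝ) ≤ C4 * Y ^ δ := by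
    intro x _
    refine hgen Y hY (x.1 * x.2.1 * x.2.2.1 * x.2.2.2 ^ 2) _ ?_
    intro n hn
    obtain ⟨hnS, hnx⟩ := Finset.mem_filter.1 hn
    have h1 := (ht n hnS).1
    rw [hnx] at h1
    exact ⟨h1, (hS n hnS).2.1⟩
  have hsum : (S.card : ℝ) ≤ ((S.image t).card : ℝ) * (C4 * Y ^ δ) := by
    rw [Finset.card_eq_sum_card_image t S]
    push_cast
    refine (Finset.sum_le_sum hfib).trans ?_
    rw [Finset.sum_const, nsmul_eq_mul]
  have hHe : H ^ ((d : ℝ) * δ) * H ^ ((d : ℝ) * δ) ≤ H ^ ε := by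
    rw [← Real.rpow_add hH0]
    exact Real.rpow_le_rpow_of_exponent_le hH hδd
  have hYe : Y ^ δ ≤ Y ^ ε := Real.rpow_le_rpow_of_exponent_le hY hδε
  rw [Real.mul_rpow hH0.le hY0.le]
  calc (S.card : ℝ) ≤ ((S.image t).card : ℝ) * (C4 * Y ^ δ) := hsum
    _ ≤ (Cd * ND ^ δ) * ((Cd * H ^ ((d : ℝ) * δ)) * ((Cd * H ^ ((d : ℝ) * δ)) * (C3 * W))) *
        (C4 * Y ^ δ) := mul_le_mul_of_nonneg_right hT (by positivity)
    _ = (Cd * ND ^ δ) * Cd * Cd * C3 * C4 * ((H ^ ((d : ℝ) * δ) * H ^ ((d : ℝ) * δ)) * Y ^ δ) *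
        W := by ring
    _ ≤ (Cd * ND ^ δ) * Cd * Cd * C3 * C4 * (H ^ ε * Y ^ ε) * W := by
        gcongr

end Pool.Agent.H12.WM
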