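import Pool.Agent.H12.WM.Rel

/-!
# [H12 WM Nrm] W1, step 9: the norm of `x0 + x1 t1 + x2 t2`

STATEMENT. `N(x0 + x1 t1 + x2 t2) = x0 ^ 3 + x1 ^ 3 u v ^ 2 + x2 ^ 3 u ^ 2 v - 3 x0 x1 x2 u v`.

PROOF. Multiplication by `z = x0 + x1 t1 + x2 t2` in the basis `B = (1, t1, t2)` (hypotheses `hB0 hB1 hB2`): `z 1 = z`,
`z t1 = x0 t1 + x1 v t2 + x2 u v`, `z t2 = x0 t2 + x1 u v + x2 u t1`. So the matrix `Algebra.leftMulMatrix B z` has the columns
`(x0, x1, x2)`, `(x2 u v, x0, x1 v)`, `(x1 u v, x2 u, x0)`; `Algebra.norm_eq_matrix_det B`, `Matrix.det_fin_three`, `ring`.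
For the entries: `Algebra.leftMulMatrix_eq_repr_mul` and `B.repr` of a combination: write the product as
`y0 • B 0 + y1 • B 1 + y2 • B 2`, then `map_add`, `map_smul`, `Module.Basis.repr_self`, `Finsupp.single_apply`.
-/

set_option autoImplicit false

open scoped NumberField

namespace Pool.Agent.H12.WM

theorem norm_lin {K F : Type} [Field K] [Field F] [Algebra K F] (B : Module.Basis (Fin 3) K F) {u v : K}
    {t1 t2 : F} (hB0 : B 0 = 1) (hB1 : B 1 = t1) (hB2 : B 2 = t2)
    (h11 : t1 ^ 2 = algebraMap K F v * t2) (h22 : t2 ^ 2 = algebraMap K F u * t1)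
    (h12 : t1 * t2 = algebraMap K F (u * v)) (x0 x1 x2 : K) :
    Algebra.norm K (algebraMap K F x0 + algebraMap K F x1 * t1 + algebraMap K F x2 * t2) =
      x0 ^ 3 + x1 ^ 3 * (u * v ^ 2) + x2 ^ 3 * (u ^ 2 * v) - 3 * x0 * x1 * x2 * (u * v) := by
  have key : ∀ j : Fin 3, (algebraMap K F x0 + algebraMap K F x1 * t1 + algebraMap K F x2 * t2)
      * B j = ∑ i, (!![x0, u * v * x2, u * v * x1; x1, x0, u * x2; x2, v * x1, x0] :
        Matrix (Fin 3) (Fin 3) K) i j • B i := by
    intro j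
    rw [Fin.sum_univ_three, hB0, hB1, hB2]
    fin_cases j
    · simp [hB0, Algebra.smul_def]
    · simp [hB1, Algebra.smul_def]
      rw [map_mul] at h12
      linear_combination (algebraMap K F x1) * h11 + (algebraMap K F x2) * h12
    · simp [hB2, Algebra.smul_def]
      rw [map_mul] at h12
      linear_combination (algebraMap K F x2) * h22 + (algebraMap K F x1) * h12
  have hmat : Algebra.leftMulMatrix B
      (algebraMap K F x0 + algebraMap K F x1 * t1 + algebraMap K F x2 * t2)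
      = !![x0, u * v * x2, u * v * x1; x1, x0, u * x2; x2, v * x1, x0] := by
    ext i j
    rw [Algebra.leftMulMatrix_eq_repr_mul, key j, B.repr_sum_self]
  rw [Algebra.norm_eq_matrix_det B, hmat, Matrix.det_fin_three]
  simp
  ring

end Pool.Agent.H12.WM
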