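import Mathlib

/-!
# W1 (MP_b39724_nt), step 9.1: recovery of the class of `α` from the upper left blocks

`F / K` cubic with an automorphism `s`, `s t1 = ω t1`, `s t2 = ω² t2`, `t1 t2 = uv`, `t1² = v t2`, `t2² = u t1`,
`m α xᵢ xⱼ = aᵢⱼ + bᵢⱼ t1 + cᵢⱼ t2` for `i, j ∈ {1, 2}`, `N α = k0²`.  Then
`-(D1 v t2 - D2 u v + D3 u t1) = α ξ²` with `ξ = m k0 δ / ((ω - ω²) α)`, `δ = s x1 s² x2 - s x2 s² x1`.
-/

set_option autoImplicit false

namespace Pool.Agent.H12.WM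

/-- the identity behind the recovery, in a commutative ring -/
theorem core_identity {R : Type*} [CommRing R] {e A A' X1 X2 Y1 Y2 P11 P12 P22 : R}
    (h11 : e * P11 = A * X1 * X1 - A' * Y1 * Y1) (h12 : e * P12 = A * X1 * X2 - A' * Y1 * Y2)
    (h22 : e * P22 = A * X2 * X2 - A' * Y2 * Y2) :
    e ^ 2 * (P11 * P22 - P12 ^ 2) = -(A * A' * (X1 * Y2 - X2 * Y1) ^ 2) := by
  have h : e ^ 2 * (P11 * P22 - P12 ^ 2) = (e * P11) * (e * P22) - (e * P12) ^ 2 := by ring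
  rw [h, h11, h12, h22]
  ring

/-- `x1, x2` independent over the fixed field of `s`: the determinant `δ` is not zero -/
theorem delta_ne {F : Type*} [Field F] {s : F →+* F} (hs : ∀ x, s (s (s x)) = x) {x1 x2 : F}
    (h2 : x2 ≠ 0) (hind : ∀ y : F, s y = y → x1 ≠ y * x2) :
    s x1 * s (s x2) - s x2 * s (s x1) ≠ 0 := by
  intro h
  have hs2 : s x2 ≠ 0 := (map_ne_zero s).2 h2
  have hs3 : s (s x2) ≠ 0 := (map_ne_zero s).2 hs2
  refine hind (x1 / x2) ?_ (by field_simp)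
  have h1 : s (s (x1 / x2)) = s (x1 / x2) := by
    rw [map_div₀, map_div₀, div_eq_div_iff hs3 hs2]
    linear_combination -h
  have h3 := congrArg s h1
  rw [hs] at h3
  exact h1.symm.trans h3.symm

/-- one entry: `e (b t1 - c t2) = s z - s² z` -/
theorem entry {F : Type*} [Field F] {s : F →+* F} {w a b c t1 t2 z : F} (hw : w ^ 2 + w + 1 = 0)
    (hsw : s w = w) (hsa : s a = a) (hsb : s b = b) (hsc : s c = c) (h1 : s t1 = w * t1)
    (h2 : s t2 = w ^ 2 * t2) (hz : z = a + b * t1 + c * t2) :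
    (w - w ^ 2) * (b * t1 - c * t2) = s z - s (s z) := by
  have h3 : s z = a + b * (w * t1) + c * (w ^ 2 * t2) := by
    rw [hz]
    simp only [map_add, map_mul, hsa, hsb, hsc, h1, h2]
  have h4 : s (s z) = a + b * (w * (w * t1)) + c * (w ^ 2 * (w ^ 2 * t2)) := by
    rw [h3]
    simp only [map_add, map_mul, map_pow, hsa, hsb, hsc, h1, h2, hsw]
  rw [h4, h3]
  linear_combination (c * t2 * w ^ 2 - c * t2 * w) * hw

/-- **the recovery identity**: `-(D1 v t2 - D2 u v + D3 u t1) = α ξ²`. All letters are in `F`; the letters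
`w, u, v, m, k0, b, c` are fixed by `s` (they come from `K`). -/
theorem recovery {F : Type*} [Field F] (h3 : (3 : F) ≠ 0) {s : F →+* F}
    {w u v m k0 t1 t2 α x1 x2 a11 a12 a22 b11 b12 b22 c11 c12 c22 : F} (hw : w ^ 2 + w + 1 = 0)
    (hsw : s w = w) (hsm : s m = m)
    (h1 : s t1 = w * t1) (h2 : s t2 = w ^ 2 * t2) (h12 : t1 * t2 = u * v) (h11 : t1 ^ 2 = v * t2)
    (h22 : t2 ^ 2 = u * t1) (hα : α ≠ 0) (hN : α * s α * s (s α) = k0 ^ 2)
    (ha11 : s a11 = a11) (ha12 : s a12 = a12) (ha22 : s a22 = a22)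
    (hb11 : s b11 = b11) (hb12 : s b12 = b12) (hb22 : s b22 = b22)
    (hc11 : s c11 = c11) (hc12 : s c12 = c12) (hc22 : s c22 = c22)
    (z11 : m * α * x1 * x1 = a11 + b11 * t1 + c11 * t2)
    (z12 : m * α * x1 * x2 = a12 + b12 * t1 + c12 * t2)
    (z22 : m * α * x2 * x2 = a22 + b22 * t1 + c22 * t2) :
    -((b11 * b22 - b12 ^ 2) * v * t2 - (b11 * c22 + b22 * c11 - 2 * b12 * c12) * (u * v) +
        (c11 * c22 - c12 ^ 2) * u * t1) =
      α * (m * k0 * (s x1 * s (s x2) - s x2 * s (s x1)) / ((w - w ^ 2) * α)) ^ 2 := by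
  have he : (w - w ^ 2) ^ 2 = -3 := by linear_combination (w ^ 2 - 3 * w + 3) * hw
  have he0 : w - w ^ 2 ≠ 0 := by
    intro h
    rw [h] at he
    exact h3 (by linear_combination he)
  have e11 := entry hw hsw ha11 hb11 hc11 h1 h2 z11
  have e12 := entry hw hsw ha12 hb12 hc12 h1 h2 z12
  have e22 := entry hw hsw ha22 hb22 hc22 h1 h2 z22
  simp only [map_mul, hsm] at e11 e12 e22
  have hc := core_identity (e := w - w ^ 2) (A := m * s α) (A' := m * s (s α)) (X1 := s x1) (X2 := s x2)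
    (Y1 := s (s x1)) (Y2 := s (s x2)) e11 e12 e22
  have hP : (b11 * t1 - c11 * t2) * (b22 * t1 - c22 * t2) - (b12 * t1 - c12 * t2) ^ 2 =
      (b11 * b22 - b12 ^ 2) * v * t2 - (b11 * c22 + b22 * c11 - 2 * b12 * c12) * (u * v) +
        (c11 * c22 - c12 ^ 2) * u * t1 := by
    linear_combination (b11 * b22 - b12 ^ 2) * h11 -
      (b11 * c22 + b22 * c11 - 2 * b12 * c12) * h12 + (c11 * c22 - c12 ^ 2) * h22
  rw [hP] at hc
  set Θ := (b11 * b22 - b12 ^ 2) * v * t2 - (b11 * c22 + b22 * c11 - 2 * b12 * c12) * (u * v) +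
        (c11 * c22 - c12 ^ 2) * u * t1 with hΘ
  set δ := s x1 * s (s x2) - s x2 * s (s x1) with hδ
  have h5 : (w - w ^ 2) ^ 2 * α * (-Θ) = (m * k0 * δ) ^ 2 := by
    linear_combination -α * hc + m ^ 2 * δ ^ 2 * hN
  have hne : (w - w ^ 2) * α ≠ 0 := mul_ne_zero he0 hα
  rw [div_pow, mul_div_assoc', eq_div_iff (pow_ne_zero 2 hne)]
  linear_combination α * h5

end Pool.Agent.H12.WM
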