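import Pool.Agent.H88.A4.Iface

/-!
# [H12 WM Rel] W1 (MP_b39724_nt), step 9: the relations and the basis `1, t1, t2` of `F / K`

(`dat_rel`) `t1 ^ 2 = v t2`, `t2 ^ 2 = u t1`.

PROOF. `t1 ≠ 0` (its cube is `u v ^ 2 ≠ 0`). `t1 ^ 3 = u v ^ 2 = v (t1 t2)`: cancel `t1`. `t1 (t2 ^ 2) = (t1 t2) t2 = u v t2 = u (t1 ^ 2)`: cancel `t1`.

(`dat_basis`) `1, t1, t2` is a basis of `F / K`.

PROOF. `K(t1) = F` has degree 3, so the minimal polynomial of `t1` has degree 3 and `1, t1, t1 ^ 2` is a basis
(`IntermediateField.adjoin.powerBasis`, `(IntermediateField.adjoin.finrank ..)`, or: `linearIndependent_pow` gives linear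
independence of `t1 ^ i`, `i < (minpoly K t1).natDegree`, `(minpoly K t1).natDegree = finrank K K⟮t1⟯ = finrank K F = 3`
(`IntermediateField.adjoin.finrank`, `IntermediateField.finrank_top'`)); `t2 = v⁻¹ t1 ^ 2`, so `1, t1, t2` is linearly independent as well
(`LinearIndependent.units_smul`, or by hand: a relation `x + y t1 + z t2 = 0` gives `x v + y v t1 + z t1 ^ 2 = 0`), three independent
vectors in a space of dimension 3: `basisOfLinearIndependentOfCardEqFinrank`.
-/

set_option autoImplicit false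

open scoped NumberField

namespace Pool.Agent.H12.WM

open H88.A4

variable {K F : Type} [Field K] [NumberField K] [Field F] [NumberField F] [Algebra K F]

theorem dat_rel {u v : 𝓞 K} {t1 t2 a : F} (h : Dat F u v t1 t2 a) (hu : u ≠ 0) (hv : v ≠ 0) :
    t1 ^ 2 = algebraMap K F (v : K) * t2 ∧ t2 ^ 2 = algebraMap K F (u : K) * t1 := by
  have hu' : algebraMap K F (u : K) ≠ 0 := by
    rw [Ne, map_eq_zero]
    exact_mod_cast hu
  have hv' : algebraMap K F (v : K) ≠ 0 := by
    rw [Ne, map_eq_zero]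
    exact_mod_cast hv
  have hc := h.cub
  have hp := h.prd
  simp only [map_mul, map_pow] at hc hp
  have ht1 : t1 ≠ 0 := by
    rintro rfl
    rw [zero_mul] at hp
    exact mul_ne_zero hu' hv' hp.symm
  have h1 : t1 ^ 2 = algebraMap K F (v : K) * t2 := by
    apply mul_left_cancel₀ ht1
    linear_combination hc - algebraMap K F (v : K) * hp
  refine ⟨h1, ?_⟩
  apply mul_left_cancel₀ ht1
  linear_combination t2 * hp - algebraMap K F (u : K) * h1

private theorem no_rel {v : K} (hv : v ≠ 0) {t1 t2 : F}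
    (hdeg : (minpoly K t1).natDegree = 3) (h11 : t1 ^ 2 = algebraMap K F v * t2) {x0 x1 x2 : K}
    (h : algebraMap K F x0 + algebraMap K F x1 * t1 + algebraMap K F x2 * t2 = 0) :
    x0 = 0 ∧ x1 = 0 ∧ x2 = 0 := by
  have hv' : algebraMap K F v ≠ 0 := by rwa [Ne, map_eq_zero]
  set P : Polynomial K := Polynomial.C x0 + Polynomial.C x1 * Polynomial.X +
    Polynomial.C (x2 / v) * Polynomial.X ^ 2 with hP
  have hev : Polynomial.aeval t1 P = 0 := by
    rw [hP]
    simp only [map_add, map_mul, map_pow, Polynomial.aeval_C, Polynomial.aeval_X]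
    rw [h11, map_div₀, ← h]
    field_simp
  have hdP : P.natDegree < (minpoly K t1).natDegree := by
    rw [hdeg, hP]
    refine Nat.lt_of_le_of_lt (m := 2) ?_ (by norm_num)
    compute_degree
  have hP0 : P = 0 := Polynomial.eq_zero_of_dvd_of_natDegree_lt (minpoly.dvd K t1 hev) hdP
  have c0 := congrArg (fun Q : Polynomial K => Q.coeff 0) hP0
  have c1 := congrArg (fun Q : Polynomial K => Q.coeff 1) hP0
  have c2 := congrArg (fun Q : Polynomial K => Q.coeff 2) hP0
  simp [hP, Polynomial.coeff_X, Polynomial.coeff_C, Polynomial.coeff_X_pow] at c0 c1 c2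
  exact ⟨c0, c1, c2.resolve_right hv⟩

theorem dat_basis {u v : 𝓞 K} {t1 t2 a : F} (h : Dat F u v t1 t2 a) (hu : u ≠ 0) (hv : v ≠ 0) :
    ∃ B : Module.Basis (Fin 3) K F, B 0 = 1 ∧ B 1 = t1 ∧ B 2 = t2 := by
  have hrel := dat_rel h hu hv
  have hint : IsIntegral K t1 := Algebra.IsIntegral.isIntegral t1
  have hdeg : (minpoly K t1).natDegree = 3 := by
    rw [← IntermediateField.adjoin.finrank hint, h.gen, IntermediateField.finrank_top']
    exact h.deg
  have hv' : (v : K) ≠ 0 := by exact_mod_cast hv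
  have hli : LinearIndependent K ![(1 : F), t1, t2] := by
    rw [Fintype.linearIndependent_iff]
    intro g hg
    rw [Fin.sum_univ_three] at hg
    simp only [Matrix.cons_val_zero, Matrix.cons_val_one, Matrix.cons_val_two, Algebra.smul_def,
      Matrix.head_cons, Matrix.tail_cons, mul_one, Matrix.cons_val] at hg
    obtain ⟨h0, h1, h2⟩ := no_rel hv' hdeg hrel.1 hg
    intro i
    fin_cases i
    · exact h0
    · exact h1
    · exact h2
  have hc : Fintype.card (Fin 3) = Module.finrank K F := by rw [h.deg, Fintype.card_fin]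
  refine ⟨basisOfLinearIndependentOfCardEqFinrank hli hc, ?_, ?_, ?_⟩ <;>
    simp

end Pool.Agent.H12.WM
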