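import Pool.Agent.H12.WM.Nrm

/-!
# [H12 WM Sqr] W1, step 9.2: `E = 0` gives `(D1, D2, D3) = -(p², pq, q²)` with integral `p, q`

PROOF. Let `B` be the basis of `dat_basis`. `z := zz u v t1 t2 β = x0 + x1 t1 + x2 t2` with `x0 = u v D2`, `x1 = -u D3`, `x2 = -v D1`
(in `K`). `x2 ≠ 0`, so `z ≠ 0` (`B` is a basis: apply `B.repr` at `2`; or: `norm_lin` and the next line). By `norm_lin`
  `N z = u³v³D2³ - u⁴v²D3³ - u²v⁴D1³ - 3u³v³D1D2D3`, and with `D1 D3 = D2²` (from `E = 0`):  `D1³ N z = -(u v (u D2³ + v D1³))²`.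
`a z = y²`, so `N a N z = (N y)²`, `N a = k²`, `k ≠ 0` (`a ≠ 0`, `Algebra.norm_ne_zero_iff`), hence `N z = (N y / k)²`, and `N z ≠ 0` because `z ≠ 0`.
So `-D1 = (u v (u D2³ + v D1³) / (D1 · N y / k))² =: P²` with `P ∈ K`. `P² = -D1` is integral, so `P = p ∈ 𝓞 K`
(`IsIntegralClosure` / `IsIntegral.of_pow`; an element of `K` integral over `𝓞 K` or over `ℤ` is in `𝓞 K`: `NumberField.RingOfIntegers` is the
integral closure, `⟨P, h⟩ : 𝓞 K` with `h : IsIntegral ℤ P`). `q := -D2 / p` in `K`: `q² = D2²/p² = -D2²/D1 = -D3`, integral, so `q ∈ 𝓞 K`;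
`p q = -D2`.
-/

set_option autoImplicit false

open scoped NumberField

namespace Pool.Agent.H12.WM

open H88.A4

variable {K F : Type} [Field K] [NumberField K] [Field F] [NumberField F] [Algebra K F]

theorem exists_pq_int {u v : 𝓞 K} {t1 t2 a : F} (h : Dat F u v t1 t2 a) (hu : u ≠ 0) (hv : v ≠ 0)
    {β : Blk (𝓞 K)} (hsq : IsSquare (a * zz u v t1 t2 β)) (hE : β.E = 0) (hD1 : β.D1 ≠ 0) :
    ∃ p q : 𝓞 K, β.D1 = -p ^ 2 ∧ β.D2 = -(p * q) ∧ β.D3 = -q ^ 2 := by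
  have hfd : FiniteDimensional K F := FiniteDimensional.of_finrank_pos (by rw [h.deg]; norm_num)
  obtain ⟨B, hB0, hB1, hB2⟩ := dat_basis h hu hv
  obtain ⟨h11, h22⟩ := dat_rel h hu hv
  have h12 := h.prd
  set U : K := algebraMap (𝓞 K) K u with hU
  set V : K := algebraMap (𝓞 K) K v with hV
  set d1 : K := algebraMap (𝓞 K) K β.D1 with hd1
  set d2 : K := algebraMap (𝓞 K) K β.D2 with hd2
  set d3 : K := algebraMap (𝓞 K) K β.D3 with hd3
  have hinj : Function.Injective (algebraMap (𝓞 K) K) := IsFractionRing.injective (𝓞 K) K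
  have hV0 : V ≠ 0 := by
    rw [hV, Ne, map_eq_zero_iff _ hinj]
    exact hv
  have hd10 : d1 ≠ 0 := by
    rw [hd1, Ne, map_eq_zero_iff _ hinj]
    exact hD1
  have hEq : d1 * d3 = d2 ^ 2 := by
    have h1 : β.D1 * β.D3 = β.D2 ^ 2 := by
      have h2 : β.D1 * β.D3 - β.D2 ^ 2 = 0 := hE
      exact sub_eq_zero.1 h2
    rw [hd1, hd2, hd3, ← map_mul, h1, map_pow]
  have hz : zz u v t1 t2 β = algebraMap K F (U * V * d2) + algebraMap K F (-(U * d3)) * t1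
      + algebraMap K F (-(V * d1)) * t2 := by
    have e1 : ((u * v * β.D2 : 𝓞 K) : K) = U * V * d2 := by
      rw [NumberField.RingOfIntegers.coe_eq_algebraMap, map_mul, map_mul]
    have e2 : ((u * β.D3 : 𝓞 K) : K) = U * d3 := by
      rw [NumberField.RingOfIntegers.coe_eq_algebraMap, map_mul]
    have e3 : ((v * β.D1 : 𝓞 K) : K) = V * d1 := by
      rw [NumberField.RingOfIntegers.coe_eq_algebraMap, map_mul]
    unfold zz
    rw [e1, e2, e3, map_neg, map_neg]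
    ring
  have hN := norm_lin B hB0 hB1 hB2 h11 h22 h12 (U * V * d2) (-(U * d3)) (-(V * d1))
  rw [← hz] at hN
  have hz0 : zz u v t1 t2 β ≠ 0 := by
    intro h0
    have h1 : zz u v t1 t2 β = ∑ i, (![U * V * d2, -(U * d3), -(V * d1)] : Fin 3 → K) i • B i := by
      rw [Fin.sum_univ_three, hB0, hB1, hB2, hz]
      simp [Algebra.smul_def]
    have h2 : (B.repr (zz u v t1 t2 β)) 2
        = (![U * V * d2, -(U * d3), -(V * d1)] : Fin 3 → K) 2 := by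
      rw [h1, B.repr_sum_self]
    rw [h0, map_zero, Finsupp.zero_apply] at h2
    have h3 : (0 : K) = -(V * d1) := h2
    exact mul_ne_zero hV0 hd10 (neg_eq_zero.1 h3.symm)
  obtain ⟨y, hy⟩ := hsq
  obtain ⟨k, hk⟩ := h.nsq
  have hNa : Algebra.norm K a ≠ 0 := Algebra.norm_ne_zero_iff.2 h.a0
  have hNz : Algebra.norm K (zz u v t1 t2 β) ≠ 0 := Algebra.norm_ne_zero_iff.2 hz0
  have hk0 : k ≠ 0 := by
    rintro rfl
    exact hNa (by rw [hk, mul_zero])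
  have hyy : k * k * Algebra.norm K (zz u v t1 t2 β) = Algebra.norm K y * Algebra.norm K y := by
    rw [← hk, ← map_mul, hy, map_mul]
  have hY0 : Algebra.norm K y ≠ 0 := by
    intro h0
    rw [h0, mul_zero] at hyy
    exact mul_ne_zero (mul_ne_zero hk0 hk0) hNz hyy
  set Y : K := Algebra.norm K y with hY
  set Z : K := Algebra.norm K (zz u v t1 t2 β) with hZ
  have hkey : d1 ^ 3 * Z = -(U * V * (U * d2 ^ 3 + V * d1 ^ 3)) ^ 2 := by
    rw [hN]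
    linear_combination (-(U ^ 4 * V ^ 2) * (d1 ^ 2 * d3 ^ 2 + d1 * d3 * d2 ^ 2 + d2 ^ 4)
      - 3 * U ^ 3 * V ^ 3 * d1 ^ 3 * d2) * hEq
  set P : K := U * V * (U * d2 ^ 3 + V * d1 ^ 3) * k / (d1 * Y) with hP
  have hP2 : P ^ 2 = -d1 := by
    have h1 : P * (d1 * Y) = U * V * (U * d2 ^ 3 + V * d1 ^ 3) * k := by
      rw [hP, div_mul_cancel₀ _ (mul_ne_zero hd10 hY0)]
    have h2 : P ^ 2 * (d1 ^ 2 * Y ^ 2) = -d1 * (d1 ^ 2 * Y ^ 2) := by
      calc P ^ 2 * (d1 ^ 2 * Y ^ 2) = (P * (d1 * Y)) ^ 2 := by ring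
        _ = -(d1 ^ 3 * Z) * k ^ 2 := by rw [h1, hkey]; ring
        _ = -d1 * (d1 ^ 2 * Y ^ 2) := by
          linear_combination (-d1 ^ 3) * hyy
    exact mul_right_cancel₀ (mul_ne_zero (pow_ne_zero 2 hd10) (pow_ne_zero 2 hY0)) h2
  have hP0 : P ≠ 0 := by
    intro h0
    rw [h0, zero_pow two_ne_zero] at hP2
    exact hd10 (neg_eq_zero.1 hP2.symm)
  have hPi : IsIntegral ℤ P := by
    refine IsIntegral.of_pow (n := 2) two_pos ?_
    rw [hP2]
    exact (NumberField.RingOfIntegers.isIntegral_coe β.D1).neg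
  set Q : K := -d2 / P with hQ
  have hQ2 : Q ^ 2 = -d3 := by
    rw [hQ, div_pow, hP2, neg_sq, ← hEq, div_neg, mul_div_cancel_left₀ _ hd10]
  have hQi : IsIntegral ℤ Q := by
    refine IsIntegral.of_pow (n := 2) two_pos ?_
    rw [hQ2]
    exact (NumberField.RingOfIntegers.isIntegral_coe β.D3).neg
  have hPQ : P * Q = -d2 := by
    rw [hQ, mul_div_cancel₀ _ hP0]
  obtain ⟨p, hp⟩ : ∃ p : 𝓞 K, algebraMap (𝓞 K) K p = P := ⟨⟨P, hPi⟩, rfl⟩
  obtain ⟨q, hq⟩ : ∃ q : 𝓞 K, algebraMap (𝓞 K) K q = Q := ⟨⟨Q, hQi⟩, rfl⟩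
  refine ⟨p, q, hinj ?_, hinj ?_, hinj ?_⟩
  · rw [map_neg, map_pow, hp, hP2, neg_neg]
  · rw [map_neg, map_mul, hp, hq, hPQ, neg_neg]
  · rw [map_neg, map_pow, hq, hQ2, neg_neg]

end Pool.Agent.H12.WM
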