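import Pool.Agent.H88.A4.Iface
import Pool.Agent.H88.A4.Geo

/-!
# [H12 WM UVc] W1, step 9.4: number of `(u, v)` for given `(p, q, n)`

STATEMENT. `M ∈ (p, q)`, `p, q ≠ 0`: the number of `(u, v)` with `|u| ≤ C s³`, `|v| ≤ C t³` (all embeddings) and `v p³ + u q³ = n` is at most
`C' (1 + (s t)^(3d/2) (nm p · nm q)^(-3/2))`, `d = [K : ℚ]`.

PROOF. (a) `M⁵ ∈ (p³, q³)`: `M = x p + y q`, so `M⁵ = (xp + yq)⁵` and every monomial contains `p³` or `q³`; `M⁵ = X p³ + Y q³`.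
(b) Two solutions `(u,v) ≠ (u',v')`: `(v - v') p³ = -(u - u') q³`, so `u ≠ u'` and `v ≠ v'` (`p, q ≠ 0`), and
`M⁵ (u - u') = (X (u-u') - Y (v-v')) p³`, so with `nm_mul`, `one_le_nm` (the bracket is not 0) `nm(u - u') ≥ nm(p)³ / M^(5d)`
(`nm` of the natural number `M` is `M^d`: `Finset.card_univ`, `NumberField.Embeddings.card`). In the same way `nm(v - v') ≥ nm(q)³ / M^(5d)`.
(c) `box_card` for the image of `S` under `x ↦ x.1` (injective on `S`), `ν = nm(p)³ / M^(5d)`, `R φ = 2 C s³`: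
`#S ≤ C1 (1 + (2C)^d s^(3d) M^(5d) nm(p)^(-3)) ≤ C2 (1 + A)`, `A = s^(3d) nm(p)^(-3)`. The same with `x.2`: `#S ≤ C2 (1 + B)`, `B = t^(3d) nm(q)^(-3)`.
(d) `min(A, B) ≤ √(A B)`, and `√(A B) = (s t)^(3d/2) (nm p nm q)^(-3/2)` (`Real.rpow`; `s, t > 0` from `Rg`).
-/

set_option autoImplicit false

open scoped NumberField

namespace Pool.Agent.H12.WM

open H88.A4

private theorem nm_cube {K : Type} [Field K] [NumberField K] (x : K) : nm (x ^ 3) = nm x ^ 3 := by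
  have h : x ^ 3 = x * x * x := by ring
  rw [h, nm_mul, nm_mul]
  ring

/-- one side: the elements of one coordinate are separated -/
private theorem one_side (K : Type) [Field K] [NumberField K] {C1 : ℝ}
    (hbox : ∀ ν : ℝ, 0 < ν → ∀ R : (K →+* ℂ) → ℝ, (∀ φ, 0 < R φ) →
      ∀ S : Finset K, (∀ x ∈ S, ∀ y ∈ S, x ≠ y → ν ≤ nm (x - y)) →
      (∀ x ∈ S, ∀ y ∈ S, ∀ φ : K →+* ℂ, ‖φ (x - y)‖ ≤ R φ) →
      (S.card : ℝ) ≤ C1 * (1 + (∏ φ, R φ) / ν)) (hC1 : 0 < C1) {m5 : ℝ} (hm5 : 0 < m5) {C : ℝ}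
    (hC : 1 ≤ C) {s : ℝ} (hs : 0 < s) {N : ℝ} (hN : 0 < N) (S : Finset (𝓞 K × 𝓞 K))
    (f : 𝓞 K × 𝓞 K → 𝓞 K) (hinj : Set.InjOn f S) (hb : ∀ x ∈ S, Bd (C * s ^ 3) (f x))
    (hsep : ∀ x ∈ S, ∀ y ∈ S, x ≠ y → N ^ 3 ≤ m5 * nm ((f x : K) - (f y : K))) :
    (S.card : ℝ) ≤ C1 * (1 + m5 * (2 * C) ^ (Module.finrank ℚ K)) *
      (1 + s ^ (3 * Module.finrank ℚ K) * (N ^ 3)⁻¹) := by
  classical
  have hinj' : Set.InjOn (fun x => ((f x : 𝓞 K) : K)) S := by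
    intro x hx y hy h
    exact hinj hx hy (NumberField.RingOfIntegers.coe_injective h)
  have hcard : (S.image (fun x => ((f x : 𝓞 K) : K))).card = S.card := Finset.card_image_of_injOn hinj'
  have h := hbox (N ^ 3 / m5) (by positivity) (fun _ => 2 * (C * s ^ 3)) (fun _ => by positivity)
    (S.image (fun x => ((f x : 𝓞 K) : K))) (by
      intro x hx y hy hxy
      obtain ⟨a, ha, rfl⟩ := Finset.mem_image.1 hx
      obtain ⟨b, hb', rfl⟩ := Finset.mem_image.1 hy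
      rw [div_le_iff₀ hm5, mul_comm]
      exact hsep a ha b hb' (fun h => hxy (by rw [h]))) (by
      intro x hx y hy φ
      obtain ⟨a, ha, rfl⟩ := Finset.mem_image.1 hx
      obtain ⟨b, hb', rfl⟩ := Finset.mem_image.1 hy
      rw [map_sub]
      calc ‖φ (f a : K) - φ (f b : K)‖ ≤ ‖φ (f a : K)‖ + ‖φ (f b : K)‖ := norm_sub_le _ _
        _ ≤ C * s ^ 3 + C * s ^ 3 := add_le_add (hb a ha φ) (hb b hb' φ)
        _ = 2 * (C * s ^ 3) := by ring)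
  rw [hcard] at h
  have hprod : (∏ _φ : K →+* ℂ, (2 * (C * s ^ 3))) = (2 * C) ^ (Module.finrank ℚ K) *
      s ^ (3 * Module.finrank ℚ K) := by
    rw [Finset.prod_const, Finset.card_univ, NumberField.Embeddings.card K ℂ, ← mul_assoc, mul_pow,
      ← pow_mul]
  rw [hprod] at h
  refine h.trans ?_
  have hA : 0 < s ^ (3 * Module.finrank ℚ K) * (N ^ 3)⁻¹ := by positivity
  have hD : 0 < m5 * (2 * C) ^ (Module.finrank ℚ K) := by positivity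
  have e : (2 * C) ^ (Module.finrank ℚ K) * s ^ (3 * Module.finrank ℚ K) / (N ^ 3 / m5) =
      (m5 * (2 * C) ^ (Module.finrank ℚ K)) * (s ^ (3 * Module.finrank ℚ K) * (N ^ 3)⁻¹) := by
    field_simp
  rw [e]
  obtain ⟨D, hDe⟩ : ∃ D : ℝ, D = m5 * (2 * C) ^ (Module.finrank ℚ K) := ⟨_, rfl⟩
  obtain ⟨A, hAe⟩ : ∃ A : ℝ, A = s ^ (3 * Module.finrank ℚ K) * (N ^ 3)⁻¹ := ⟨_, rfl⟩
  rw [← hDe] at hD ⊢
  rw [← hAe] at hA ⊢
  have h1 : 1 + D * A ≤ (1 + D) * (1 + A) := by nlinarith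
  calc C1 * (1 + D * A) ≤ C1 * ((1 + D) * (1 + A)) := mul_le_mul_of_nonneg_left h1 hC1.le
    _ = C1 * (1 + D) * (1 + A) := by ring

theorem uv_card (K : Type) [Field K] [NumberField K] (M : ℕ) (hM : M ≠ 0) (C : ℝ) (hC : 1 ≤ C) :
    ∃ C' : ℝ, 0 < C' ∧ ∀ s t : ℝ, Rg C s t → ∀ p q n : 𝓞 K, p ≠ 0 → q ≠ 0 →
      (M : 𝓞 K) ∈ Ideal.span {p, q} → ∀ S : Finset (𝓞 K × 𝓞 K),
      (∀ x ∈ S, Bd (C * s ^ 3) x.1 ∧ Bd (C * t ^ 3) x.2 ∧ x.2 * p ^ 3 + x.1 * q ^ 3 = n) →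
      (S.card : ℝ) ≤ C' * (1 + (s * t) ^ (3 / 2 * (Module.finrank ℚ K : ℝ)) *
        (nm (p : K) * nm (q : K)) ^ (-(3 / 2) : ℝ)) := by
  classical
  obtain ⟨C1, hC1, hbox⟩ := box_card K
  obtain ⟨m5, hm5e⟩ : ∃ m5 : ℝ, m5 = nm ((M : K) ^ 5) := ⟨_, rfl⟩
  have hMK : (M : K) ≠ 0 := Nat.cast_ne_zero.2 hM
  have hm5 : 0 < m5 := by
    rw [hm5e]
    unfold nm
    refine Finset.prod_pos (fun φ _ => norm_pos_iff.2 ?_)
    exact (map_ne_zero φ).2 (pow_ne_zero 5 hMK)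
  refine ⟨C1 * (1 + m5 * (2 * C) ^ (Module.finrank ℚ K)), by positivity, ?_⟩
  intro s t hst p q n hp hq hMpq S hS
  have ht : 0 < t := by
    by_contra h
    have h1 := hst.1
    nlinarith
  have hs : 0 < s := lt_of_lt_of_le ht hst.2
  obtain ⟨x, y, hxy⟩ := Ideal.mem_span_pair.1 hMpq
  obtain ⟨X, hX⟩ : ∃ X : 𝓞 K, X = x ^ 5 * p ^ 2 + 5 * x ^ 4 * y * p * q + 10 * x ^ 3 * y ^ 2 * q ^ 2 :=
    ⟨_, rfl⟩
  obtain ⟨Y, hY⟩ : ∃ Y : 𝓞 K, Y = 10 * x ^ 2 * y ^ 3 * p ^ 2 + 5 * x * y ^ 4 * p * q + y ^ 5 * q ^ 2 :=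
    ⟨_, rfl⟩
  have hM5 : (M : 𝓞 K) ^ 5 = X * p ^ 3 + Y * q ^ 3 := by
    rw [← hxy, hX, hY]
    ring
  have hnp : 0 < nm (p : K) := lt_of_lt_of_le one_pos (one_le_nm K p hp)
  have hnq : 0 < nm (q : K) := lt_of_lt_of_le one_pos (one_le_nm K q hq)
  have hM5' : (M : 𝓞 K) ^ 5 ≠ 0 := pow_ne_zero 5 (Nat.cast_ne_zero.2 hM)
  have key : ∀ a ∈ S, ∀ b ∈ S, (a.2 - b.2) * p ^ 3 + (a.1 - b.1) * q ^ 3 = 0 := by
    intro a ha b hb
    have h1 := (hS a ha).2.2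
    have h2 := (hS b hb).2.2
    linear_combination h1 - h2
  have inj1 : Set.InjOn (fun x : 𝓞 K × 𝓞 K => x.1) S := by
    intro a ha b hb h
    have h' : a.1 = b.1 := h
    have k := key a ha b hb
    rw [h', sub_self, zero_mul, add_zero] at k
    rcases mul_eq_zero.1 k with k | k
    · exact Prod.ext h' (sub_eq_zero.1 k)
    · exact absurd k (pow_ne_zero 3 hp)
  have inj2 : Set.InjOn (fun x : 𝓞 K × 𝓞 K => x.2) S := by
    intro a ha b hb h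
    have h' : a.2 = b.2 := h
    have k := key a ha b hb
    rw [h', sub_self, zero_mul, zero_add] at k
    rcases mul_eq_zero.1 k with k | k
    · exact Prod.ext (sub_eq_zero.1 k) h'
    · exact absurd k (pow_ne_zero 3 hq)
  -- separation
  have sep : ∀ (w z P : 𝓞 K), w ≠ 0 → P ≠ 0 → (M : 𝓞 K) ^ 5 * w = P ^ 3 * z →
      nm (P : K) ^ 3 ≤ m5 * nm (w : K) := by
    intro w z P hw hP h
    have hz : z ≠ 0 := by
      intro hz
      rw [hz, mul_zero] at h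
      rcases mul_eq_zero.1 h with h | h
      · exact hM5' h
      · exact hw h
    have h' : (M : K) ^ 5 * (w : K) = (P : K) ^ 3 * (z : K) := by
      have h3 := congrArg (algebraMap (𝓞 K) K) h
      rw [map_mul, map_mul, map_pow, map_pow, map_natCast] at h3
      exact h3
    have h4 : m5 * nm (w : K) = nm (P : K) ^ 3 * nm (z : K) := by
      rw [hm5e, ← nm_mul, h', nm_mul, nm_cube]
    rw [h4]
    have h5 := one_le_nm K z hz
    have h6 : 0 < nm (P : K) := lt_of_lt_of_le one_pos (one_le_nm K P hP)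
    exact le_mul_of_one_le_right (by positivity) h5
  have b1 := one_side K hbox hC1 hm5 hC hs hnp S (fun x => x.1) inj1 (fun x hx => (hS x hx).1) (by
    intro a ha b hb hab
    have hne : a.1 - b.1 ≠ 0 := fun h => hab (inj1 ha hb (sub_eq_zero.1 h))
    have h := sep (a.1 - b.1) (X * (a.1 - b.1) - Y * (a.2 - b.2)) p hne hp (by
      rw [hM5]
      have k := key a ha b hb
      linear_combination Y * k)
    have e : ((a.1 - b.1 : 𝓞 K) : K) = (a.1 : K) - (b.1 : K) := map_sub (algebraMap (𝓞 K) K) _ _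
    rw [e] at h
    exact h)
  have b2 := one_side K hbox hC1 hm5 hC ht hnq S (fun x => x.2) inj2 (fun x hx => (hS x hx).2.1) (by
    intro a ha b hb hab
    have hne : a.2 - b.2 ≠ 0 := fun h => hab (inj2 ha hb (sub_eq_zero.1 h))
    have h := sep (a.2 - b.2) (Y * (a.2 - b.2) - X * (a.1 - b.1)) q hne hq (by
      rw [hM5]
      have k := key a ha b hb
      linear_combination X * k)
    have e : ((a.2 - b.2 : 𝓞 K) : K) = (a.2 : K) - (b.2 : K) := map_sub (algebraMap (𝓞 K) K) _ _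
    rw [e] at h
    exact h)
  obtain ⟨G, hG⟩ : ∃ G : ℝ, G = C1 * (1 + m5 * (2 * C) ^ (Module.finrank ℚ K)) := ⟨_, rfl⟩
  obtain ⟨A, hA⟩ : ∃ A : ℝ, A = s ^ (3 * Module.finrank ℚ K) * (nm (p : K) ^ 3)⁻¹ := ⟨_, rfl⟩
  obtain ⟨B, hB⟩ : ∃ B : ℝ, B = t ^ (3 * Module.finrank ℚ K) * (nm (q : K) ^ 3)⁻¹ := ⟨_, rfl⟩
  obtain ⟨Z, hZ⟩ : ∃ Z : ℝ, Z = (s * t) ^ (3 / 2 * (Module.finrank ℚ K : ℝ)) *
      (nm (p : K) * nm (q : K)) ^ (-(3 / 2) : ℝ) := ⟨_, rfl⟩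
  rw [← hG, ← hA] at b1
  rw [← hG, ← hB] at b2
  rw [← hG, ← hZ]
  have hG0 : 0 < G := by rw [hG]; positivity
  have hA0 : 0 < A := by rw [hA]; positivity
  have hB0 : 0 < B := by rw [hB]; positivity
  have hZ0 : 0 < Z := by rw [hZ]; positivity
  have hst0 : 0 < s * t := mul_pos hs ht
  have hpq0 : 0 < nm (p : K) * nm (q : K) := mul_pos hnp hnq
  have hZZ : Z ^ 2 = A * B := by
    have e1 : ((s * t) ^ (3 / 2 * (Module.finrank ℚ K : ℝ))) ^ 2 = (s * t) ^ (3 * Module.finrank ℚ K) := by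
      rw [← Real.rpow_natCast, ← Real.rpow_mul hst0.le, ← Real.rpow_natCast]
      congr 1
      push_cast
      ring
    have e2 : ((nm (p : K) * nm (q : K)) ^ (-(3 / 2) : ℝ)) ^ 2 = ((nm (p : K) * nm (q : K)) ^ 3)⁻¹ := by
      rw [← Real.rpow_natCast, ← Real.rpow_mul hpq0.le, ← Real.rpow_natCast _ 3, ← Real.rpow_neg hpq0.le]
      congr 1
      push_cast
      ring
    rw [hZ, mul_pow, e1, e2, hA, hB, mul_pow, mul_pow, mul_inv]
    ring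
  rcases le_total A B with h | h
  · have h1 : A ≤ Z := by
      refine le_of_pow_le_pow_left₀ two_ne_zero hZ0.le ?_
      rw [hZZ, pow_two]
      exact mul_le_mul_of_nonneg_left h hA0.le
    exact b1.trans (mul_le_mul_of_nonneg_left (by linarith) hG0.le)
  · have h1 : B ≤ Z := by
      refine le_of_pow_le_pow_left₀ two_ne_zero hZ0.le ?_
      rw [hZZ, pow_two]
      exact mul_le_mul_of_nonneg_right h hB0.le
    exact b2.trans (mul_le_mul_of_nonneg_left (by linarith) hG0.le)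

end Pool.Agent.H12.WM
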