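import Pool.Agent.H12.WM.Rel

/-!
# [H12 WM Unr] W1, step 9: `F / K` is unramified at the primes which do not divide `3uv`

PROOF. `t1` is integral (`t1³ = u v² ∈ 𝓞 K`); let `τ ∈ 𝓞 F` be `t1`. Its minimal polynomial over `𝓞 K` (over `K`) is `X³ - u v²` (degree 3 because
`K(t1) = F` has degree 3), the derivative at `τ` is `3 τ²`. So `3 τ²` is in the different ideal of `𝓞 F / 𝓞 K`
(`aeval_derivative_mem_differentIdeal`, Mathlib/RingTheory/DedekindDomain/Different). If `P` is ramified, `P ∣ differentIdeal`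
(`not_dvd_differentIdeal_iff`, `dvd_differentIdeal_iff`), so `3 τ² ∈ P`, so `3 ∈ P` or `τ ∈ P`, then `u v² = τ³ ∈ P`, so `3uv ∈ P ∩ 𝓞 K = l`.
Unramified at `P` gives `ramificationIdx = 1` (`Ideal.ramificationIdx_eq_one_of_isUnramifiedAt` or similar).
ALTERNATIVE without the different: Kummer-Dedekind, or: a prime `P` with `e ≥ 2` gives `x ∈ 𝓞 F` with `x² ∈ l 𝓞 F`, `x ∉ l 𝓞 F`
(`x ∈ P^(e-1) ∏ other`); `27u²v⁴ x = y0 + y1 τ + y2 τ²` with `y_i ∈ 𝓞 K` (traces), and the trace, the second coefficient and the norm of this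
element are in `l`, so `3 y0`, `3 y1 y2 u v²`, `y1³ u v² + y2³ u² v⁴ ∈ l` and all `y_i ∈ l`.
-/

set_option autoImplicit false

open IsDedekindDomain
open scoped NumberField

namespace Pool.Agent.H12.WM

open H88.A4

private theorem minpoly_int {K F : Type} [Field K] [NumberField K] [Field F] [NumberField F] [Algebra K F]
    {u v : 𝓞 K} {t1 t2 a : F} (h : Dat F u v t1 t2 a) {τ : 𝓞 F} (hτ : (τ : F) = t1) :
    minpoly (𝓞 K) τ = Polynomial.X ^ 3 - Polynomial.C (u * v ^ 2) := by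
  have hint : IsIntegral (𝓞 K) τ := Algebra.IsIntegral.isIntegral τ
  have hroot : Polynomial.aeval τ (Polynomial.X ^ 3 - Polynomial.C (u * v ^ 2) : Polynomial (𝓞 K)) = 0 := by
    have hinj : Function.Injective (algebraMap (𝓞 F) F) := NumberField.RingOfIntegers.coe_injective
    apply hinj
    simp only [map_sub, map_pow, Polynomial.aeval_X, Polynomial.aeval_C, map_zero]
    have h1 : algebraMap (𝓞 F) F (algebraMap (𝓞 K) (𝓞 F) (u * v ^ 2)) =
        algebraMap K F ((u : K) * (v : K) ^ 2) := by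
      rw [← IsScalarTower.algebraMap_apply (𝓞 K) (𝓞 F) F, IsScalarTower.algebraMap_apply (𝓞 K) K F]
      simp
    rw [h1, ← h.cub]
    show (τ : F) ^ 3 - t1 ^ 3 = 0
    rw [hτ, sub_self]
  have hmonic : (Polynomial.X ^ 3 - Polynomial.C (u * v ^ 2) : Polynomial (𝓞 K)).Monic :=
    Polynomial.monic_X_pow_sub_C _ (by norm_num)
  have hnd : (Polynomial.X ^ 3 - Polynomial.C (u * v ^ 2) : Polynomial (𝓞 K)).natDegree = 3 :=
    Polynomial.natDegree_X_pow_sub_C
  have hdvd := minpoly.isIntegrallyClosed_dvd hint hroot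
  have hdeg : (minpoly (𝓞 K) τ).natDegree = 3 := by
    have h2 := minpoly.isIntegrallyClosed_eq_field_fractions K F hint
    have h3 : (minpoly K (algebraMap (𝓞 F) F τ)).natDegree = 3 := by
      have h4 : algebraMap (𝓞 F) F τ = t1 := hτ
      rw [h4, ← IntermediateField.adjoin.finrank (Algebra.IsIntegral.isIntegral t1), h.gen,
        IntermediateField.finrank_top']
      exact h.deg
    rw [h2, (minpoly.monic hint).natDegree_map] at h3
    exact h3
  exact (Polynomial.eq_of_monic_of_dvd_of_natDegree_le (minpoly.monic hint) hmonic hdvd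
    (by rw [hdeg, hnd])).symm

theorem unram {K F : Type} [Field K] [NumberField K] [Field F] [NumberField F] [Algebra K F]
    {u v : 𝓞 K} {t1 t2 a : F} (h : Dat F u v t1 t2 a) (l : HeightOneSpectrum (𝓞 K))
    (hl : (3 * u * v : 𝓞 K) ∉ l.asIdeal) (P : HeightOneSpectrum (𝓞 F)) [P.asIdeal.LiesOver l.asIdeal] :
    l.asIdeal.ramificationIdx' P.asIdeal = 1 := by
  have hint : IsIntegral ℤ t1 := by
    have h1 : IsIntegral (𝓞 K) t1 := by
      refine IsIntegral.of_pow (n := 3) (by norm_num) ?_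
      rw [h.cub]
      have h2 : algebraMap K F ((u : K) * (v : K) ^ 2) = algebraMap (𝓞 K) F (u * v ^ 2) := by
        rw [IsScalarTower.algebraMap_apply (𝓞 K) K F]
        simp
      rw [h2]
      exact isIntegral_algebraMap
    exact isIntegral_trans t1 h1
  obtain ⟨τ, hτ⟩ : ∃ τ : 𝓞 F, (τ : F) = t1 := ⟨⟨t1, hint⟩, rfl⟩
  have hmin := minpoly_int h hτ
  have hne : l.asIdeal.ramificationIdx' P.asIdeal ≠ 0 :=
    Ideal.IsDedekindDomain.ramificationIdx'_ne_zero_of_liesOver P.asIdeal l.ne_bot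
  by_contra hcon
  have h2 : 2 ≤ l.asIdeal.ramificationIdx' P.asIdeal := by omega
  have hle : l.asIdeal.map (algebraMap (𝓞 K) (𝓞 F)) ≤ P.asIdeal ^ 2 :=
    Ideal.le_pow_of_le_ramificationIdx' h2
  have hd := pow_sub_one_dvd_differentIdeal (A := 𝓞 K) (B := 𝓞 F) (p := l.asIdeal) P.asIdeal 2 l.ne_bot
    (Ideal.dvd_iff_le.2 hle)
  rw [show 2 - 1 = 1 from rfl, pow_one, Ideal.dvd_iff_le] at hd
  have hmem : Polynomial.aeval τ (Polynomial.derivative (minpoly (𝓞 K) τ)) ∈ differentIdeal (𝓞 K) (𝓞 F) := by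
    refine aeval_derivative_mem_differentIdeal (𝓞 K) K F τ ?_
    have h4 : algebraMap (𝓞 F) F τ = t1 := hτ
    rw [h4]
    have h5 := congrArg IntermediateField.toSubalgebra h.gen
    rw [IntermediateField.adjoin_simple_toSubalgebra_of_isAlgebraic
      (Algebra.IsAlgebraic.isAlgebraic t1)] at h5
    rw [h5]
    rfl
  have h6 := hd hmem
  have hder : Polynomial.aeval τ (Polynomial.derivative
      (Polynomial.X ^ 3 - Polynomial.C (u * v ^ 2) : Polynomial (𝓞 K))) = 3 * τ ^ 2 := by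
    rw [Polynomial.derivative_sub, Polynomial.derivative_C, sub_zero, Polynomial.derivative_X_pow]
    simp only [map_mul, map_pow, Polynomial.aeval_X, Polynomial.aeval_C]
    congr 1
    norm_num
    exact map_ofNat (algebraMap (𝓞 K) (𝓞 F)) 3
  rw [hmin, hder] at h6
  have hP : P.asIdeal.IsPrime := P.isPrime
  apply hl
  have hover : l.asIdeal = P.asIdeal.comap (algebraMap (𝓞 K) (𝓞 F)) := P.asIdeal.over_def l.asIdeal
  rw [hover, Ideal.mem_comap, map_mul, map_mul]
  rcases hP.mem_or_mem h6 with h7 | h7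
  · have h8 : algebraMap (𝓞 K) (𝓞 F) 3 ∈ P.asIdeal := by
      rw [map_ofNat]
      exact h7
    exact Ideal.mul_mem_right _ _ (Ideal.mul_mem_right _ _ h8)
  · have h8 : τ ∈ P.asIdeal := hP.mem_of_pow_mem _ h7
    have h9 : algebraMap (𝓞 K) (𝓞 F) (u * v ^ 2) = τ ^ 3 := by
      apply NumberField.RingOfIntegers.coe_injective
      show algebraMap (𝓞 F) F (algebraMap (𝓞 K) (𝓞 F) (u * v ^ 2)) = algebraMap (𝓞 F) F (τ ^ 3)
      have h12 : algebraMap (𝓞 F) F τ = t1 := hτ
      rw [← IsScalarTower.algebraMap_apply (𝓞 K) (𝓞 F) F, IsScalarTower.algebraMap_apply (𝓞 K) K F,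
        map_pow, h12, h.cub]
      simp
    have h10 : algebraMap (𝓞 K) (𝓞 F) (u * v ^ 2) ∈ P.asIdeal := by
      rw [h9]
      exact Ideal.pow_mem_of_mem _ h8 3 (by norm_num)
    rw [map_mul, map_pow] at h10
    rcases hP.mem_or_mem h10 with h11 | h11
    · exact Ideal.mul_mem_right _ _ (Ideal.mul_mem_left _ _ h11)
    · exact Ideal.mul_mem_left _ _ (hP.mem_of_pow_mem _ h11)

end Pool.Agent.H12.WM
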